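import Pool.Agent.T2H06.DYN.GeoD
import Pool.Agent.T2H06.DYN.Defs
import Pool.Agent.R887.Nef
import Pool.Agent.R887.Kap

/-!
**The numerical dimension of `K_X` and the dynamical degrees of a birational self-map.**
-/

set_option autoImplicit false
set_option linter.overlappingInstances false
set_option linter.unusedSectionVars false
set_option linter.unusedVariables false

open FF Module MvPolynomial Filter Topology Pool.Agent.W602.GT Pool.Agent.W603.LV Pool.Agent.W619.PQ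
open Pool.Agent.Y172 Pool.Agent.Y191 Pool.Agent.R887

namespace Pool.Agent.T2H06.DYN

section

variable {K : Type} [Field K] [Algebra ℂ K] {N : ℕ} {y : Fin (N + 1) → K} {n : ℕ}

/-- the selections from a replicated linear system -/
theorem sel_fin {V : Submodule ℂ K} {q : ℕ} {l : Multiset K} (h : Sel (Multiset.replicate q V) l) :
    ∃ v : Fin q → K, (∀ a, Pen V (v a)) ∧ Finset.univ.val.map v = l := by
  induction q generalizing l with
  | zero =>
    have h1 : l = 0 := by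
      have := h.card
      rw [Multiset.card_replicate] at this
      exact Multiset.card_eq_zero.1 this.symm
    exact ⟨Fin.elim0, fun a => a.elim0, by rw [h1]; rfl⟩
  | succ q ih =>
    rw [Multiset.replicate_succ, sel_cons] at h
    obtain ⟨x, l', hx, hl', rfl⟩ := h
    obtain ⟨v, hv, rfl⟩ := ih hl'
    refine ⟨Fin.cons x v, fun a => ?_, ?_⟩
    · refine Fin.cases ?_ (fun a => ?_) a
      · exact hx
      · exact hv a
    · rw [Fin.univ_succ, Finset.cons_val, Multiset.map_cons, Fin.cons_zero, Finset.map_val,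
        Multiset.map_map]
      rfl

theorem sel_add {L₁ L₂ : Multiset (Submodule ℂ K)} {l : Multiset K} (h : Sel (L₁ + L₂) l) :
    ∃ l₁ l₂, Sel L₁ l₁ ∧ Sel L₂ l₂ ∧ l = l₁ + l₂ := by
  unfold Sel at h ⊢
  rw [Multiset.rel_add_left] at h
  exact h

theorem pen_im {g : K ≃ₐ[ℂ] K} {V : Submodule ℂ K} {x : K} :
    Pen (im g V) x ↔ ∃ x', Pen V x' ∧ g x' = x := by
  constructor
  · rintro ⟨a, ha, b, hb, hb0, rfl⟩
    obtain ⟨a', ha', rfl⟩ := mem_im.1 ha
    obtain ⟨b', hb', rfl⟩ := mem_im.1 hb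
    refine ⟨a' / b', ⟨a', ha', b', hb', fun h => hb0 (by rw [h, map_zero]), rfl⟩, map_div₀ g _ _⟩
  · rintro ⟨x', ⟨a, ha, b, hb, hb0, rfl⟩, rfl⟩
    refine ⟨g a, ⟨a, ha, rfl⟩, g b, ⟨b, hb, rfl⟩, ?_, map_div₀ g _ _⟩
    rwa [Ne, map_eq_zero]

/-- the degrees of the iterates are intersection numbers -/
theorem isGreatest_iter (hn : Algebra.trdeg ℂ K = n) {g : K ≃ₐ[ℂ] K} {W : ℕ → ℕ → Submodule ℂ K}
    {M β : ℕ} (hF : Fam n g (VH y) W M β) {p : ℕ} (hp : p ≤ n) (m : ℕ)
    (hpos : 0 < MM ((tri m 0 0 p 0 (n - p)).map (AA g (VH y)))) :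
    IsGreatest (iterDegrees y n g p m) (MM ((tri m 0 0 p 0 (n - p)).map (AA g (VH y)))) := by
  have htri : (tri m 0 0 p 0 (n - p)).map (AA g (VH y)) =
      Multiset.replicate p (im (g ^ m) (VH y)) + Multiset.replicate (n - p) (VH y) := by
    unfold tri
    rw [Multiset.map_add, Multiset.map_add, Multiset.map_replicate, Multiset.map_replicate,
      Multiset.map_replicate, Multiset.replicate_zero, add_zero, AA_zero]
    unfold AA
    rw [zpow_natCast]
  have hcard : Algebra.trdeg ℂ K = ((tri m 0 0 p 0 (n - p)).map (AA g (VH y))).card := by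
    rw [Multiset.card_map, tri_card, hn]
    congr 1
    omega
  have hfg := map_AA_fg hF (tri m 0 0 p 0 (n - p))
  constructor
  · obtain ⟨l, hl, hmd⟩ := exists_MM hcard hfg hpos.ne'
    rw [← hmd]
    rw [htri] at hl
    obtain ⟨l₁, l₂, h1, h2, rfl⟩ := sel_add hl
    obtain ⟨u', hu', rfl⟩ := sel_fin h1
    obtain ⟨v, hv, rfl⟩ := sel_fin h2
    choose u hu hgu using fun a => pen_im.1 (hu' a)
    refine ⟨u, v, fun a => pen_VH.1 (hu a), fun a => pen_VH.1 (hv a), ?_⟩
    rw [degreeOver_md, add_comm]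
    congr 2
    congr 1
    funext a
    exact hgu a
  · rintro _ ⟨u, v, hu, hv, rfl⟩
    rw [degreeOver_md]
    refine le_MM hcard hfg ?_
    rw [htri, add_comm]
    refine Multiset.Rel.add (sel_rep fun a => pen_VH.2 (hv a)) (sel_rep fun a => ?_)
    exact pen_im.2 ⟨_, pen_VH.2 (hu a), rfl⟩

/-- the intersection numbers of the translates are positive -/
theorem MM_pos (hy : NormalModel y) (hn : Algebra.trdeg ℂ K = n) {g : K ≃ₐ[ℂ] K}
    {W : ℕ → ℕ → Submodule ℂ K} {M β : ℕ} (hF : Fam n g (VH y) W M β) {s : Multiset ℤ}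
    (hs : s.card = n) : 0 < MM (s.map (AA g (VH y))) := by
  have hμ : ∀ k : ℕ, 1 ≤ (fun _ : ℕ => 1) k := fun _ => le_rfl
  have h1 := exists_pos hy hn hF le_rfl 0
  have h2 : 0 < GG g (VH y) W (fun _ => 1) 0 (Multiset.replicate (n - 0) 0) := by
    rw [GG_zero hF hμ (by rw [Multiset.card_replicate, Nat.sub_zero])]
    unfold NN at h1
    rw [Multiset.replicate_zero, zero_add, pow_zero, mul_one] at h1
    linarith
  have h3 := GG_pos hF hμ h2 (Nat.zero_le n) 0 le_rfl s (by omega)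
  rw [GG_zero hF hμ hs] at h3
  exact_mod_cast h3

/-- roots of numbers with a given exponential growth -/
theorem tendsto_root {f : ℕ → ℕ} (hf : ∀ m, 0 < f m) {d : ℝ}
    (h : Tendsto (fun m : ℕ => Real.log (f m) / m) atTop (𝓝 d)) :
    Tendsto (fun m : ℕ => (f m : ℝ) ^ (1 / (m : ℝ))) atTop (𝓝 (Real.exp d)) := by
  have h1 := (Real.continuous_exp.tendsto d).comp h
  refine h1.congr fun m => ?_
  have h2 : (0 : ℝ) < f m := by exact_mod_cast hf m
  simp only [Function.comp]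
  rw [Real.rpow_def_of_pos h2, mul_one_div]

/-- **The numerical dimension of `K_X` and the dynamical degrees of a birational self-map.** -/
theorem dyn (hy : NormalModel y) (hn : Algebra.trdeg ℂ K = n) (hn0 : 0 < n)
    (hcan : Canonical y n) (g : K ≃ₐ[ℂ] K) :
    ∃ δ : ℕ → ℝ, (∀ p ≤ n, 1 ≤ δ p ∧ DynDegree y n g p (δ p)) ∧ δ 0 = 1 ∧ δ n = 1 ∧
      ∀ j ≤ n, ¬ NumDimLt y n 0 j → ∃ q, q + j ≤ n ∧ ∀ i ≤ j, ∀ p ≤ n, δ p ≤ δ (q + i) := by
  classical
  obtain ⟨i, hi⟩ := hy.ne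
  obtain ⟨A, hA, hAP⟩ := exists_hyp hy hi
  obtain ⟨x, E, hx, hE⟩ := exists_crd hn (k := ℂ) (K := K)
  have hfr : IsFrame E := fun F => ⟨fun j => F (x j),
    (Pool.Agent.W73.PG.PULL.expand x hx E hE F).symm⟩
  obtain ⟨M, β, hF⟩ := exists_fam hy hn hn0 hcan hx hE hfr hi hA hAP g
  obtain ⟨d, hd, -⟩ := fam_plateau hF (Nat.zero_le n) (ε := 1) one_pos (μ := fun _ => 1)
    (ν := fun _ => 0) (fun _ => le_rfl) (fun k => by rw [zero_mul]; exact Nat.zero_le _)
    (fun k => exists_pos hy hn hF le_rfl 0)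
  have hpos : ∀ p ≤ n, ∀ m : ℕ, 0 < MM ((tri m 0 0 p 0 (n - p)).map (AA g (VH y))) := by
    intro p hp m
    exact MM_pos hy hn hF (by rw [tri_card]; omega)
  have hconst : ∀ (c : ℝ) (x : ℝ), Tendsto (fun m : ℕ => c / (m : ℝ)) atTop (𝓝 x) → x = 0 :=
    fun c x h => tendsto_nhds_unique h (tendsto_const_div_atTop_nhds_zero_nat c)
  refine ⟨fun p => Real.exp (d p), fun p hp => ⟨?_, _, fun m => isGreatest_iter hn hF hp m
    (hpos p hp m), tendsto_root (hpos p hp) (hd p hp)⟩, ?_, ?_, fun j hj hnd => ?_⟩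
  · refine Real.one_le_exp (ge_of_tendsto' (hd p hp) fun m => ?_)
    have h1 : (1 : ℝ) ≤ MM ((tri m 0 0 p 0 (n - p)).map (AA g (VH y))) := by
      exact_mod_cast hpos p hp m
    exact div_nonneg (Real.log_nonneg h1) (Nat.cast_nonneg _)
  · have h1 : d 0 = 0 := by
      refine hconst (Real.log (MM ((tri 0 0 0 0 0 (n - 0)).map (AA g (VH y))))) _
        ((hd 0 (Nat.zero_le n)).congr fun m => ?_)
      congr 5
    simp only [h1, Real.exp_zero]
  · have h1 : d n = 0 := by
      refine hconst (Real.log (MM ((tri 0 0 0 n 0 (n - n)).map (AA g (VH y))))) _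
        ((hd n le_rfl).congr fun m => ?_)
      have h2 := MM_map (g ^ m) (L := (tri 0 0 0 n 0 (n - n)).map (AA g (VH y))) (by
        rw [Multiset.card_map, tri_card, hn]
        congr 1
        omega) (map_AA_fg hF _)
      have h3 : ((tri 0 0 0 n 0 (n - n)).map (AA g (VH y))).map (im (g ^ m)) =
          (tri m 0 0 n 0 (n - n)).map (AA g (VH y)) := by
        unfold tri
        simp only [Nat.sub_self, Multiset.replicate_zero, add_zero, Multiset.map_replicate]
        rw [AA_zero]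
        unfold AA
        rw [zpow_natCast]
      rw [← h3, h2]
    simp only [h1, Real.exp_zero]
  · obtain ⟨ε, hε, h⟩ := not_numDimLt hy hn hn0 hfr hi hA hAP hF hj hnd
    choose μ ν hμ hν hle using h
    obtain ⟨d', hd', q, hq, hmax⟩ := fam_plateau hF hj hε hμ hν hle
    have e : ∀ p ≤ n, d' p = d p := fun p hp => tendsto_nhds_unique (hd' p hp) (hd p hp)
    refine ⟨q, hq, fun i hi p hp => Real.exp_le_exp.2 ?_⟩
    rw [← e p hp, ← e (q + i) (by omega)]
    exact hmax i hi p hp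

/-- few maximal dynamical degrees: the Kodaira dimension is the numerical dimension -/
theorem abundance_of_few (hy : NormalModel y) (hn : Algebra.trdeg ℂ K = n) {δ : ℕ → ℝ}
    (h : ∀ j ≤ n, ¬ NumDimLt y n 0 j → ∃ q, q + j ≤ n ∧ ∀ i ≤ j, ∀ p ≤ n, δ p ≤ δ (q + i))
    {k : ℕ} (hk : k < n) (hkod : KodairaGe y n k)
    (hfew : ¬ ∃ q, q + (k + 1) ≤ n ∧ ∀ i ≤ k + 1, ∀ p ≤ n, δ p ≤ δ (q + i)) :
    KodairaEq y n k ∧ NumDimEq y n k := by
  have h1 : NumDimLt y n 0 (k + 1) := by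
    by_contra h2
    exact hfew (h (k + 1) hk h2)
  have key : ∀ j ≤ n, NumDimLt y n 0 j → ¬ KodairaGe y n j := by
    rintro j hj hnum ⟨m, hm, ω, E, hω, h0, hind⟩
    refine kappa_lt hy hn hj hnum hm (fun i => ?_) h0 hind
    rw [smul_zero]
    exact hω i
  exact ⟨⟨hkod, key (k + 1) hk h1⟩, h1, fun h2 => key k hk.le h2 hkod⟩

end

end Pool.Agent.T2H06.DYN
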