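import Pool.Agent.T2H06.DYN.Sup

/-!
The intersection numbers of linear systems are invariant under the automorphisms of the field.
-/

set_option autoImplicit false
set_option linter.overlappingInstances false
set_option linter.unusedSectionVars false
set_option linter.unusedVariables false

open FF Module IntermediateField Pool.Agent.R887 Pool.Agent.W602.GT

namespace Pool.Agent.T2H06.DYN

section

variable {K : Type} [Field K] [Algebra ℂ K]

theorem md_map (g : K ≃ₐ[ℂ] K) (l : Multiset K) : md (l.map g) = md l := by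
  have h1 : fl (l.map g) = (fl l).map g.toAlgHom := by
    unfold fl
    rw [IntermediateField.adjoin_map]
    congr 1
    ext a
    simp only [Multiset.mem_map, Set.mem_ofPred_eq, Set.mem_image]
    rfl
  unfold md
  rw [h1]
  have e : fl l ≃ₐ[ℂ] (fl l).map g.toAlgHom := (fl l).equivMap g.toAlgHom
  symm
  refine Algebra.finrank_eq_of_equiv_equiv ((fl l).equivMap g.toAlgHom).toRingEquiv
    g.toRingEquiv ?_
  ext x
  rfl

/-- the image of a linear system -/
def im (g : K ≃ₐ[ℂ] K) (V : Submodule ℂ K) : Submodule ℂ K := V.map (g : K →ₗ[ℂ] K)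

theorem mem_im {g : K ≃ₐ[ℂ] K} {V : Submodule ℂ K} {x : K} :
    x ∈ im g V ↔ ∃ y ∈ V, g y = x := Iff.rfl

theorem im_fg {g : K ≃ₐ[ℂ] K} {V : Submodule ℂ K} (h : V.FG) : (im g V).FG := h.map _

theorem im_im (g h : K ≃ₐ[ℂ] K) (V : Submodule ℂ K) : im g (im h V) = im (h.trans g) V := by
  ext x
  simp only [mem_im]
  constructor
  · rintro ⟨y, ⟨z, hz, rfl⟩, rfl⟩
    exact ⟨z, hz, rfl⟩
  · rintro ⟨z, hz, rfl⟩
    exact ⟨h z, ⟨z, hz, rfl⟩, rfl⟩

theorem im_refl (V : Submodule ℂ K) : im AlgEquiv.refl V = V := by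
  ext x
  simp only [mem_im]
  constructor
  · rintro ⟨y, hy, rfl⟩
    exact hy
  · intro hx
    exact ⟨x, hx, rfl⟩

theorem Pen.map {V : Submodule ℂ K} {x : K} (h : Pen V x) (g : K ≃ₐ[ℂ] K) :
    Pen (im g V) (g x) := by
  obtain ⟨a, ha, b, hb, hb0, rfl⟩ := h
  exact ⟨g a, ⟨a, ha, rfl⟩, g b, ⟨b, hb, rfl⟩, by rwa [Ne, map_eq_zero], by rw [map_div₀]⟩

theorem Sel.map {L : Multiset (Submodule ℂ K)} {l : Multiset K} (h : Sel L l) (g : K ≃ₐ[ℂ] K) :
    Sel (L.map (im g)) (l.map g) := by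
  unfold Sel at *
  rw [Multiset.rel_map]
  exact h.mono fun V _ x _ hx => hx.map g

theorem MM_map_le (g : K ≃ₐ[ℂ] K) {L : Multiset (Submodule ℂ K)}
    (hn : Algebra.trdeg ℂ K = L.card) (hL : ∀ V ∈ L, V.FG) : MM L ≤ MM (L.map (im g)) := by
  refine MM_le fun l hl => ?_
  rw [← md_map g l]
  refine le_MM (by rw [Multiset.card_map]; exact hn) ?_ (hl.map g)
  intro V hV
  obtain ⟨W, hW, rfl⟩ := Multiset.mem_map.1 hV
  exact im_fg (hL W hW)

theorem MM_map (g : K ≃ₐ[ℂ] K) {L : Multiset (Submodule ℂ K)}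
    (hn : Algebra.trdeg ℂ K = L.card) (hL : ∀ V ∈ L, V.FG) : MM (L.map (im g)) = MM L := by
  apply le_antisymm _ (MM_map_le g hn hL)
  have h1 := MM_map_le g.symm (L := L.map (im g)) (by rw [Multiset.card_map]; exact hn) (by
    intro V hV
    obtain ⟨W, hW, rfl⟩ := Multiset.mem_map.1 hV
    exact im_fg (hL W hW))
  have h2 : (L.map (im g)).map (im g.symm) = L := by
    rw [Multiset.map_map]
    have h3 : (im g.symm ∘ im g : Submodule ℂ K → Submodule ℂ K) = id := by
      funext V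
      rw [Function.comp_apply, im_im, AlgEquiv.self_trans_symm, im_refl]
      rfl
    rw [h3, Multiset.map_id]
  rwa [h2] at h1

end

end Pool.Agent.T2H06.DYN
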