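import Pool.Agent.T2H06.DYN.AbsC
import Pool.Agent.T2H06.DYN.Aut

/-!
Limits of intersection numbers of linear systems along a family of linear systems.
-/

set_option autoImplicit false
set_option linter.overlappingInstances false
set_option linter.unusedSectionVars false
set_option linter.unusedVariables false

open Filter Topology FF Module IntermediateField Pool.Agent.R887 Pool.Agent.W602.GT

namespace Pool.Agent.T2H06.DYN

/-- the limit along a fixed ultrafilter -/
noncomputable def ulim (u : ℕ → ℝ) : ℝ := limUnder (hyperfilter ℕ : Filter ℕ) u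

theorem ulim_spec {u : ℕ → ℝ} {c C : ℝ} (h0 : ∀ k, c ≤ u k) (hC : ∀ k, u k ≤ C) :
    Tendsto u (hyperfilter ℕ : Filter ℕ) (𝓝 (ulim u)) := by
  have h1 : ((hyperfilter ℕ).map u : Filter ℝ) ≤ 𝓟 (Set.Icc c C) := by
    rw [le_principal_iff]
    exact Filter.mem_map.2 (Filter.univ_mem' fun k => ⟨h0 k, hC k⟩)
  obtain ⟨x, -, hx⟩ := isCompact_Icc.ultrafilter_le_nhds _ h1
  exact tendsto_nhds_limUnder ⟨x, hx⟩

section dom

variable {K : Type} [Field K] [Algebra ℂ K] {n : ℕ}

/-- repeated domination -/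
theorem MM_dom_rep (hn : Algebra.trdeg ℂ K = n) {V V' : Submodule ℂ K} (hV : V.FG) (hV' : V'.FG)
    {a b : ℕ} {h : K} (hd : Dom n V V' a b h) (i : ℕ) : ∀ {R : Multiset (Submodule ℂ K)},
    i + R.card = n → (∀ U ∈ R, U.FG) →
      a ^ i * MM (Multiset.replicate i V + R) ≤ b ^ i * MM (Multiset.replicate i V' + R) := by
  induction i with
  | zero =>
    intro R _ _
    rw [pow_zero, pow_zero, Multiset.replicate_zero, Multiset.replicate_zero]
  | succ i ih =>
    intro R hR hRfg
    have hfg : ∀ {U : Submodule ℂ K}, U.FG → ∀ U' ∈ Multiset.replicate i U + R, U'.FG := by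
      intro U hU U' hU'
      rcases Multiset.mem_add.1 hU' with h1 | h1
      · rw [Multiset.eq_of_mem_replicate h1]
        exact hU
      · exact hRfg U' h1
    have h1 := MM_dom hn (L := Multiset.replicate i V + R) (by
      rw [Multiset.card_add, Multiset.card_replicate]; omega) (hfg hV) hV hV' hd
    have h2 := ih (R := V' ::ₘ R) (by rw [Multiset.card_cons]; omega) (by
      intro U hU
      rcases Multiset.mem_cons.1 hU with rfl | hU
      · exact hV'
      · exact hRfg U hU)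
    have e1 : Multiset.replicate (i + 1) V + R = V ::ₘ (Multiset.replicate i V + R) := by
      rw [Multiset.replicate_succ, Multiset.cons_add]
    have e2 : ∀ U : Submodule ℂ K, Multiset.replicate i U + V' ::ₘ R =
        V' ::ₘ (Multiset.replicate i U + R) := fun U => Multiset.add_cons _ _ _
    have e3 : Multiset.replicate (i + 1) V' + R = V' ::ₘ (Multiset.replicate i V' + R) := by
      rw [Multiset.replicate_succ, Multiset.cons_add]
    rw [e2, e2] at h2
    rw [e1, e3, pow_succ, pow_succ, mul_assoc]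
    calc a ^ i * (a * MM (V ::ₘ (Multiset.replicate i V + R)))
        ≤ a ^ i * (b * MM (V' ::ₘ (Multiset.replicate i V + R))) := Nat.mul_le_mul_left _ h1
      _ = b * (a ^ i * MM (V' ::ₘ (Multiset.replicate i V + R))) := by ring
      _ ≤ b * (b ^ i * MM (V' ::ₘ (Multiset.replicate i V' + R))) := Nat.mul_le_mul_left _ h2
      _ = _ := by ring

end dom

/-- a family of linear systems `W m b`, dominated by a linear system `H`, and its behaviour under
the powers of an automorphism -/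
structure Fam {K : Type} [Field K] [Algebra ℂ K] (n : ℕ) (g : K ≃ₐ[ℂ] K)
    (H : Submodule ℂ K) (W : ℕ → ℕ → Submodule ℂ K) (M β : ℕ) : Prop where
  trdeg : Algebra.trdeg ℂ K = n
  fgH : H.FG
  fgW : ∀ m b, 1 ≤ m → (W m b).FG
  mono : ∀ m b b', b ≤ b' → W m b ≤ W m b'
  dom : ∀ m b, 1 ≤ m → ∃ h, Dom n (W m b) H 1 ((m + 1) * M + b * β) h
  trans : ∀ t : ℤ, ∃ C : ℕ, ∀ m b, ∃ h, Dom n (im (g ^ t) (W m b)) (W m (C * b)) 1 1 h
  hyp : ∀ t : ℤ, ∃ (C : ℕ) (h : K), Dom n H (im (g ^ t) H) 1 C h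

section fam

variable {K : Type} [Field K] [Algebra ℂ K] {n : ℕ} {g : K ≃ₐ[ℂ] K} {H : Submodule ℂ K}
  {W : ℕ → ℕ → Submodule ℂ K} {M β : ℕ}

/-- the translates of `H` -/
def AA (g : K ≃ₐ[ℂ] K) (H : Submodule ℂ K) (t : ℤ) : Submodule ℂ K := im (g ^ t) H

theorem AA_zero : AA g H 0 = H := by
  unfold AA
  rw [zpow_zero]
  exact im_refl H

theorem AA_add (t s : ℤ) : AA g H (t + s) = im (g ^ s) (AA g H t) := by
  unfold AA
  rw [im_im]
  congr 1
  rw [add_comm, zpow_add]
  rfl

theorem AA_fg (hF : Fam n g H W M β) (t : ℤ) : (AA g H t).FG := im_fg hF.fgH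

theorem map_AA_fg (hF : Fam n g H W M β) (s : Multiset ℤ) : ∀ U ∈ s.map (AA g H), U.FG := by
  intro U hU
  obtain ⟨t, -, rfl⟩ := Multiset.mem_map.1 hU
  exact AA_fg hF t

theorem rep_fg (hF : Fam n g H W M β) {m : ℕ} (hm : 1 ≤ m) (b i : ℕ) (s : Multiset ℤ) :
    ∀ U ∈ Multiset.replicate i (W m b) + s.map (AA g H), U.FG := by
  intro U hU
  rcases Multiset.mem_add.1 hU with h1 | h1
  · rw [Multiset.eq_of_mem_replicate h1]
    exact hF.fgW m b hm
  · exact map_AA_fg hF s U h1

/-- the intersection number of `i` members of `W m b` and translates of `H` -/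
noncomputable def NN (g : K ≃ₐ[ℂ] K) (H : Submodule ℂ K) (W : ℕ → ℕ → Submodule ℂ K)
    (i m b : ℕ) (s : Multiset ℤ) : ℕ := MM (Multiset.replicate i (W m b) + s.map (AA g H))

theorem NN_card (hF : Fam n g H W M β) {i m b : ℕ} {s : Multiset ℤ} (h : i + s.card = n) :
    Algebra.trdeg ℂ K = (Multiset.replicate i (W m b) + s.map (AA g H)).card := by
  rw [Multiset.card_add, Multiset.card_replicate, Multiset.card_map, h]
  exact hF.trdeg

theorem NN_four (hF : Fam n g H W M β) {i m b : ℕ} (hm : 1 ≤ m) {s : Multiset ℤ}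
    (h : i + s.card + 2 = n) (a₁ a₂ a₃ a₄ : ℤ) :
    NN g H W i m b (a₁ ::ₘ a₂ ::ₘ s) * NN g H W i m b (a₃ ::ₘ a₄ ::ₘ s) ≤
      2 * (NN g H W i m b (a₁ ::ₘ a₃ ::ₘ s) * NN g H W i m b (a₂ ::ₘ a₄ ::ₘ s) +
        NN g H W i m b (a₁ ::ₘ a₄ ::ₘ s) * NN g H W i m b (a₂ ::ₘ a₃ ::ₘ s)) := by
  have e : ∀ a b' : ℤ, NN g H W i m b (a ::ₘ b' ::ₘ s) =
      MM (AA g H a ::ₘ AA g H b' ::ₘ (Multiset.replicate i (W m b) + s.map (AA g H))) := by
    intro a b'
    unfold NN
    rw [Multiset.map_cons, Multiset.map_cons, Multiset.add_cons, Multiset.add_cons]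
  simp only [e]
  refine MM_four ?_ (rep_fg hF hm b i s) (AA_fg hF _) (AA_fg hF _) (AA_fg hF _) (AA_fg hF _)
  rw [Multiset.card_add, Multiset.card_replicate, Multiset.card_map, h]
  exact hF.trdeg

theorem NN_mixed (hF : Fam n g H W M β) {i m b : ℕ} (hm : 1 ≤ m) {s : Multiset ℤ}
    (h : i + s.card + 2 = n) (a₁ a₂ a₃ : ℤ) :
    NN g H W i m b (a₁ ::ₘ a₂ ::ₘ s) * NN g H W (i + 1) m b (a₃ ::ₘ s) ≤
      2 * (NN g H W i m b (a₁ ::ₘ a₃ ::ₘ s) * NN g H W (i + 1) m b (a₂ ::ₘ s) +
        NN g H W i m b (a₂ ::ₘ a₃ ::ₘ s) * NN g H W (i + 1) m b (a₁ ::ₘ s)) := by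
  have e : ∀ a b' : ℤ, NN g H W i m b (a ::ₘ b' ::ₘ s) =
      MM (AA g H a ::ₘ AA g H b' ::ₘ (Multiset.replicate i (W m b) + s.map (AA g H))) := by
    intro a b'
    unfold NN
    rw [Multiset.map_cons, Multiset.map_cons, Multiset.add_cons, Multiset.add_cons]
  have e' : ∀ a : ℤ, NN g H W (i + 1) m b (a ::ₘ s) =
      MM (AA g H a ::ₘ W m b ::ₘ (Multiset.replicate i (W m b) + s.map (AA g H))) := by
    intro a
    unfold NN
    rw [Multiset.map_cons, Multiset.add_cons, Multiset.replicate_succ, Multiset.cons_add]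
  simp only [e, e']
  have h1 := MM_four (L := Multiset.replicate i (W m b) + s.map (AA g H)) (by
    rw [Multiset.card_add, Multiset.card_replicate, Multiset.card_map, h]
    exact hF.trdeg) (rep_fg hF hm b i s) (AA_fg hF a₁) (AA_fg hF a₂) (AA_fg hF a₃)
    (hF.fgW m b hm)
  refine h1.trans (le_of_eq ?_)
  ring

theorem NN_mono (hF : Fam n g H W M β) {i m b b' : ℕ} (hm : 1 ≤ m) (hb : b ≤ b') {s : Multiset ℤ}
    (h : i + s.card = n) : NN g H W i m b s ≤ NN g H W i m b' s := by
  have h1 : Dom n (W m b) (W m b') 1 1 1 := by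
    refine ⟨one_ne_zero, fun P _ f hf hf0 => ⟨f, hF.mono m b b' hb hf, hf0, ?_⟩⟩
    rw [P.ord_one, add_zero]
  have h2 := MM_dom_rep hF.trdeg (hF.fgW m b hm) (hF.fgW m b' hm) h1 i
    (R := s.map (AA g H)) (by rw [Multiset.card_map, h]) (map_AA_fg hF s)
  rw [one_pow, one_mul, one_mul] at h2
  exact h2

/-- translation -/
theorem NN_trans (hF : Fam n g H W M β) (t : ℤ) : ∃ C : ℕ, ∀ (i m b : ℕ) (s : Multiset ℤ),
    1 ≤ m → i + s.card = n → NN g H W i m b (s.map (fun x => x + t)) ≤ NN g H W i m (C * b) s := by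
  obtain ⟨C, hC⟩ := hF.trans (-t)
  refine ⟨C, fun i m b s hm h => ?_⟩
  obtain ⟨hh, hd⟩ := hC m b
  have h1 := MM_dom_rep hF.trdeg (im_fg (hF.fgW m b hm)) (hF.fgW m (C * b) hm) hd i
    (R := s.map (AA g H)) (by rw [Multiset.card_map, h]) (map_AA_fg hF s)
  rw [one_pow, one_mul, one_mul] at h1
  refine le_trans (le_of_eq ?_) h1
  unfold NN
  have h2 := MM_map (g ^ t) (L := Multiset.replicate i (im (g ^ (-t)) (W m b)) + s.map (AA g H)) (by
    rw [Multiset.card_add, Multiset.card_replicate, Multiset.card_map, h]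
    exact hF.trdeg) (by
    intro U hU
    rcases Multiset.mem_add.1 hU with h1 | h1
    · rw [Multiset.eq_of_mem_replicate h1]
      exact im_fg (hF.fgW m b hm)
    · exact map_AA_fg hF s U h1)
  rw [← h2]
  congr 1
  rw [Multiset.map_add, Multiset.map_replicate, Multiset.map_map, Multiset.map_map]
  have e1 : im (g ^ t) (im (g ^ (-t)) (W m b)) = W m b := by
    rw [im_im]
    have : (g ^ (-t)).trans (g ^ t) = (g ^ t) * (g ^ (-t)) := rfl
    rw [this, ← zpow_add, add_neg_cancel, zpow_zero]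
    exact im_refl _
  rw [e1]
  congr 1
  refine Multiset.map_congr rfl fun x _ => ?_
  rw [Function.comp_apply, Function.comp_apply, AA_add]

/-- one member of `W` is replaced by `H` -/
theorem NN_dom (hF : Fam n g H W M β) {i m b : ℕ} (hm : 1 ≤ m) {s : Multiset ℤ}
    (h : i + 1 + s.card = n) :
    NN g H W (i + 1) m b s ≤ ((m + 1) * M + b * β) * NN g H W i m b (0 ::ₘ s) := by
  obtain ⟨hh, hd⟩ := hF.dom m b hm
  have h1 := MM_dom hF.trdeg (L := Multiset.replicate i (W m b) + s.map (AA g H)) (by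
    rw [Multiset.card_add, Multiset.card_replicate, Multiset.card_map]; omega)
    (rep_fg hF hm b i s) (hF.fgW m b hm) hF.fgH hd
  rw [one_mul] at h1
  unfold NN
  rw [Multiset.replicate_succ, Multiset.cons_add, Multiset.map_cons, AA_zero, Multiset.add_cons]
  exact h1

/-- hyperplane sections are replaced by their translates -/
theorem NN_hyp (hF : Fam n g H W M β) (s : Multiset ℤ) : ∃ C : ℕ, ∀ (i m b : ℕ) (s' : Multiset ℤ),
    1 ≤ m → i + s.card + s'.card = n →
      NN g H W i m b (Multiset.replicate s.card 0 + s') ≤ C * NN g H W i m b (s + s') := by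
  induction s using Multiset.induction_on with
  | empty =>
    refine ⟨1, fun i m b s' _ _ => ?_⟩
    rw [Multiset.card_zero, Multiset.replicate_zero, one_mul]
  | cons t s ih =>
    obtain ⟨C, hC⟩ := ih
    obtain ⟨C', hh, hd⟩ := hF.hyp t
    refine ⟨C * C', fun i m b s' hm hs' => ?_⟩
    rw [Multiset.card_cons] at hs' ⊢
    have e1 : Multiset.replicate (s.card + 1) (0 : ℤ) + s' =
        Multiset.replicate s.card 0 + 0 ::ₘ s' := by
      rw [Multiset.replicate_succ, Multiset.cons_add, Multiset.add_cons]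
    have h1 := hC i m b (0 ::ₘ s') hm (by rw [Multiset.card_cons]; omega)
    rw [e1]
    refine h1.trans ?_
    rw [mul_assoc]
    refine Nat.mul_le_mul_left _ ?_
    have h2 := MM_dom hF.trdeg (L := Multiset.replicate i (W m b) + (s + s').map (AA g H)) (by
      rw [Multiset.card_add, Multiset.card_replicate, Multiset.card_map, Multiset.card_add]
      omega) (rep_fg hF hm b i _) hF.fgH (AA_fg hF t) hd
    rw [one_mul] at h2
    unfold NN
    rw [Multiset.add_cons, Multiset.map_cons, AA_zero, Multiset.add_cons, Multiset.cons_add,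
      Multiset.map_cons, Multiset.add_cons]
    exact h2

end fam

end Pool.Agent.T2H06.DYN
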