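import Pool.Agent.T2H06.DYN.AbsB

/-!
The largest growth rate is attained several times.
-/

set_option autoImplicit false
set_option linter.unusedVariables false

open Filter Topology

namespace Pool.Agent.T2H06.DYN

/-- the comparison of the rates of two functions -/
theorem rate_le {N : ℕ} {F G : Multiset ℤ → ℝ} (hF : Lor (N + 1) F) (hG : Lor N G) {C : ℝ}
    (h : ∀ s : Multiset ℤ, s.card = N → ∀ t : ℤ, G s ≤ C * F (t ::ₘ s)) {p : ℕ} (hp : p ≤ N)
    {r d d' : ℝ} (hr : Tendsto (fun m : ℕ => LD G N p m / m) atTop (𝓝 r))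
    (hd : Tendsto (fun m : ℕ => LD F (N + 1) p m / m) atTop (𝓝 d))
    (hd' : Tendsto (fun m : ℕ => LD F (N + 1) (p + 1) m / m) atTop (𝓝 d')) : r ≤ d ∧ r ≤ d' := by
  have hGpos : ∀ m : ℕ, 0 < G (tri m 0 0 p 0 (N - p)) := fun m => hG.pos _ (by
    rw [tri_card]; omega)
  have hF1 : ∀ m : ℕ, 0 < F (tri m 0 0 p 0 (N + 1 - p)) := fun m => hF.pos _ (by
    rw [tri_card]; omega)
  have hF2 : ∀ m : ℕ, 0 < F (tri m 0 0 (p + 1) 0 (N + 1 - (p + 1))) := fun m => hF.pos _ (by
    rw [tri_card]; omega)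
  have h1 : ∀ m : ℕ, G (tri m 0 0 p 0 (N - p)) ≤ C * F (tri m 0 0 p 0 (N + 1 - p)) := by
    intro m
    have h2 := h (tri m 0 0 p 0 (N - p)) (by rw [tri_card]; omega) 0
    rw [cons_tri_c] at h2
    have e : N + 1 - p = N - p + 1 := by omega
    rwa [e]
  have h2 : ∀ m : ℕ, G (tri m 0 0 p 0 (N - p)) ≤
      C * F (tri m 0 0 (p + 1) 0 (N + 1 - (p + 1))) := by
    intro m
    have h2 := h (tri m 0 0 p 0 (N - p)) (by rw [tri_card]; omega) m
    rw [cons_tri_a] at h2
    have e : N + 1 - (p + 1) = N - p := by omega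
    rwa [e]
  have hC : 0 < C := by
    by_contra hc
    push Not at hc
    have h3 := h1 0
    have h4 := mul_nonpos_of_nonpos_of_nonneg hc (hF1 0).le
    have h5 := hGpos 0
    linarith
  have tC : Tendsto (fun m : ℕ => Real.log C / (m : ℝ)) atTop (𝓝 0) :=
    tendsto_const_div_atTop_nhds_zero_nat _
  have key : ∀ {e : ℝ} {f : ℕ → ℝ}, (∀ m : ℕ, LD G N p m ≤ Real.log C + f m) →
      Tendsto (fun m : ℕ => f m / m) atTop (𝓝 e) → r ≤ e := by
    intro e f hf he
    have h3 := tC.add he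
    rw [zero_add] at h3
    refine le_of_tendsto_of_tendsto' hr h3 fun m => ?_
    rw [← add_div]
    exact div_le_div_of_nonneg_right (hf m) (Nat.cast_nonneg _)
  refine ⟨key (f := LD F (N + 1) p) (fun m => ?_) hd,
    key (f := LD F (N + 1) (p + 1)) (fun m => ?_) hd'⟩
  · have h3 := Real.log_le_log (hGpos m) (h1 m)
    rw [Real.log_mul hC.ne' (hF1 m).ne'] at h3
    exact h3
  · have h3 := Real.log_le_log (hGpos m) (h2 m)
    rw [Real.log_mul hC.ne' (hF2 m).ne'] at h3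
    exact h3

/-- **The largest growth rate is attained `j + 1` times.** -/
theorem plateau {n j : ℕ} (hj : j ≤ n) {F : ℕ → Multiset ℤ → ℝ}
    (hL : ∀ i ≤ j, Lor (n - i) (F i))
    (hmix : ∀ i < j, ∀ (ω : Multiset ℤ) (a b c : ℤ), ω.card + 1 = n - (i + 1) →
      F i (a ::ₘ b ::ₘ ω) * F (i + 1) (c ::ₘ ω) ≤
        2 * (F i (a ::ₘ c ::ₘ ω) * F (i + 1) (b ::ₘ ω) +
          F i (b ::ₘ c ::ₘ ω) * F (i + 1) (a ::ₘ ω)))
    (hdom : ∀ i < j, ∃ C : ℝ, ∀ s : Multiset ℤ, s.card = n - (i + 1) → ∀ t : ℤ,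
      F (i + 1) s ≤ C * F i (t ::ₘ s)) :
    ∃ d : ℕ → ℝ, (∀ p ≤ n, Tendsto (fun m : ℕ => LD (F 0) n p m / m) atTop (𝓝 (d p))) ∧
      ∃ q, q + j ≤ n ∧ ∀ i ≤ j, ∀ p ≤ n, d p ≤ d (q + i) := by
  classical
  have hex : ∀ i p, ∃ d : ℝ, i ≤ j → p ≤ n - i →
      Tendsto (fun m : ℕ => LD (F i) (n - i) p m / m) atTop (𝓝 d) := by
    intro i p
    by_cases h : i ≤ j ∧ p ≤ n - i
    · obtain ⟨d, hd⟩ := (hL i h.1).exists_rate h.2
      exact ⟨d, fun _ _ => hd⟩
    · exact ⟨0, fun h1 h2 => absurd ⟨h1, h2⟩ h⟩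
  choose D hD using hex
  have hsub : ∀ i < j, n - i = n - (i + 1) + 1 := fun i hi => by omega
  -- the maxima do not decrease
  have hchain : ∀ i ≤ j, ∃ q ≤ n - i, ∀ p ≤ n, D 0 p ≤ D i q := by
    intro i
    induction i with
    | zero =>
      intro _
      obtain ⟨q, hq, hmax⟩ := Finset.exists_max_image (Finset.range (n + 1)) (D 0)
        ⟨0, Finset.mem_range.2 (Nat.succ_pos _)⟩
      exact ⟨q, Nat.lt_succ_iff.1 (Finset.mem_range.1 hq), fun p hp =>
        hmax p (Finset.mem_range.2 (Nat.lt_succ_of_le hp))⟩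
    | succ i ih =>
      intro hi
      obtain ⟨q, hq, hmax⟩ := ih (by omega)
      have h1 := hL i (by omega)
      have h2 := hL (i + 1) hi
      have h3 := hsub i (by omega)
      have hDi := fun p hp => hD i p (by omega) hp
      rw [h3] at h1 hq hDi
      obtain ⟨q', hq', hle⟩ := compare h1 h2 (hmix i (by omega)) (d := D i) (r := D (i + 1))
        hDi (fun p hp => hD (i + 1) p hi hp) hq
      exact ⟨q', hq', fun p hp => (hmax p hp).trans hle⟩
  -- the rates decrease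
  have hdec : ∀ i ≤ j, ∀ q ≤ n - i, ∀ i' ≤ i, D i q ≤ D 0 (q + i') := by
    intro i
    induction i with
    | zero =>
      intro _ q _ i' hi'
      have : i' = 0 := by omega
      rw [this, add_zero]
    | succ i ih =>
      intro hi q hq i' hi'
      have h1 := hL i (by omega)
      have h2 := hL (i + 1) hi
      have h3 := hsub i (by omega)
      obtain ⟨C, hC⟩ := hdom i (by omega)
      have hDi := fun p hp => hD i p (by omega) hp
      rw [h3] at h1 hDi
      obtain ⟨h4, h5⟩ := rate_le h1 h2 hC hq (hD (i + 1) q hi hq) (hDi q (by omega))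
        (hDi (q + 1) (by omega))
      rcases Nat.eq_zero_or_pos i' with h6 | h6
      · rw [h6]
        exact h4.trans (ih (by omega) q (by omega) 0 (Nat.zero_le _))
      · obtain ⟨i'', rfl⟩ : ∃ i'', i' = i'' + 1 := ⟨i' - 1, by omega⟩
        have h7 := ih (by omega) (q + 1) (by omega) i'' (by omega)
        have e : q + (i'' + 1) = q + 1 + i'' := by ring
        rw [e]
        exact h5.trans h7
  refine ⟨D 0, fun p hp => hD 0 p (Nat.zero_le _) (by omega), ?_⟩
  obtain ⟨q, hq, hmax⟩ := hchain j le_rfl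
  exact ⟨q, by omega, fun i hi p hp => (hmax p hp).trans (hdec j le_rfl q hq i hi)⟩

end Pool.Agent.T2H06.DYN
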