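import Mathlib

/-!
Functions on multisets of integers with the four point property: growth rates.
-/

set_option autoImplicit false
set_option linter.unusedVariables false

open Filter Topology

namespace Pool.Agent.T2H06.DYN

/-- `i` copies of `a`, `j` copies of `b` and `l` copies of `c` -/
def tri (a b c : ℤ) (i j l : ℕ) : Multiset ℤ :=
  Multiset.replicate i a + Multiset.replicate j b + Multiset.replicate l c

theorem tri_card (a b c : ℤ) (i j l : ℕ) : (tri a b c i j l).card = i + j + l := by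
  simp [tri]

theorem cons_tri_a (a b c : ℤ) (i j l : ℕ) : a ::ₘ tri a b c i j l = tri a b c (i + 1) j l := by
  unfold tri
  rw [Multiset.replicate_succ, Multiset.cons_add, Multiset.cons_add]

theorem cons_tri_b (a b c : ℤ) (i j l : ℕ) : b ::ₘ tri a b c i j l = tri a b c i (j + 1) l := by
  unfold tri
  rw [Multiset.replicate_succ, Multiset.add_cons, Multiset.cons_add]

theorem cons_tri_c (a b c : ℤ) (i j l : ℕ) : c ::ₘ tri a b c i j l = tri a b c i j (l + 1) := by
  unfold tri
  rw [Multiset.replicate_succ, Multiset.add_cons]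

theorem tri_map (a b c t : ℤ) (i j l : ℕ) :
    (tri a b c i j l).map (fun x => x + t) = tri (a + t) (b + t) (c + t) i j l := by
  unfold tri
  rw [Multiset.map_add, Multiset.map_add, Multiset.map_replicate, Multiset.map_replicate,
    Multiset.map_replicate]

/-- a positive translation invariant function on the multisets of cardinality `N` with the four
point property -/
structure Lor (N : ℕ) (F : Multiset ℤ → ℝ) : Prop where
  pos : ∀ s, s.card = N → 0 < F s
  trans : ∀ s t, s.card = N → F (s.map (fun x => x + t)) = F s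
  four : ∀ (ω : Multiset ℤ) (a b c d : ℤ), ω.card + 2 = N →
    F (a ::ₘ b ::ₘ ω) * F (c ::ₘ d ::ₘ ω) ≤
      2 * (F (a ::ₘ c ::ₘ ω) * F (b ::ₘ d ::ₘ ω) + F (a ::ₘ d ::ₘ ω) * F (b ::ₘ c ::ₘ ω))

/-- a local inequality gives a global one -/
theorem rect {ψ : ℕ → ℕ → ℝ} {N : ℕ} {κ : ℝ} (hκ : 0 ≤ κ)
    (h : ∀ i l, i + l + 2 ≤ N → ψ (i + 1) (l + 1) + ψ i l ≤ ψ (i + 1) l + ψ i (l + 1) + κ)
    (i l u v : ℕ) (hN : i + l + u + v ≤ N) :
    ψ (i + u) (l + v) + ψ i l ≤ ψ (i + u) l + ψ i (l + v) + u * v * κ := by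
  induction u with
  | zero => simp [add_comm]
  | succ u ih =>
    have ih' := ih (by omega)
    -- one column
    have hcol : ∀ v, i + l + (u + 1) + v ≤ N →
        ψ (i + u + 1) (l + v) + ψ (i + u) l ≤ ψ (i + u + 1) l + ψ (i + u) (l + v) + v * κ := by
      intro v
      induction v with
      | zero => intro _; simp [add_comm]
      | succ v ihv =>
        intro hv
        have h1 := ihv (by omega)
        have h2 := h (i + u) (l + v) (by omega)
        have e : l + (v + 1) = l + v + 1 := rfl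
        rw [e]
        push_cast
        linarith
    have h1 := hcol v hN
    have e : i + (u + 1) = i + u + 1 := rfl
    rw [e]
    push_cast
    linarith

section

variable {N : ℕ} {F : Multiset ℤ → ℝ}

theorem Lor.local (hF : Lor N F) (a b c : ℤ) {i j l : ℕ} (h : i + j + l + 2 = N) :
    Real.log (F (tri a b c (i + 1) j (l + 1))) + Real.log (F (tri a b c i (j + 2) l)) ≤
      Real.log (F (tri a b c (i + 1) (j + 1) l)) + Real.log (F (tri a b c i (j + 1) (l + 1))) +
        Real.log 4 := by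
  have hω : (tri a b c i j l).card + 2 = N := by rw [tri_card]; exact h
  have h1 := hF.four (tri a b c i j l) a c b b hω
  simp only [cons_tri_a, cons_tri_b, cons_tri_c] at h1
  have hp : ∀ i' j' l', i' + j' + l' = N → 0 < F (tri a b c i' j' l') := fun i' j' l' h' =>
    hF.pos _ (by rw [tri_card]; exact h')
  have p1 := hp (i + 1) j (l + 1) (by omega)
  have p2 := hp i (j + 2) l (by omega)
  have p3 := hp (i + 1) (j + 1) l (by omega)
  have p4 := hp i (j + 1) (l + 1) (by omega)
  have h2 : F (tri a b c (i + 1) j (l + 1)) * F (tri a b c i (j + 1 + 1) l) ≤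
      F (tri a b c (i + 1) (j + 1) l) * F (tri a b c i (j + 1) (l + 1)) * 4 := by
    refine h1.trans (le_of_eq ?_)
    ring
  rw [← Real.log_mul p1.ne' p2.ne', ← Real.log_mul p3.ne' p4.ne',
    ← Real.log_mul (mul_pos p3 p4).ne' (by norm_num)]
  exact Real.log_le_log (mul_pos p1 p2) h2

theorem Lor.rect (hF : Lor N F) (a b c : ℤ) (i l u v : ℕ) (h : i + l + u + v ≤ N) :
    Real.log (F (tri a b c (i + u) (N - (i + u) - (l + v)) (l + v))) +
      Real.log (F (tri a b c i (N - i - l) l)) ≤
    Real.log (F (tri a b c (i + u) (N - (i + u) - l) l)) +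
      Real.log (F (tri a b c i (N - i - (l + v)) (l + v))) + N * N * Real.log 4 := by
  have h4 : 0 ≤ Real.log 4 := Real.log_nonneg (by norm_num)
  have h1 := DYN.rect (ψ := fun i l => Real.log (F (tri a b c i (N - i - l) l))) (N := N)
    (κ := Real.log 4) h4 (by
      intro i l hil
      obtain ⟨j, hj⟩ : ∃ j, i + j + l + 2 = N := ⟨N - i - l - 2, by omega⟩
      have h2 := hF.local a b c hj
      have e1 : N - (i + 1) - (l + 1) = j := by omega
      have e2 : N - i - l = j + 2 := by omega
      have e3 : N - (i + 1) - l = j + 1 := by omega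
      have e4 : N - i - (l + 1) = j + 1 := by omega
      simp only [e1, e2, e3, e4]
      exact h2) i l u v h
  refine h1.trans ?_
  have h2 : (u : ℝ) * v ≤ N * N := by
    have hu : (u : ℝ) ≤ N := by exact_mod_cast (show u ≤ N by omega)
    have hv : (v : ℝ) ≤ N := by exact_mod_cast (show v ≤ N by omega)
    exact mul_le_mul hu hv (Nat.cast_nonneg _) (Nat.cast_nonneg _)
  have h3 := mul_le_mul_of_nonneg_right h2 h4
  linarith

/-- the logarithm of the `p`-th degree of the `m`-th iterate -/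
noncomputable def LD (F : Multiset ℤ → ℝ) (N p m : ℕ) : ℝ :=
  Real.log (F (tri m 0 0 p 0 (N - p)))

theorem tri_eq_b (a b c : ℤ) (i l : ℕ) : tri a b c i 0 l = tri a 0 c i 0 l := by
  simp [tri]

theorem tri_zero_l (a b c : ℤ) (i j : ℕ) : tri a b c i j 0 = tri a 0 b i 0 j := by
  simp [tri]

theorem tri_zero_i (a b c : ℤ) (j l : ℕ) : tri a b c 0 j l = tri b 0 c j 0 l := by
  simp [tri]

theorem Lor.two (hF : Lor N F) (t m : ℕ) {p q : ℕ} (h : p + q = N) :
    Real.log (F (tri ((t + m : ℕ) : ℤ) 0 (t : ℤ) p 0 q)) = LD F N p m := by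
  unfold LD
  congr 1
  have h1 := hF.trans (tri m 0 0 p 0 (N - p)) t (by rw [tri_card]; omega)
  rw [tri_map, tri_eq_b, zero_add] at h1
  rw [← h1]
  congr 2
  · push_cast; ring
  · omega

/-- the upper bound for the products of three classes -/
theorem Lor.upper (hF : Lor N F) (m : ℕ) {i j l : ℕ} (h : i + j + l = N) :
    Real.log (F (tri ((2 * m : ℕ) : ℤ) (m : ℤ) 0 i j l)) + Real.log (F (tri 0 0 0 0 0 N)) ≤
      LD F N i m + LD F N (i + j) m + N * N * Real.log 4 := by
  have h1 := hF.rect ((2 * m : ℕ) : ℤ) (m : ℤ) 0 0 0 i l (by omega)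
  simp only [zero_add, Nat.sub_zero] at h1
  have e1 : N - i - l = j := by omega
  rw [e1] at h1
  have e2 : tri ((2 * m : ℕ) : ℤ) (m : ℤ) 0 0 N 0 = tri (m : ℤ) 0 0 N 0 0 := by
    rw [tri_zero_i]
  have e3 : Real.log (F (tri ((2 * m : ℕ) : ℤ) (m : ℤ) 0 i (N - i) 0)) = LD F N i m := by
    rw [tri_zero_l]
    have := hF.two m m (p := i) (q := N - i) (by omega)
    rw [← this, two_mul]
  have e4 : Real.log (F (tri ((2 * m : ℕ) : ℤ) (m : ℤ) 0 0 (N - l) l)) = LD F N (i + j) m := by
    rw [tri_zero_i]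
    have := hF.two 0 m (p := i + j) (q := l) h
    rw [← this]
    have e5 : N - l = i + j := by omega
    rw [e5, zero_add]
    rfl
  have e5 : Real.log (F (tri ((2 * m : ℕ) : ℤ) (m : ℤ) 0 0 N 0)) =
      Real.log (F (tri 0 0 0 0 0 N)) := by
    congr 1
    have h2 := hF.trans (tri 0 0 0 0 0 N) m (by rw [tri_card]; omega)
    rw [← h2, tri_map]
    congr 1
    simp [tri]
  rw [e3, e4, e5] at h1
  exact h1

/-- the lower bound for the products of three classes -/
theorem Lor.lower (hF : Lor N F) (m : ℕ) {i j l : ℕ} (h : i + j + l = N) :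
    LD F N i (2 * m) + LD F N (i + j) m ≤
      Real.log (F (tri ((2 * m : ℕ) : ℤ) (m : ℤ) 0 i j l)) + LD F N i m + N * N * Real.log 4 := by
  have h1 := hF.rect ((2 * m : ℕ) : ℤ) (m : ℤ) 0 0 l i j (by omega)
  simp only [zero_add, Nat.sub_zero] at h1
  have e1 : N - i - (l + j) = 0 := by omega
  have e2 : N - i - l = j := by omega
  have e3 : N - (l + j) = i := by omega
  have e4 : N - l = i + j := by omega
  rw [e1, e2, e3, e4] at h1
  have e5 : Real.log (F (tri ((2 * m : ℕ) : ℤ) (m : ℤ) 0 i 0 (l + j))) = LD F N i (2 * m) := by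
    rw [tri_eq_b]
    have := hF.two 0 (2 * m) (p := i) (q := l + j) (by omega)
    rw [← this, zero_add]
    rfl
  have e6 : Real.log (F (tri ((2 * m : ℕ) : ℤ) (m : ℤ) 0 0 (i + j) l)) = LD F N (i + j) m := by
    rw [tri_zero_i]
    have := hF.two 0 m (p := i + j) (q := l) h
    rw [← this, zero_add]
    rfl
  have e7 : Real.log (F (tri ((2 * m : ℕ) : ℤ) (m : ℤ) 0 0 i (l + j))) = LD F N i m := by
    rw [tri_zero_i]
    have := hF.two 0 m (p := i) (q := l + j) (by omega)
    rw [← this, zero_add]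
    rfl
  rw [e5, e6, e7] at h1
  exact h1

/-- subadditivity -/
theorem Lor.subadd (hF : Lor N F) {p : ℕ} (hp : p ≤ N) (m m' : ℕ) :
    LD F N p (m + m') + Real.log (F (tri 0 0 0 0 0 N)) ≤
      LD F N p m + LD F N p m' + N * N * Real.log 4 := by
  have h1 := hF.rect ((m + m' : ℕ) : ℤ) (m : ℤ) 0 0 0 p (N - p) (by omega)
  simp only [zero_add, Nat.sub_zero, Nat.sub_self] at h1
  have e5 : Real.log (F (tri ((m + m' : ℕ) : ℤ) (m : ℤ) 0 p 0 (N - p))) = LD F N p (m + m') := by
    rw [tri_eq_b]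
    rfl
  have e6 : Real.log (F (tri ((m + m' : ℕ) : ℤ) (m : ℤ) 0 0 N 0)) =
      Real.log (F (tri 0 0 0 0 0 N)) := by
    congr 1
    have h2 := hF.trans (tri 0 0 0 0 0 N) m (by rw [tri_card]; omega)
    rw [← h2, tri_map]
    congr 1
    simp [tri]
  have e7 : Real.log (F (tri ((m + m' : ℕ) : ℤ) (m : ℤ) 0 p (N - p) 0)) = LD F N p m' := by
    rw [tri_zero_l]
    exact hF.two m m' (p := p) (q := N - p) (by omega)
  have e8 : Real.log (F (tri ((m + m' : ℕ) : ℤ) (m : ℤ) 0 0 (N - (N - p)) (N - p))) =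
      LD F N p m := by
    rw [tri_zero_i]
    have e9 : N - (N - p) = p := by omega
    rw [e9]
    rfl
  rw [e5, e6, e7, e8] at h1
  linarith

end

end Pool.Agent.T2H06.DYN
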