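import Pool.Agent.T2H06.DYN.AbsA

/-!
Functions on multisets of integers with the four point property: existence of the growth rates, and
the comparison of the growth rates of two functions.
-/

set_option autoImplicit false
set_option linter.unusedVariables false

open Filter Topology

namespace Pool.Agent.T2H06.DYN

section

variable {N : ℕ} {F : Multiset ℤ → ℝ}

/-- an almost concave sequence is bounded below by its end points -/
theorem almost_concave {φ : ℕ → ℝ} {κ : ℝ} (hκ : 0 ≤ κ)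
    (h : ∀ i, i + 2 ≤ N → φ i + φ (i + 2) ≤ 2 * φ (i + 1) + κ) {c : ℝ} (h0 : c ≤ φ 0)
    (hN : c ≤ φ N) (i : ℕ) (hi : i ≤ N) : c - N * N * κ ≤ φ i := by
  -- `φ i - κ i ^ 2 / 2` is concave
  obtain ⟨χ, hχ⟩ : ∃ χ : ℕ → ℝ, χ = fun i => φ i - κ * i * i / 2 := ⟨_, rfl⟩
  have hc : ∀ i, i + 2 ≤ N → χ i + χ (i + 2) ≤ 2 * χ (i + 1) := by
    intro i hi
    have h1 := h i hi
    rw [hχ]
    simp only
    push_cast
    nlinarith
  have hNN : (0 : ℝ) ≤ N * N * κ := by positivity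
  have hkey : ∀ i, i ≤ N → c - N * N * κ / 2 ≤ χ i := by
    by_contra hcon
    push Not at hcon
    obtain ⟨j, hj, hjlt⟩ := hcon
    -- a minimum
    obtain ⟨i, hi, hmin⟩ := Finset.exists_min_image (Finset.range (N + 1)) χ
      ⟨0, Finset.mem_range.2 (Nat.succ_pos _)⟩
    -- the smallest index with the minimal value
    classical
    have hex : ∃ i, i ≤ N ∧ ∀ j, j ≤ N → χ i ≤ χ j :=
      ⟨i, Nat.lt_succ_iff.1 (Finset.mem_range.1 hi), fun j hj =>
        hmin j (Finset.mem_range.2 (Nat.lt_succ_of_le hj))⟩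
    obtain ⟨h1, h2⟩ := Nat.find_spec hex
    obtain ⟨i₀, hi₀⟩ : ∃ i₀, i₀ = Nat.find hex := ⟨_, rfl⟩
    rw [← hi₀] at h1 h2
    have hlt : χ i₀ < c - N * N * κ / 2 := (h2 j hj).trans_lt hjlt
    have e0 : χ 0 = φ 0 := by rw [hχ]; simp
    have eN : χ N = φ N - N * N * κ / 2 := by rw [hχ]; simp only; ring
    have hi0 : i₀ ≠ 0 := by
      rintro h3
      rw [h3, e0] at hlt
      linarith
    have hiN : i₀ ≠ N := by
      rintro h3
      rw [h3, eN] at hlt
      linarith
    obtain ⟨i', hi'⟩ : ∃ i', i₀ = i' + 1 := ⟨i₀ - 1, by omega⟩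
    have h3 := hc i' (by omega)
    have h4 : ¬ (∀ j, j ≤ N → χ i' ≤ χ j) := by
      intro h5
      have h6 := Nat.find_min hex (m := i') (by omega)
      exact h6 ⟨by omega, h5⟩
    push Not at h4
    obtain ⟨j', hj', hj'lt⟩ := h4
    have h5 := h2 j' hj'
    have h6 := h2 (i' + 2) (by omega)
    rw [hi'] at h5 h6
    linarith
  have h1 := hkey i hi
  rw [hχ] at h1
  simp only at h1
  have h2 : (0 : ℝ) ≤ κ * i * i / 2 := by positivity
  linarith

theorem Lor.bddBelow (hF : Lor N F) {p : ℕ} (hp : p ≤ N) (m : ℕ) :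
    Real.log (F (tri 0 0 0 0 0 N)) - N * N * Real.log 4 ≤ LD F N p m := by
  have h4 : 0 ≤ Real.log 4 := Real.log_nonneg (by norm_num)
  refine almost_concave (N := N) (φ := fun p => LD F N p m) h4 ?_ ?_ ?_ p hp
  · intro i hi
    obtain ⟨l, hl⟩ : ∃ l, i + l + 2 = N := ⟨N - i - 2, by omega⟩
    have hω : (tri m 0 0 i 0 l).card + 2 = N := by rw [tri_card]; omega
    have h1 := hF.four (tri m 0 0 i 0 l) m m 0 0 hω
    simp only [cons_tri_a, cons_tri_c] at h1
    have hpos : ∀ i' l', i' + l' = N → 0 < F (tri m 0 0 i' 0 l') := fun i' l' h' =>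
      hF.pos _ (by rw [tri_card]; omega)
    have p1 := hpos (i + 1 + 1) l (by omega)
    have p2 := hpos i (l + 1 + 1) (by omega)
    have p3 := hpos (i + 1) (l + 1) (by omega)
    have h2 : F (tri m 0 0 (i + 1 + 1) 0 l) * F (tri m 0 0 i 0 (l + 1 + 1)) ≤
        F (tri m 0 0 (i + 1) 0 (l + 1)) * F (tri m 0 0 (i + 1) 0 (l + 1)) * 4 := by
      refine h1.trans (le_of_eq ?_)
      ring
    have h3 := Real.log_le_log (mul_pos p1 p2) h2
    rw [Real.log_mul p1.ne' p2.ne', Real.log_mul (mul_pos p3 p3).ne' (by norm_num),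
      Real.log_mul p3.ne' p3.ne'] at h3
    have e1 : N - i = l + 1 + 1 := by omega
    have e2 : N - (i + 2) = l := by omega
    have e3 : N - (i + 1) = l + 1 := by omega
    simp only [LD, e1, e2, e3]
    linarith
  · simp only [LD, Nat.sub_zero]
    rw [tri_zero_i]
    apply le_of_eq
    congr 2
  · simp only [LD, Nat.sub_self]
    rw [tri_zero_l]
    have h2 := hF.trans (tri 0 0 0 0 0 N) m (by rw [tri_card]; omega)
    rw [← h2, tri_map]
    apply le_of_eq
    congr 2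
    simp [tri]

/-- **The growth rates exist.** -/
theorem Lor.exists_rate (hF : Lor N F) {p : ℕ} (hp : p ≤ N) :
    ∃ d : ℝ, Tendsto (fun m : ℕ => LD F N p m / m) atTop (𝓝 d) := by
  obtain ⟨C, hC⟩ : ∃ C, C = N * N * Real.log 4 - Real.log (F (tri 0 0 0 0 0 N)) := ⟨_, rfl⟩
  have hsub : Subadditive fun m => LD F N p m + C := by
    intro m m'
    have := hF.subadd hp m m'
    rw [hC]
    linarith
  have h4 : 0 ≤ Real.log 4 := Real.log_nonneg (by norm_num)
  have hbdd : BddBelow (Set.range fun m : ℕ => (LD F N p m + C) / m) := by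
    refine ⟨0, ?_⟩
    rintro _ ⟨m, rfl⟩
    have h1 := hF.bddBelow hp m
    have h2 : 0 ≤ LD F N p m + C := by rw [hC]; linarith
    exact div_nonneg h2 (Nat.cast_nonneg _)
  have h1 := hsub.tendsto_lim hbdd
  have h2 : Tendsto (fun m : ℕ => C / (m : ℝ)) atTop (𝓝 0) := tendsto_const_div_atTop_nhds_zero_nat C
  refine ⟨hsub.lim, ?_⟩
  have h3 := h1.sub h2
  rw [sub_zero] at h3
  refine h3.congr fun m => ?_
  rw [← sub_div, add_sub_cancel_right]

theorem Lor.rate_zero (hF : Lor N F) {d : ℝ}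
    (h : Tendsto (fun m : ℕ => LD F N 0 m / m) atTop (𝓝 d)) : d = 0 := by
  have h1 : ∀ m, LD F N 0 m = Real.log (F (tri 0 0 0 0 0 N)) := by
    intro m
    simp only [LD, Nat.sub_zero]
    rw [tri_zero_i]
  have h2 : Tendsto (fun m : ℕ => LD F N 0 m / m) atTop (𝓝 0) := by
    simp only [h1]
    exact tendsto_const_div_atTop_nhds_zero_nat _
  exact tendsto_nhds_unique h h2

theorem Lor.rate_top (hF : Lor N F) {d : ℝ}
    (h : Tendsto (fun m : ℕ => LD F N N m / m) atTop (𝓝 d)) : d = 0 := by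
  have h1 : ∀ m, LD F N N m = Real.log (F (tri 0 0 0 0 0 N)) := by
    intro m
    simp only [LD, Nat.sub_self]
    rw [tri_zero_l]
    have h2 := hF.trans (tri 0 0 0 0 0 N) m (by rw [tri_card]; omega)
    rw [← h2, tri_map]
    congr 2
    simp [tri]
  have h2 : Tendsto (fun m : ℕ => LD F N N m / m) atTop (𝓝 0) := by
    simp only [h1]
    exact tendsto_const_div_atTop_nhds_zero_nat _
  exact tendsto_nhds_unique h h2

theorem rate_double {p : ℕ} {d : ℝ} (h : Tendsto (fun m : ℕ => LD F N p m / m) atTop (𝓝 d)) :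
    Tendsto (fun m : ℕ => LD F N p (2 * m) / m) atTop (𝓝 (2 * d)) := by
  have h1 : Tendsto (fun m : ℕ => 2 * m) atTop atTop :=
    tendsto_atTop_mono (fun m => by simp only [id_eq]; omega) tendsto_id
  have h2 := (h.comp h1).const_mul 2
  refine h2.congr fun m => ?_
  simp only [Function.comp_apply]
  push_cast
  by_cases hm : (m : ℝ) = 0
  · rw [hm]; simp
  · field_simp

end

section compare

variable {N : ℕ} {F G : Multiset ℤ → ℝ}

/-- the mixed four point inequality for three times -/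
theorem mixed_step (hF : Lor (N + 1) F) (hG : Lor N G)
    (hmix : ∀ (ω : Multiset ℤ) (a b c : ℤ), ω.card + 1 = N →
      F (a ::ₘ b ::ₘ ω) * G (c ::ₘ ω) ≤
        2 * (F (a ::ₘ c ::ₘ ω) * G (b ::ₘ ω) + F (b ::ₘ c ::ₘ ω) * G (a ::ₘ ω)))
    {p' p : ℕ} (h1 : p' ≤ p) (h2 : p + 1 ≤ N) :
    ∃ C : ℝ, ∀ m : ℕ,
      (LD F (N + 1) (p' + 1) (2 * m) + LD F (N + 1) (p + 1) m - LD F (N + 1) (p' + 1) m) +
        (LD G N p' (2 * m) + LD G N (p + 1) m - LD G N p' m) ≤ C +
      max (LD F (N + 1) (p' + 1) m + LD F (N + 1) (p + 2) m + (LD G N p' m + LD G N p m))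
        (LD F (N + 1) p' m + LD F (N + 1) (p + 1) m + (LD G N (p' + 1) m + LD G N (p + 1) m)) := by
  obtain ⟨c₀, hc₀⟩ : ∃ c₀, c₀ = Real.log (F (tri 0 0 0 0 0 (N + 1))) := ⟨_, rfl⟩
  obtain ⟨c₁, hc₁⟩ : ∃ c₁, c₁ = Real.log (G (tri 0 0 0 0 0 N)) := ⟨_, rfl⟩
  obtain ⟨κ, hκ⟩ : ∃ κ, κ = ((N + 1 : ℕ) : ℝ) * ((N + 1 : ℕ) : ℝ) * Real.log 4 := ⟨_, rfl⟩
  obtain ⟨κ', hκ'⟩ : ∃ κ', κ' = (N : ℝ) * N * Real.log 4 := ⟨_, rfl⟩
  refine ⟨Real.log 4 + 2 * κ + 2 * κ' - c₀ - c₁, fun m => ?_⟩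
  obtain ⟨i, hi⟩ : ∃ i, i = p' := ⟨_, rfl⟩
  obtain ⟨j, hj⟩ : ∃ j, p = p' + j := ⟨p - p', by omega⟩
  obtain ⟨l, hl⟩ : ∃ l, N = p + 1 + l := ⟨N - (p + 1), by omega⟩
  obtain ⟨S, hS⟩ : ∃ S : ℤ, S = ((2 * m : ℕ) : ℤ) := ⟨_, rfl⟩
  have hω : (tri S m 0 p' j l).card + 1 = N := by rw [tri_card]; omega
  have h3 := hmix (tri S m 0 p' j l) S 0 m hω
  simp only [cons_tri_a, cons_tri_b, cons_tri_c] at h3
  have pF : ∀ i' j' l', i' + j' + l' = N + 1 → 0 < F (tri S m 0 i' j' l') := fun i' j' l' h' =>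
    hF.pos _ (by rw [tri_card]; exact h')
  have pG : ∀ i' j' l', i' + j' + l' = N → 0 < G (tri S m 0 i' j' l') := fun i' j' l' h' =>
    hG.pos _ (by rw [tri_card]; exact h')
  have q1 := pF (p' + 1) j (l + 1) (by omega)
  have q2 := pG p' (j + 1) l (by omega)
  have q3 := pF (p' + 1) (j + 1) l (by omega)
  have q4 := pG p' j (l + 1) (by omega)
  have q5 := pF p' (j + 1) (l + 1) (by omega)
  have q6 := pG (p' + 1) j l (by omega)
  have uF : ∀ i' j' l', i' + j' + l' = N + 1 → Real.log (F (tri S m 0 i' j' l')) + c₀ ≤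
      LD F (N + 1) i' m + LD F (N + 1) (i' + j') m + κ := by
    intro i' j' l' h'
    rw [hS, hc₀, hκ]
    exact hF.upper m h'
  have uG : ∀ i' j' l', i' + j' + l' = N → Real.log (G (tri S m 0 i' j' l')) + c₁ ≤
      LD G N i' m + LD G N (i' + j') m + κ' := by
    intro i' j' l' h'
    rw [hS, hc₁, hκ']
    exact hG.upper m h'
  have lF : ∀ i' j' l', i' + j' + l' = N + 1 → LD F (N + 1) i' (2 * m) +
      LD F (N + 1) (i' + j') m ≤ Real.log (F (tri S m 0 i' j' l')) + LD F (N + 1) i' m + κ := by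
    intro i' j' l' h'
    rw [hS, hκ]
    exact hF.lower m h'
  have lG : ∀ i' j' l', i' + j' + l' = N → LD G N i' (2 * m) +
      LD G N (i' + j') m ≤ Real.log (G (tri S m 0 i' j' l')) + LD G N i' m + κ' := by
    intro i' j' l' h'
    rw [hS, hκ']
    exact hG.lower m h'
  have a1 := lF (p' + 1) j (l + 1) (by omega)
  have a2 := lG p' (j + 1) l (by omega)
  have a3 := uF (p' + 1) (j + 1) l (by omega)
  have a4 := uG p' j (l + 1) (by omega)
  have a5 := uF p' (j + 1) (l + 1) (by omega)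
  have a6 := uG (p' + 1) j l (by omega)
  have e1 : p' + 1 + j = p + 1 := by omega
  have e2 : p' + (j + 1) = p + 1 := by omega
  have e3 : p' + 1 + (j + 1) = p + 2 := by omega
  have e4 : p' + j = p := by omega
  rw [e1] at a1 a6
  rw [e2] at a2 a5
  rw [e3] at a3
  rw [e4] at a4
  -- the maximum of the two products
  have h4 : F (tri S m 0 (p' + 1) j (l + 1)) * G (tri S m 0 p' (j + 1) l) ≤
      4 * max (F (tri S m 0 (p' + 1) (j + 1) l) * G (tri S m 0 p' j (l + 1)))
        (F (tri S m 0 p' (j + 1) (l + 1)) * G (tri S m 0 (p' + 1) j l)) := by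
    refine h3.trans ?_
    have b1 := le_max_left (F (tri S m 0 (p' + 1) (j + 1) l) * G (tri S m 0 p' j (l + 1)))
      (F (tri S m 0 p' (j + 1) (l + 1)) * G (tri S m 0 (p' + 1) j l))
    have b2 := le_max_right (F (tri S m 0 (p' + 1) (j + 1) l) * G (tri S m 0 p' j (l + 1)))
      (F (tri S m 0 p' (j + 1) (l + 1)) * G (tri S m 0 (p' + 1) j l))
    linarith
  rcases le_total (F (tri S m 0 (p' + 1) (j + 1) l) * G (tri S m 0 p' j (l + 1)))
    (F (tri S m 0 p' (j + 1) (l + 1)) * G (tri S m 0 (p' + 1) j l)) with hle | hle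
  · rw [max_eq_right hle] at h4
    have h5 := Real.log_le_log (mul_pos q1 q2) h4
    rw [Real.log_mul q1.ne' q2.ne', Real.log_mul (by norm_num) (mul_pos q5 q6).ne',
      Real.log_mul q5.ne' q6.ne'] at h5
    have h6 := le_max_right (LD F (N + 1) (p' + 1) m + LD F (N + 1) (p + 2) m +
      (LD G N p' m + LD G N p m))
        (LD F (N + 1) p' m + LD F (N + 1) (p + 1) m + (LD G N (p' + 1) m + LD G N (p + 1) m))
    linarith
  · rw [max_eq_left hle] at h4
    have h5 := Real.log_le_log (mul_pos q1 q2) h4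
    rw [Real.log_mul q1.ne' q2.ne', Real.log_mul (by norm_num) (mul_pos q3 q4).ne',
      Real.log_mul q3.ne' q4.ne'] at h5
    have h6 := le_max_left (LD F (N + 1) (p' + 1) m + LD F (N + 1) (p + 2) m +
      (LD G N p' m + LD G N p m))
        (LD F (N + 1) p' m + LD F (N + 1) (p + 1) m + (LD G N (p' + 1) m + LD G N (p + 1) m))
    linarith

/-- **The comparison of the largest growth rates.** -/
theorem compare (hF : Lor (N + 1) F) (hG : Lor N G)
    (hmix : ∀ (ω : Multiset ℤ) (a b c : ℤ), ω.card + 1 = N →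
      F (a ::ₘ b ::ₘ ω) * G (c ::ₘ ω) ≤
        2 * (F (a ::ₘ c ::ₘ ω) * G (b ::ₘ ω) + F (b ::ₘ c ::ₘ ω) * G (a ::ₘ ω)))
    {d r : ℕ → ℝ} (hd : ∀ p ≤ N + 1, Tendsto (fun m : ℕ => LD F (N + 1) p m / m) atTop (𝓝 (d p)))
    (hr : ∀ p ≤ N, Tendsto (fun m : ℕ => LD G N p m / m) atTop (𝓝 (r p))) {s : ℕ}
    (hs : s ≤ N + 1) : ∃ q ≤ N, d s ≤ r q := by
  by_contra hcon
  push Not at hcon
  have hd0 : d 0 = 0 := hF.rate_zero (hd 0 (Nat.zero_le _))
  have hdN : d (N + 1) = 0 := hF.rate_top (hd _ le_rfl)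
  have hr0 : r 0 = 0 := hG.rate_zero (hr 0 (Nat.zero_le _))
  have hrN : r N = 0 := hG.rate_top (hr _ le_rfl)
  have hpos : 0 < d s := by
    have := hcon 0 (Nat.zero_le _)
    linarith
  have hs0 : s ≠ 0 := by
    rintro rfl
    linarith
  have hsN : s ≠ N + 1 := by
    rintro rfl
    linarith
  -- an index below
  have hex1 : ∃ p' < s, r (p' + 1) - r p' < d (p' + 1) - d p' := by
    by_contra h1
    push Not at h1
    have h2 : ∀ i ≤ s, d i ≤ r i := by
      intro i
      induction i with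
      | zero => intro _; rw [hd0, hr0]
      | succ i ih =>
        intro hi
        have h3 := ih (by omega)
        have h4 := h1 i (by omega)
        linarith
    have h3 := h2 s le_rfl
    have h4 := hcon s (by omega)
    linarith
  -- an index above
  have hex2 : ∃ p, s ≤ p + 1 ∧ p + 1 ≤ N ∧ d (p + 2) - d (p + 1) < r (p + 1) - r p := by
    by_contra h1
    push Not at h1
    have h2 : ∀ i, s - 1 + i ≤ N → r (s - 1 + i) - d (s - 1 + i + 1) ≤ r (s - 1) - d s := by
      intro i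
      induction i with
      | zero =>
        intro _
        have : s - 1 + 0 + 1 = s := by omega
        rw [this, add_zero]
      | succ i ih =>
        intro hi
        have h3 := ih (by omega)
        have h4 := h1 (s - 1 + i) (by omega) (by omega)
        have e1 : s - 1 + (i + 1) = s - 1 + i + 1 := by omega
        rw [e1]
        linarith
    have h3 := h2 (N - (s - 1)) (by omega)
    have e1 : s - 1 + (N - (s - 1)) = N := by omega
    rw [e1, hrN, hdN] at h3
    have h4 := hcon (s - 1) (by omega)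
    linarith
  obtain ⟨p', hp's, hp'⟩ := hex1
  obtain ⟨p, hps, hpN, hp⟩ := hex2
  obtain ⟨C, hC⟩ := mixed_step hF hG hmix (p' := p') (p := p) (by omega) hpN
  -- the two differences
  obtain ⟨L, hL⟩ : ∃ L : ℕ → ℝ, L = fun m : ℕ =>
      (LD F (N + 1) (p' + 1) (2 * m) + LD F (N + 1) (p + 1) m - LD F (N + 1) (p' + 1) m) +
        (LD G N p' (2 * m) + LD G N (p + 1) m - LD G N p' m) := ⟨_, rfl⟩
  obtain ⟨R₁, hR₁⟩ : ∃ R₁ : ℕ → ℝ, R₁ = fun m : ℕ =>
      LD F (N + 1) (p' + 1) m + LD F (N + 1) (p + 2) m + (LD G N p' m + LD G N p m) := ⟨_, rfl⟩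
  obtain ⟨R₂, hR₂⟩ : ∃ R₂ : ℕ → ℝ, R₂ = fun m : ℕ =>
      LD F (N + 1) p' m + LD F (N + 1) (p + 1) m + (LD G N (p' + 1) m + LD G N (p + 1) m) :=
    ⟨_, rfl⟩
  have tL : Tendsto (fun m : ℕ => L m / m) atTop (𝓝 ((2 * d (p' + 1) + d (p + 1) - d (p' + 1)) +
      (2 * r p' + r (p + 1) - r p'))) := by
    have h1 := ((rate_double (hd (p' + 1) (by omega))).add (hd (p + 1) (by omega))).sub
      (hd (p' + 1) (by omega))
    have h2 := ((rate_double (hr p' (by omega))).add (hr (p + 1) (by omega))).sub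
      (hr p' (by omega))
    refine (h1.add h2).congr fun m => ?_
    rw [hL]
    simp only
    ring
  have tR₁ : Tendsto (fun m : ℕ => R₁ m / m) atTop (𝓝 (d (p' + 1) + d (p + 2) +
      (r p' + r p))) := by
    have h1 := (hd (p' + 1) (by omega)).add (hd (p + 2) (by omega))
    have h2 := (hr p' (by omega)).add (hr p (by omega))
    refine (h1.add h2).congr fun m => ?_
    rw [hR₁]
    simp only
    ring
  have tR₂ : Tendsto (fun m : ℕ => R₂ m / m) atTop (𝓝 (d p' + d (p + 1) +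
      (r (p' + 1) + r (p + 1)))) := by
    have h1 := (hd p' (by omega)).add (hd (p + 1) (by omega))
    have h2 := (hr (p' + 1) (by omega)).add (hr (p + 1) (by omega))
    refine (h1.add h2).congr fun m => ?_
    rw [hR₂]
    simp only
    ring
  have t1 := tL.sub tR₁
  have t2 := tL.sub tR₂
  have tC : Tendsto (fun m : ℕ => C / (m : ℝ)) atTop (𝓝 0) := tendsto_const_div_atTop_nhds_zero_nat C
  have t3 := t1.sub tC
  have t4 := t2.sub tC
  have e3 := t3.eventually (lt_mem_nhds (a := 0) (by linarith))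
  have e4 := t4.eventually (lt_mem_nhds (a := 0) (by linarith))
  obtain ⟨m, hm3, hm4, hm⟩ := (e3.and (e4.and (eventually_gt_atTop 0))).exists
  have hm0 : (0 : ℝ) < m := by exact_mod_cast hm
  have h5 := hC m
  have h6 : L m ≤ C + max (R₁ m) (R₂ m) := by rw [hL, hR₁, hR₂]; exact h5
  have h7 : 0 < L m - R₁ m - C := by
    have : L m / m - R₁ m / m - C / m = (L m - R₁ m - C) / m := by ring
    rw [this] at hm3
    exact (div_pos_iff_of_pos_right hm0).1 hm3
  have h8 : 0 < L m - R₂ m - C := by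
    have : L m / m - R₂ m / m - C / m = (L m - R₂ m - C) / m := by ring
    rw [this] at hm4
    exact (div_pos_iff_of_pos_right hm0).1 hm4
  rcases max_cases (R₁ m) (R₂ m) with ⟨h9, -⟩ | ⟨h9, -⟩ <;> rw [h9] at h6 <;> linarith

end compare

end Pool.Agent.T2H06.DYN
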