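import Pool.Agent.T2H06.DYN.Siu

/-!
The degrees of a field of transcendence degree two over the subfields generated by two elements:
the four point inequality.
-/

set_option autoImplicit false
set_option linter.overlappingInstances false
set_option linter.unusedSectionVars false

open FF Module IntermediateField Polynomial Pool.Agent.R887

namespace Pool.Agent.T2H06.DYN

theorem four_aux1 {A p r c₁ c₂ : ℕ} (h : ∀ s : ℕ, A * (s * s) ≤ (s * r + c₁) * (s * p + c₂)) :
    A ≤ p * r := by
  by_contra hlt
  push Not at hlt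
  have h1 := h (r * c₂ + p * c₁ + c₁ * c₂ + 1)
  obtain ⟨s, hs⟩ : ∃ s, s = r * c₂ + p * c₁ + c₁ * c₂ + 1 := ⟨_, rfl⟩
  rw [← hs] at h1
  have h2 : (p * r + 1) * (s * s) ≤ A * (s * s) := Nat.mul_le_mul_right _ hlt
  have h3 : (s * r + c₁) * (s * p + c₂) = p * r * (s * s) + s * (r * c₂ + p * c₁) + c₁ * c₂ := by
    ring
  have h4 : s * s ≤ s * (r * c₂ + p * c₁) + c₁ * c₂ := by
    rw [h3] at h1
    have h5 : (p * r + 1) * (s * s) = p * r * (s * s) + s * s := by ring
    omega
  have h5 : s * s = s * (r * c₂ + p * c₁) + s * (c₁ * c₂ + 1) := by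
    rw [← mul_add]
    congr 1
  have h6 : 1 ≤ s := by omega
  have h7 : 1 * (c₁ * c₂ + 1) ≤ s * (c₁ * c₂ + 1) := Nat.mul_le_mul_right _ h6
  omega

theorem four_aux2 {D p q r t u C₁ C₂ : ℕ} (h : ∀ α β γ : ℕ,
    γ * (α * p + β * q + C₂) < α * β * D → γ * u ≤ α * r + β * t + C₁) (a b : ℕ) :
    a * b * D * u ≤ (a * p + b * q) * (a * r + b * t) := by
  refine four_aux1 (c₁ := C₁ + u) (c₂ := C₂ + 1) fun s => ?_
  obtain ⟨N, hN⟩ : ∃ N, N = (a * s) * (b * s) * D := ⟨_, rfl⟩
  have hN' : a * b * D * u * (s * s) = N * u := by rw [hN]; ring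
  rw [hN']
  rcases Nat.eq_zero_or_pos N with h0 | h0
  · rw [h0, zero_mul]
    exact Nat.zero_le _
  obtain ⟨den, hden⟩ : ∃ den, den = s * (a * p + b * q) + (C₂ + 1) := ⟨_, rfl⟩
  rw [← hden]
  have hd0 : 0 < den := by omega
  obtain ⟨γ, hγ⟩ : ∃ γ, γ = (N - 1) / den := ⟨_, rfl⟩
  have h1 : γ * den ≤ N - 1 := by rw [hγ]; exact Nat.div_mul_le_self _ _
  have h2 : N ≤ (γ + 1) * den := by
    rw [hγ]
    have h4 : N - 1 < ((N - 1) / den + 1) * den := by
      have := Nat.lt_mul_div_succ (N - 1) hd0
      rw [mul_comm]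
      exact this
    omega
  have h3 : γ * u ≤ (a * s) * r + (b * s) * t + C₁ := by
    apply h (a * s) (b * s) γ
    rw [← hN]
    have h4 : γ * (a * s * p + b * s * q + C₂) ≤ γ * den := by
      apply Nat.mul_le_mul_left
      rw [hden]
      have : a * s * p + b * s * q = s * (a * p + b * q) := by ring
      omega
    omega
  calc N * u ≤ (γ + 1) * den * u := Nat.mul_le_mul_right _ h2
    _ = (γ * u + u) * den := by ring
    _ ≤ (s * (a * r + b * t) + (C₁ + u)) * den := by
        apply Nat.mul_le_mul_right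
        have : a * s * r + b * s * t = s * (a * r + b * t) := by ring
        omega

theorem four_aux3 {D p q r t u C₁ C₂ : ℕ} (h : ∀ α β γ : ℕ,
    γ * (α * p + β * q + C₂) < α * β * D → γ * u ≤ α * r + β * t + C₁) :
    D * u ≤ 2 * (p * t + q * r) := by
  have key := four_aux2 h
  rcases Nat.eq_zero_or_pos p with hp | hp
  · rcases Nat.eq_zero_or_pos q with hq | hq
    · have h1 := key 1 1
      rw [hp, hq] at h1
      simp only [mul_zero, add_zero, zero_mul, one_mul, mul_one] at h1
      omega
    · have h1 : D * u ≤ q * r := by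
        by_contra hlt
        push Not at hlt
        have h2 := key (q * t + 1) 1
        rw [hp] at h2
        have h3 : (q * t + 1) * 1 * D * u = (q * t + 1) * (D * u) := by ring
        have h4 : ((q * t + 1) * 0 + 1 * q) * ((q * t + 1) * r + 1 * t) =
          (q * t + 1) * (q * r) + q * t := by ring
        rw [h3, h4] at h2
        have h5 : (q * t + 1) * (q * r + 1) ≤ (q * t + 1) * (D * u) :=
          Nat.mul_le_mul_left _ hlt
        have h6 : (q * t + 1) * (q * r + 1) = (q * t + 1) * (q * r) + (q * t + 1) := by ring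
        omega
      have h2 : 0 ≤ p * t := Nat.zero_le _
      omega
  · rcases Nat.eq_zero_or_pos q with hq | hq
    · have h1 : D * u ≤ p * t := by
        by_contra hlt
        push Not at hlt
        have h2 := key 1 (p * r + 1)
        rw [hq] at h2
        have h3 : 1 * (p * r + 1) * D * u = (p * r + 1) * (D * u) := by ring
        have h4 : (1 * p + (p * r + 1) * 0) * (1 * r + (p * r + 1) * t) =
          (p * r + 1) * (p * t) + p * r := by ring
        rw [h3, h4] at h2
        have h5 : (p * r + 1) * (p * t + 1) ≤ (p * r + 1) * (D * u) :=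
          Nat.mul_le_mul_left _ hlt
        have h6 : (p * r + 1) * (p * t + 1) = (p * r + 1) * (p * t) + (p * r + 1) := by ring
        omega
      have h2 : 0 ≤ q * r := Nat.zero_le _
      omega
    · have h1 := key q p
      have h2 : q * p * D * u = (q * p) * (D * u) := by ring
      have h3 : (q * p + p * q) * (q * r + p * t) = (q * p) * (2 * (p * t + q * r)) := by ring
      rw [h2, h3] at h1
      exact Nat.le_of_mul_le_mul_left h1 (Nat.mul_pos hq hp)

section

variable {k K : Type} [Field k] [CharZero k] [Field K] [Algebra k K]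

/-- the degree over the subfield generated by two elements -/
noncomputable def d2 (k : Type) {K : Type} [Field k] [Field K] [Algebra k K] (x y : K) : ℕ :=
  finrank (adjoin k {x, y}) K

theorem d2_comm (x y : K) : d2 k x y = d2 k y x := by
  unfold d2
  rw [Set.pair_comm]

theorem d2_tower (x y : K) : d2 k x y = finrank k⟮x⟯⟮y⟯ K := by
  have h : ({x, y} : Set K) = {x} ∪ {y} := rfl
  unfold d2
  rw [h, ← IntermediateField.adjoin_adjoin_left]
  rfl

theorem d2_indep (hn : Algebra.trdeg k K = 2) {x y : K} (h : d2 k x y ≠ 0) :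
    AlgebraicIndependent k ![x, y] := by
  have h1 : Set.range ![x, y] = {x, y} := by
    rw [Matrix.range_cons, Matrix.range_cons, Matrix.range_empty, Set.union_empty]
    rfl
  have h2 : dg k ![x, y] ≠ 0 := by
    unfold dg
    rw [h1]
    exact h
  have h3 := basis_of_dg (k := k) (K := K) (w := ![x, y]) (by
    rw [hn, Nat.card_eq_fintype_card, Fintype.card_fin]
    rfl) h2
  exact h3.1

theorem d2_ff (hn : Algebra.trdeg k K = 2) {x y : K} (h : d2 k x y ≠ 0) : IsFF k⟮x⟯ K := by
  have h1 := d2_indep hn h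
  have h2 : Transcendental k⟮x⟯ y := by
    have h3 := transc_of_basis (k := k) (K := K) h1 (s := {0}) (i := 1) (by simp)
    have h4 : (![x, y] : Fin 2 → K) '' {0} = {x} := by simp
    rw [h4] at h3
    exact h3
  rw [d2_tower] at h
  exact IsFF.of_finite h2 (FiniteDimensional.of_finrank_pos (Nat.pos_of_ne_zero h))

/-- **The four point inequality.** -/
theorem four_point2 (hn : Algebra.trdeg k K = 2) (x y z w : K) :
    d2 k x y * d2 k z w ≤ 2 * (d2 k x z * d2 k y w + d2 k x w * d2 k y z) := by
  by_cases h1 : d2 k x y = 0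
  · rw [h1, zero_mul]
    exact Nat.zero_le _
  by_cases h2 : d2 k z w = 0
  · rw [h2, mul_zero]
    exact Nat.zero_le _
  have hxy := d2_indep hn h1
  have hE : IsFF k⟮w⟯ K := d2_ff (y := z) hn (by rwa [d2_comm])
  have hG : IsFF k⟮z⟯ K := d2_ff (y := w) hn h2
  have hfin : FiniteDimensional (adjoin k {x, y}) K :=
    FiniteDimensional.of_finrank_pos (Nat.pos_of_ne_zero h1)
  obtain ⟨C₁, C₂, h⟩ := siu (z := z) (w := w) hxy hfin
  simp only [← d2_tower] at h
  have h3 := four_aux3 (D := finrank (adjoin k {x, y}) K) h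
  have h4 : finrank (adjoin k {x, y}) K = d2 k x y := rfl
  rw [h4] at h3
  rw [d2_comm z w, d2_comm x z, d2_comm y w, d2_comm x w, d2_comm y z, add_comm (d2 k z x * _)]
  have h5 : d2 k z x * d2 k w y + d2 k z y * d2 k w x =
    d2 k w x * d2 k z y + d2 k z x * d2 k w y := by ring
  rw [h5] at h3
  exact h3

end

end Pool.Agent.T2H06.DYN
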