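import Pool.Agent.R887.Num
import Pool.Agent.R887.Can
import Pool.Agent.R887.Frm
import Pool.Agent.R887.Nef

/-!
Birational automorphisms act on pluricanonical forms.
-/

set_option autoImplicit false
set_option linter.overlappingInstances false
set_option linter.unusedSectionVars false
set_option linter.unusedVariables false

open FF MvPolynomial Pool.Agent.W602.GT Pool.Agent.W603.LV
open Pool.Agent.Y172 Pool.Agent.Y191 Pool.Agent.R887

namespace Pool.Agent.T2H06.DYN

section

variable {K : Type} [Field K] [Algebra ℂ K] {N n : ℕ} {y : Fin (N + 1) → K}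

/-- the conjugate of a vector field -/
def cj (g : K ≃ₐ[ℂ] K) (D : Derivation ℂ K K) : Derivation ℂ K K :=
  Derivation.mk' ((g.symm : K →ₗ[ℂ] K) ∘ₗ (D : K →ₗ[ℂ] K) ∘ₗ (g : K →ₗ[ℂ] K)) (by
    intro a b
    change g.symm (D (g (a * b))) = a • g.symm (D (g b)) + b • g.symm (D (g a))
    rw [map_mul, D.leibniz, map_add]
    simp only [smul_eq_mul, map_mul, AlgEquiv.symm_apply_apply])

theorem cj_apply (g : K ≃ₐ[ℂ] K) (D : Derivation ℂ K K) (f : K) :
    cj g D f = g.symm (D (g f)) := rfl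

theorem cj_sum (g : K ≃ₐ[ℂ] K) (a : Fin n → K) (D : Fin n → Derivation ℂ K K) :
    cj g (∑ j, a j • D j) = ∑ j, g.symm (a j) • cj g (D j) := by
  ext f
  rw [cj_apply, sum_smul_apply, map_sum, sum_smul_apply]
  refine Finset.sum_congr rfl fun j _ => ?_
  rw [map_mul, cj_apply]

/-- the transported form -/
def tf (g : K ≃ₐ[ℂ] K) (ω : (Fin n → Derivation ℂ K K) → K) (D : Fin n → Derivation ℂ K K) : K :=
  g (ω fun i => cj g (D i))

theorem tf_pluri (g : K ≃ₐ[ℂ] K) {m : ℕ} {ω : (Fin n → Derivation ℂ K K) → K}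
    (hω : IsPluri m ω) : IsPluri m (tf g ω) := by
  intro A D
  unfold tf
  simp only [cj_sum]
  have h1 := hω (A.map g.symm) (fun j => cj g (D j))
  have e1 : (fun i => ∑ j, (A.map g.symm) i j • cj g (D j)) =
      fun i => ∑ j, g.symm (A i j) • cj g (D j) := rfl
  rw [e1] at h1
  rw [h1, map_mul, map_pow]
  congr 2
  have h2 : (A.map g.symm).det = g.symm A.det := by
    have := (RingHom.map_det (g.symm : K →+* K) A).symm
    exact this
  rw [h2, AlgEquiv.apply_symm_apply]

/-- the transported place -/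
def pl (g : K ≃ₐ[ℂ] K) (P : Place ℂ K) : Place ℂ K where
  ord f := P.ord (g f)
  ord_zero := by rw [map_zero, P.ord_zero]
  ord_mul := by
    intro f h hf hh
    rw [map_mul, P.ord_mul (by rwa [Ne, map_eq_zero]) (by rwa [Ne, map_eq_zero])]
  ord_add := by
    intro f h hf hh hfh
    rw [map_add]
    exact P.ord_add (by rwa [Ne, map_eq_zero]) (by rwa [Ne, map_eq_zero])
      (by rwa [← map_add, Ne, map_eq_zero])
  ord_const := by
    intro c hc
    rw [g.commutes]
    exact P.ord_const hc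
  surj := by
    obtain ⟨t, ht, h⟩ := P.surj
    exact ⟨g.symm t, by rwa [Ne, map_eq_zero], by rw [AlgEquiv.apply_symm_apply]; exact h⟩

theorem pl_ord (g : K ≃ₐ[ℂ] K) (P : Place ℂ K) (f : K) : (pl g P).ord f = P.ord (g f) := rfl

theorem pl_reg (g : K ≃ₐ[ℂ] K) (P : Place ℂ K) (f : K) : (pl g P).Reg f ↔ P.Reg (g f) := by
  unfold Place.Reg
  rw [map_eq_zero]
  rfl

theorem pl_divisorial (g : K ≃ₐ[ℂ] K) {P : Place ℂ K} (h : Divisorial n P) :
    Divisorial n (pl g P) := by
  obtain ⟨u, hu⟩ := h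
  refine ⟨fun i => g.symm (u i), fun F hF => ?_⟩
  have h1 : g (aeval (fun i => g.symm (u i)) F) = aeval u F := by
    have h2 : (g : K →ₐ[ℂ] K) (aeval (fun i => g.symm (u i)) F) =
        aeval (fun i => (g : K →ₐ[ℂ] K) (g.symm (u i))) F := by
      rw [MvPolynomial.comp_aeval_apply]
    have h3 : (fun i => (g : K →ₐ[ℂ] K) (g.symm (u i))) = u := by
      funext i
      exact g.apply_symm_apply (u i)
    rw [h3] at h2
    exact h2
  obtain ⟨h2, h3⟩ := hu F hF
  refine ⟨fun h0 => ?_, ?_⟩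
  · rw [h0, map_zero] at h1
    exact h2 h1.symm
  · rw [pl_ord, h1]
    exact h3

theorem cj_reg (g : K ≃ₐ[ℂ] K) {P : Place ℂ K} {D : Derivation ℂ K K} (h : DerReg P D) :
    DerReg (pl g P) (cj g D) := by
  intro f hf
  rw [pl_reg] at hf ⊢
  rw [cj_apply, AlgEquiv.apply_symm_apply]
  exact h _ hf

theorem tf_ordGe (g : K ≃ₐ[ℂ] K) {P : Place ℂ K} {ω : (Fin n → Derivation ℂ K K) → K} {c : ℚ}
    (h : OrdGe (pl g P) ω c) : OrdGe P (tf g ω) c := by
  intro E hE
  rcases h (fun i => cj g (E i)) fun i => cj_reg g (hE i) with h1 | h1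
  · left
    unfold tf
    rw [h1, map_zero]
  · right
    exact h1

end

end Pool.Agent.T2H06.DYN
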