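import Pool.Agent.T2H06.DYN.GeoA
import Pool.Agent.R887.GapA

/-!
The orders of the sections of `m K_X + b H` at all divisors over a variety with canonical
singularities, and the action of the birational automorphisms on the sections.
-/

set_option autoImplicit false
set_option linter.overlappingInstances false
set_option linter.unusedSectionVars false
set_option linter.unusedVariables false

open FF MvPolynomial Pool.Agent.W602.GT Pool.Agent.W603.LV
open Pool.Agent.Y172 Pool.Agent.Y191 Pool.Agent.R887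

namespace Pool.Agent.T2H06.DYN

section

variable {K : Type} [Field K] [Algebra ℂ K] {N n : ℕ} {y : Fin (N + 1) → K}

theorem centred_of_through {P Q : Place ℂ K} {l : Fin (N + 1)} (hl : Centred y l Q)
    (h : Through y P Q) : Centred y l P :=
  ⟨hl.1, fun k => h _ (chart_localRing hl (Algebra.subset_adjoin ⟨k, rfl⟩))⟩

/-- **The order of a section at a divisor over `X`**, for canonical singularities. -/
theorem sec_ord (hy : NormalModel y) (hn : Algebra.trdeg ℂ K = n) (hcan : Canonical y n)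
    {x : Fin n → K} {E : Fin n → Derivation ℂ K K} (hx : IsTranscendenceBasis ℂ x)
    (hE : ∀ i j, E i (x j) = if i = j then 1 else 0) (hfr : IsFrame E) {i : Fin (N + 1)}
    (hi : y i ≠ 0) {A : Place ℂ K → ℚ}
    (hAP : ∀ P l, IsPrimeDivisor y P → Centred y l P → A P = P.ord (y i / y l)) {m b : ℕ}
    {ω : (Fin n → Derivation ℂ K K) → K} (h : IsSection y n m (b • A) ω) {Q : Place ℂ K}
    (hQ : Divisorial n Q) {l : Fin (N + 1)} (hl : Centred y l Q) :
    OrdGe Q ω (-(b * Q.ord (y i / y l))) := by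
  classical
  intro D hD
  by_cases hωE : ω E = 0
  · left
    rw [pluri_zero hfr h.1 hωE]
    rfl
  by_cases hωD : ω D = 0
  · exact Or.inl hωD
  right
  obtain ⟨r, hr, η, hη, hηP, hηQ⟩ := hcan Q hQ
  obtain ⟨c, -, hc⟩ := exists_ordc hy hn hx hE
  obtain ⟨P0, hP0, hP0t⟩ := exists_through hy Q
  have hηE : η E ≠ 0 := (ordEq_val hfr hc hP0 hη (hηP P0 hP0 hP0t)).1
  have hyl : y i / y l ≠ 0 := div_ne_zero hi hl.1
  obtain ⟨f, hf⟩ : ∃ f, f = ω E ^ r * (y i / y l) ^ (r * b) / η E ^ m := ⟨_, rfl⟩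
  have hf0 : f ≠ 0 := by
    rw [hf]
    exact div_ne_zero (mul_ne_zero (pow_ne_zero _ hωE) (pow_ne_zero _ hyl)) (pow_ne_zero _ hηE)
  have hordf : ∀ P : Place ℂ K, P.ord f =
      r * P.ord (ω E) + r * b * P.ord (y i / y l) - m * P.ord (η E) := by
    intro P
    rw [hf, P.ord_div (mul_ne_zero (pow_ne_zero _ hωE) (pow_ne_zero _ hyl)) (pow_ne_zero _ hηE),
      P.ord_mul (pow_ne_zero _ hωE) (pow_ne_zero _ hyl), P.ord_pow, P.ord_pow, P.ord_pow]
    push_cast
    ring
  have h1 : 0 ≤ Q.ord f := by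
    refine reg_of_through hy hf0 fun P hP ht => ?_
    have hPl := centred_of_through hl ht
    obtain ⟨-, h2⟩ := ordEq_val hfr hc hP hη (hηP P hP ht)
    have h3 := ((hc P hP m ω h.1 _).1 (h.2 P hP)).resolve_left hωE
    rw [Pi.smul_apply, nsmul_eq_mul, hAP P l hP hPl] at h3
    have h4 : (0 : ℚ) ≤ ((P.ord f : ℤ) : ℚ) := by
      rw [hordf]
      push_cast
      have hr0 : (0 : ℚ) ≤ r := Nat.cast_nonneg _
      have h5 := mul_le_mul_of_nonneg_left h3 hr0
      have h6 : (m : ℚ) * (r * c P + P.ord (η E)) = 0 := by rw [h2, mul_zero]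
      nlinarith
    exact_mod_cast h4
  rw [hordf] at h1
  choose C hC using fun i => hfr (D i)
  have e1 : D = fun i => ∑ j, Matrix.of C i j • E j := funext hC
  obtain ⟨δ, hδ⟩ : ∃ δ, δ = (Matrix.of C).det := ⟨_, rfl⟩
  have h2 : ω D = δ ^ m * ω E := by
    conv_lhs => rw [e1]
    rw [hδ]
    exact h.1 _ _
  have h3 : η D = δ ^ r * η E := by
    conv_lhs => rw [e1]
    rw [hδ]
    exact hη _ _
  have hδm : δ ^ m ≠ 0 := by
    intro h0
    rw [h0, zero_mul] at h2
    exact hωD h2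
  have h4 : Q.ord (ω D) = m * Q.ord δ + Q.ord (ω E) := by
    rw [h2, Q.ord_mul hδm hωE, Q.ord_pow]
  have hrq : (0 : ℤ) < r := by exact_mod_cast hr
  have h5 : 0 ≤ (m : ℤ) * (r * Q.ord δ + Q.ord (η E)) := by
    by_cases hm : m = 0
    · rw [hm]; simp
    have hδ0 : δ ≠ 0 := by
      rintro rfl
      exact hδm (zero_pow hm)
    have h6 : η D ≠ 0 := by
      rw [h3]
      exact mul_ne_zero (pow_ne_zero _ hδ0) hηE
    have h7 := (hηQ D hD).resolve_left h6
    rw [h3, Q.ord_mul (pow_ne_zero _ hδ0) hηE, Q.ord_pow] at h7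
    have h8 : 0 ≤ (r : ℤ) * Q.ord δ + Q.ord (η E) := by exact_mod_cast h7
    exact mul_nonneg (Int.natCast_nonneg _) h8
  have h6 : 0 ≤ (r : ℤ) * (Q.ord (ω D) + b * Q.ord (y i / y l)) := by
    rw [h4]
    nlinarith
  have h7 : 0 ≤ Q.ord (ω D) + b * Q.ord (y i / y l) := nonneg_of_mul_nonneg_right h6 hrq
  have h8 : (0 : ℚ) ≤ Q.ord (ω D) + b * Q.ord (y i / y l) := by exact_mod_cast h7
  linarith

/-- the poles of the translates of the coordinates are bounded by the poles of the coordinates -/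
theorem exists_pole (hy : NormalModel y) {i : Fin (N + 1)} (hi : y i ≠ 0) (g : K ≃ₐ[ℂ] K) :
    ∃ (C : ℕ) (q : K), q ≠ 0 ∧ ∀ (P : Place ℂ K) (l l' : Fin (N + 1)), Centred y l (pl g P) →
      Centred y l' P → P.ord (g (y i / y l)) ≤ C * P.ord (y i / y l') + P.ord q := by
  classical
  have h1 : ∀ l, ∃ p q : K, p ∈ chart y i ∧ q ∈ chart y i ∧ q ≠ 0 ∧ g (y l / y i) * q = p := by
    intro l
    have h2 : g (y l / y i) ∈ IntermediateField.adjoin ℂ (Set.range fun k => y k / y i) := by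
      rw [hy.field i hi]
      trivial
    rw [IntermediateField.mem_adjoin_range_iff] at h2
    obtain ⟨r, s, hrs⟩ := h2
    have hmem : ∀ p : MvPolynomial (Fin (N + 1)) ℂ, aeval (fun k => y k / y i) p ∈ chart y i := by
      intro p
      unfold chart
      rw [Algebra.adjoin_range_eq_range_aeval]
      exact ⟨p, rfl⟩
    by_cases hs : aeval (fun k => y k / y i) s = 0
    · refine ⟨0, 1, (chart y i).zero_mem, (chart y i).one_mem, one_ne_zero, ?_⟩
      rw [hrs, hs, div_zero, zero_mul]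
    · exact ⟨_, _, hmem r, hmem s, hs, by rw [hrs]; exact div_mul_cancel₀ _ hs⟩
  choose p q hp hq hq0 hpq using h1
  obtain ⟨Q, hQ⟩ : ∃ Q, Q = ∏ l, q l := ⟨_, rfl⟩
  have hQ0 : Q ≠ 0 := by rw [hQ]; exact Finset.prod_ne_zero_iff.2 fun l _ => hq0 l
  obtain ⟨p', hp'⟩ : ∃ p' : Fin (N + 1) → K, p' = fun l => p l * ∏ j ∈ Finset.univ.erase l, q j :=
    ⟨_, rfl⟩
  have hp'm : ∀ l, p' l ∈ chart y i := fun l => by
    rw [hp']
    exact (chart y i).mul_mem (hp l) ((chart y i).prod_mem fun j _ => hq j)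
  have hp'e : ∀ l, g (y l / y i) * Q = p' l := fun l => by
    rw [hp', hQ, ← Finset.mul_prod_erase Finset.univ q (Finset.mem_univ l), ← mul_assoc, hpq]
  have h2 : ∀ l l', ∃ k : ℕ, y l' ≠ 0 → p' l * (y i / y l') ^ k ∈ chart y l' := by
    intro l l'
    by_cases hl' : y l' = 0
    · exact ⟨0, fun h => absurd hl' h⟩
    · obtain ⟨k, hk⟩ := chart_change hl' hi (hp'm l)
      exact ⟨k, fun _ => hk⟩
  choose k hk using h2
  obtain ⟨C, hC⟩ : ∃ C : ℕ, C = ∑ l, ∑ l', k l l' := ⟨_, rfl⟩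
  refine ⟨C, Q, hQ0, fun P l l' hl hl' => ?_⟩
  have hkC : k l l' ≤ C := by
    rw [hC]
    exact (Finset.single_le_sum (f := fun l' => k l l') (fun _ _ => Nat.zero_le _)
      (Finset.mem_univ l')).trans (Finset.single_le_sum (f := fun l => ∑ l', k l l')
      (fun _ _ => Nat.zero_le _) (Finset.mem_univ l))
  have hyl : y l ≠ 0 := hl.1
  have hz0 : g (y l / y i) ≠ 0 := by
    rw [Ne, map_eq_zero]
    exact div_ne_zero hyl hi
  have hp'0 : p' l ≠ 0 := by
    rw [← hp'e]
    exact mul_ne_zero hz0 hQ0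
  have hyl' : y i / y l' ≠ 0 := div_ne_zero hi hl'.1
  have h3 := (P.reg_iff (mul_ne_zero hp'0 (pow_ne_zero _ hyl'))).1 (hl'.reg _ (hk l l' hl'.1))
  rw [P.ord_mul hp'0 (pow_ne_zero _ hyl'), P.ord_pow, ← hp'e, P.ord_mul hz0 hQ0] at h3
  have h4 := (P.reg_iff hyl').1 (hl'.2 i)
  have h5 : (k l l' : ℤ) * P.ord (y i / y l') ≤ C * P.ord (y i / y l') :=
    mul_le_mul_of_nonneg_right (by exact_mod_cast hkC) h4
  have h6 : P.ord (g (y i / y l)) = -P.ord (g (y l / y i)) := by
    rw [← P.ord_inv, ← map_inv₀, inv_div]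
  rw [h6]
  linarith

/-- the transformation of the values of forms on a frame -/
theorem exists_det {x : Fin n → K} {E : Fin n → Derivation ℂ K K}
    (hE : ∀ i j, E i (x j) = if i = j then 1 else 0) (hfr : IsFrame E) (g : K ≃ₐ[ℂ] K) :
    ∃ δ : K, δ ≠ 0 ∧ ∀ (m : ℕ) (ω : (Fin n → Derivation ℂ K K) → K), IsPluri m ω →
      tf g ω E = δ ^ m * g (ω E) := by
  choose C hC using fun i => hfr (cj g (E i))
  have e1 : (fun i => cj g (E i)) = fun i => ∑ j, Matrix.of C i j • E j := funext hC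
  have key : ∀ (m : ℕ) (ω : (Fin n → Derivation ℂ K K) → K), IsPluri m ω →
      tf g ω E = g (Matrix.of C).det ^ m * g (ω E) := by
    intro m ω hω
    unfold tf
    rw [e1, hω, map_mul, map_pow]
  refine ⟨g (Matrix.of C).det, ?_, key⟩
  intro h0
  have h1 := key 1 (frm x 1 1) (frm_pluri _ _ _)
  rw [h0, pow_one, zero_mul] at h1
  have h2 := pluri_zero hfr (tf_pluri g (frm_pluri x 1 1)) h1
  have h3 := congrFun h2 (fun i => cj g.symm (E i))
  unfold tf at h3
  have h4 : (fun i => cj g (cj g.symm (E i))) = E := by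
    funext i
    ext f
    rw [cj_apply, cj_apply, AlgEquiv.symm_symm, AlgEquiv.symm_apply_apply,
      AlgEquiv.symm_apply_apply]
  rw [h4, frm_self hE, map_one] at h3
  exact one_ne_zero h3

/-- the transported section, multiplied by a fixed function -/
theorem tf_section (hy : NormalModel y) (hn : Algebra.trdeg ℂ K = n) (hcan : Canonical y n)
    {x : Fin n → K} {E : Fin n → Derivation ℂ K K} (hx : IsTranscendenceBasis ℂ x)
    (hE : ∀ i j, E i (x j) = if i = j then 1 else 0) (hfr : IsFrame E) {i : Fin (N + 1)}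
    (hi : y i ≠ 0) {A : Place ℂ K → ℚ}
    (hAP : ∀ P l, IsPrimeDivisor y P → Centred y l P → A P = P.ord (y i / y l))
    (g : K ≃ₐ[ℂ] K) {C : ℕ} {q : K} (hq : q ≠ 0)
    (hCq : ∀ (P : Place ℂ K) (l l' : Fin (N + 1)), Centred y l (pl g P) →
      Centred y l' P → P.ord (g (y i / y l)) ≤ C * P.ord (y i / y l') + P.ord q) {m b : ℕ}
    {ω : (Fin n → Derivation ℂ K K) → K} (h : IsSection y n m (b • A) ω) :
    IsSection y n m ((C * b) • A) (fun D => q ^ b * tf g ω D) := by
  refine ⟨fun M D => ?_, fun P hP D hD => ?_⟩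
  · simp only []
    rw [tf_pluri g h.1 M D]
    ring
  · have hdiv := pl_divisorial g (hP.divisorial hy hn)
    obtain ⟨l, hl⟩ := exists_centred hy (pl g P)
    obtain ⟨l', hl'⟩ := exists_centred hy P
    have h1 := tf_ordGe g (sec_ord hy hn hcan hx hE hfr hi hAP h hdiv hl) D hD
    rcases h1 with h1 | h1
    · left
      change q ^ b * tf g ω D = 0
      rw [h1, mul_zero]
    by_cases h0 : tf g ω D = 0
    · left
      change q ^ b * tf g ω D = 0
      rw [h0, mul_zero]
    right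
    change _ ≤ ((P.ord (q ^ b * tf g ω D) : ℤ) : ℚ)
    rw [P.ord_mul (pow_ne_zero _ hq) h0, P.ord_pow, Pi.smul_apply, nsmul_eq_mul,
      hAP P l' hP hl']
    rw [pl_ord] at h1
    have h2 := hCq P l l' hl hl'
    have h3 : ((P.ord (g (y i / y l)) : ℤ) : ℚ) ≤ C * P.ord (y i / y l') + P.ord q := by
      exact_mod_cast h2
    have h4 := mul_le_mul_of_nonneg_left h3 (show (0 : ℚ) ≤ b from Nat.cast_nonneg b)
    push_cast
    nlinarith

end

end Pool.Agent.T2H06.DYN
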