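import Pool.Agent.T2H06.DYN.GeoB
import Pool.Agent.T2H06.DYN.Aut

/-!
The linear systems of the sections of `m K_X + b H` and of the hyperplane sections: domination.
-/

set_option autoImplicit false
set_option linter.overlappingInstances false
set_option linter.unusedSectionVars false
set_option linter.unusedVariables false

open FF MvPolynomial Pool.Agent.W602.GT Pool.Agent.W603.LV
open Pool.Agent.Y172 Pool.Agent.Y191 Pool.Agent.R887

namespace Pool.Agent.T2H06.DYN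

section

variable {K : Type} [Field K] [Algebra ℂ K] {N n : ℕ} {y : Fin (N + 1) → K}

/-- the linear system of the hyperplane sections -/
def VH (y : Fin (N + 1) → K) : Submodule ℂ K := Submodule.span ℂ (Set.range y)

theorem VH_fg : (VH y).FG := Submodule.fg_span (Set.finite_range y)

theorem mem_VH {f : K} : f ∈ VH y ↔ ∃ a : Fin (N + 1) → ℂ, ∑ i, algebraMap ℂ K (a i) * y i = f := by
  unfold VH
  rw [Submodule.mem_span_range_iff_exists_fun]
  simp only [Algebra.smul_def]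

theorem pen_VH {u : K} : Pen (VH y) u ↔ IsPencil y u := by
  constructor
  · rintro ⟨a, ha, b, hb, hb0, rfl⟩
    obtain ⟨c, rfl⟩ := mem_VH.1 ha
    obtain ⟨d, rfl⟩ := mem_VH.1 hb
    exact ⟨c, d, hb0, rfl⟩
  · rintro ⟨a, b, hb, rfl⟩
    exact ⟨_, mem_VH.2 ⟨a, rfl⟩, _, mem_VH.2 ⟨b, rfl⟩, hb, rfl⟩

/-- the linear system of the sections -/
def VS (y : Fin (N + 1) → K) (n m : ℕ) (D : Place ℂ K → ℚ)
    (E : Fin n → Derivation ℂ K K) : Submodule ℂ K :=
  (secSub y n m D).map (LinearMap.proj (R := ℂ) (φ := fun _ : Fin n → Derivation ℂ K K => K) E)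

theorem mem_VS {m : ℕ} {D : Place ℂ K → ℚ} {E : Fin n → Derivation ℂ K K} {f : K} :
    f ∈ VS y n m D E ↔ ∃ ω, IsSection y n m D ω ∧ ω E = f := Iff.rfl

theorem VS_mono {m b b' : ℕ} {A : Place ℂ K → ℚ} (hA : Effective y A)
    {E : Fin n → Derivation ℂ K K} (h : b ≤ b') : VS y n m (b • A) E ≤ VS y n m (b' • A) E := by
  rintro f ⟨ω, hω, rfl⟩
  refine ⟨ω, ⟨hω.1, fun P hP D hD => ?_⟩, rfl⟩
  rcases hω.2 P hP D hD with h1 | h1
  · exact Or.inl h1
  right
  refine le_trans ?_ h1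
  rw [Pi.smul_apply, Pi.smul_apply, nsmul_eq_mul, nsmul_eq_mul]
  have h2 : (b : ℚ) ≤ b' := by exact_mod_cast h
  have := mul_le_mul_of_nonneg_right h2 (hA.1 P hP)
  linarith

theorem fg_of_bound {V : Submodule ℂ K} {R : ℕ} (h : ∀ (r : ℕ) (f : Fin r → K),
    LinearIndependent ℂ f → (∀ i, f i ∈ V) → r ≤ R) : V.FG := by
  have h1 : Module.rank ℂ V ≤ R := by
    refine rank_le fun s hs => ?_
    have h2 := h s.card (fun i => ((s.equivFin.symm i : s) : V)) (by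
      have h3 := hs.comp s.equivFin.symm s.equivFin.symm.injective
      exact h3.map' V.subtype (Submodule.ker_subtype V)) fun i => ((s.equivFin.symm i : s) : V).2
    exact h2
  have h2 : Module.Finite ℂ V := Module.rank_lt_aleph0_iff.1 (h1.trans_lt (Cardinal.natCast_lt_aleph0))
  exact Module.Finite.iff_fg.1 h2

theorem effective_nsmul {A : Place ℂ K → ℚ} (hA : Effective y A) (b : ℕ) : Effective y (b • A) := by
  refine ⟨fun P hP => ?_, hA.2.subset ?_⟩
  · rw [Pi.smul_apply, nsmul_eq_mul]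
    exact mul_nonneg (Nat.cast_nonneg _) (hA.1 P hP)
  · rintro P ⟨hP, h⟩
    refine ⟨hP, fun h0 => h ?_⟩
    rw [Pi.smul_apply, h0, smul_zero]

theorem effective_zero : Effective y (0 : Place ℂ K → ℚ) :=
  ⟨fun _ _ => le_rfl, Set.finite_empty.subset (by rintro P ⟨-, h⟩; exact h rfl)⟩

theorem VS_fg (hy : NormalModel y) (hn : Algebra.trdeg ℂ K = n) {A : Place ℂ K → ℚ}
    (hA : Effective y A) (E : Fin n → Derivation ℂ K K) {m : ℕ} (hm : 1 ≤ m) (b : ℕ) :
    (VS y n m (b • A) E).FG := by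
  obtain ⟨C, hC⟩ := sec_growth hy hn effective_zero (effective_nsmul hA b) E
  refine fg_of_bound (R := C * m ^ n) fun r f hf hfV => ?_
  refine hC m hm r f hf fun i => ?_
  obtain ⟨ω, hω, hωf⟩ := mem_VS.1 (hfV i)
  refine ⟨ω, ?_, hωf⟩
  rw [smul_zero, zero_add]
  exact hω

/-- **Sections are dominated by hyperplane sections.** -/
theorem exists_lin (hy : NormalModel y) (hn : Algebra.trdeg ℂ K = n) (hn0 : 0 < n)
    (hcan : Canonical y n) {A : Place ℂ K → ℚ} (hA : Effective y A)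
    {x : Fin n → K} {E : Fin n → Derivation ℂ K K} (hx : IsTranscendenceBasis ℂ x)
    (hE : ∀ i j, E i (x j) = if i = j then 1 else 0) (hfr : IsFrame E) :
    ∃ M β : ℕ, ∀ m b : ℕ, 1 ≤ m → ∃ h : K,
      Dom n (VS y n m (b • A) E) (VH y) 1 ((m + 1) * M + b * β) h := by
  classical
  obtain ⟨j, hj⟩ := hy.ne
  obtain ⟨M, hM⟩ := source_bound (y' := y) hy hn hn0 (Set.finite_empty) hj
  have hmap : MapOut y n (0 : Place ℂ K → ℚ) y (∅ : Set (Place ℂ K)) := by
    intro Q hQ _ P e ho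
    have he : (1 : ℚ) ≤ e := by
      obtain ⟨π, hπ0, hπ⟩ := Q.surj
      have h1 := ho.2 π
      rcases Nat.eq_zero_or_pos e with h2 | h2
      · rw [h2] at h1
        simp only [Algebra.algebraMap_self, RingHom.id_apply] at h1
        rw [hπ] at h1
        simp at h1
      · exact_mod_cast h2
    refine ⟨1, Or.inl ⟨?_, by simp⟩, by rw [mul_one]; exact he⟩
    have h1 : ∀ f, Q.ord f = e * P.ord f := fun f => ho.2 f
    have h2 : (1 : ℤ) ≤ e := by exact_mod_cast he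
    have h3 : (e : ℤ) = 1 := by
      obtain ⟨π, hπ0, hπ⟩ := Q.surj
      have h4 := h1 π
      rw [hπ] at h4
      exact Int.eq_one_of_mul_eq_one_right (by omega) h4.symm
    have h4 : P = Q := by
      apply Place.ext
      funext f
      rw [h1 f, h3, one_mul]
    rw [h4]
    exact hQ
  obtain ⟨β, hβ⟩ := hM (A := A) hy hn hA hcan.lc hmap hx hE hfr
  refine ⟨M, β, fun m b hm => ?_⟩
  obtain ⟨F, hF1, hF2⟩ := hβ m b hm
  have hsec : ∀ {ω : (Fin n → Derivation ℂ K K) → K}, IsSection y n m (b • A) ω →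
      IsSection y n m (m • (0 : Place ℂ K → ℚ) + b • A) ω := by
    intro ω h
    rw [smul_zero, zero_add]
    exact h
  by_cases hex : ∃ ω₀, IsSection y n m (b • A) ω₀ ∧ ω₀ E ≠ 0
  · obtain ⟨ω₀, hω₀, hω₀E⟩ := hex
    obtain ⟨c, hc⟩ : ∃ c, c = F ω₀ / ω₀ E := ⟨_, rfl⟩
    have hF₀ := (hF1 ω₀ (hsec hω₀) hω₀E).1
    have hc0 : c ≠ 0 := by rw [hc]; exact div_ne_zero hF₀ hω₀E
    obtain ⟨B, hB⟩ : ∃ B, B = (m + 1) * M + b * β := ⟨_, rfl⟩
    rw [← hB]
    refine ⟨(y j ^ B * c)⁻¹, inv_ne_zero (mul_ne_zero (pow_ne_zero _ hj) hc0),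
      fun P hP f hf hf0 => ?_⟩
    obtain ⟨ω, hω, rfl⟩ := mem_VS.1 hf
    have h1 := (hF1 ω (hsec hω) hf0).2
    have h2 := hF2 ω₀ ω (hsec hω₀) (hsec hω) hω₀E hf0
    simp only [Algebra.algebraMap_self, RingHom.id_apply] at h2
    have h3 : F ω = c * ω E := by
      rw [hc]
      field_simp at h2 ⊢
      rw [← h2]
    rw [← hB, h3] at h1
    obtain ⟨s, ⟨k, rfl⟩, hs0, hle⟩ := h1 P
    have hyk : y k ≠ 0 := by
      intro h0
      apply hs0
      change y k / y j = 0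
      rw [h0, zero_div]
    refine ⟨y k, Submodule.subset_span ⟨k, rfl⟩, hyk, ?_⟩
    rw [P.ord_inv, P.ord_mul (pow_ne_zero _ hj) hc0, P.ord_pow]
    change (B : ℤ) * P.ord (y k / y j) ≤ _ at hle
    rw [P.ord_div hyk hj, P.ord_mul hc0 hf0] at hle
    push_cast
    linarith
  · refine ⟨1, one_ne_zero, fun P hP f hf hf0 => ?_⟩
    obtain ⟨ω, hω, rfl⟩ := mem_VS.1 hf
    exact absurd ⟨ω, hω, hf0⟩ hex

/-- **The transported sections.** -/
theorem exists_trans (hy : NormalModel y) (hn : Algebra.trdeg ℂ K = n) (hcan : Canonical y n)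
    {x : Fin n → K} {E : Fin n → Derivation ℂ K K} (hx : IsTranscendenceBasis ℂ x)
    (hE : ∀ i j, E i (x j) = if i = j then 1 else 0) (hfr : IsFrame E) {i : Fin (N + 1)}
    (hi : y i ≠ 0) {A : Place ℂ K → ℚ}
    (hAP : ∀ P l, IsPrimeDivisor y P → Centred y l P → A P = P.ord (y i / y l))
    (g : K ≃ₐ[ℂ] K) : ∃ C : ℕ, ∀ m b : ℕ, ∃ h : K,
      Dom n (im g (VS y n m (b • A) E)) (VS y n m ((C * b) • A) E) 1 1 h := by
  obtain ⟨C, q, hq, hCq⟩ := exists_pole hy hi g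
  obtain ⟨δ, hδ, hδm⟩ := exists_det hE hfr g
  refine ⟨C, fun m b => ⟨(q ^ b * δ ^ m)⁻¹, inv_ne_zero (mul_ne_zero (pow_ne_zero _ hq)
    (pow_ne_zero _ hδ)), fun P hP f hf hf0 => ?_⟩⟩
  obtain ⟨f', hf', rfl⟩ := mem_im.1 hf
  obtain ⟨ω, hω, rfl⟩ := mem_VS.1 hf'
  have h1 := tf_section hy hn hcan hx hE hfr hi hAP g hq hCq hω
  have h2 : (fun D => q ^ b * tf g ω D) E = q ^ b * (δ ^ m * g (ω E)) := by
    simp only []
    rw [hδm m ω hω.1]
  refine ⟨q ^ b * (δ ^ m * g (ω E)), mem_VS.2 ⟨_, h1, h2⟩, ?_, ?_⟩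
  · exact mul_ne_zero (pow_ne_zero _ hq) (mul_ne_zero (pow_ne_zero _ hδ) hf0)
  · rw [P.ord_inv, P.ord_mul (pow_ne_zero _ hq) (mul_ne_zero (pow_ne_zero _ hδ) hf0),
      P.ord_mul (pow_ne_zero _ hδ) hf0, P.ord_mul (pow_ne_zero _ hq) (pow_ne_zero _ hδ)]
    push_cast
    linarith

/-- **Hyperplane sections are dominated by their translates.** -/
theorem exists_hyp_dom (hy : NormalModel y) {i : Fin (N + 1)} (hi : y i ≠ 0) (g : K ≃ₐ[ℂ] K) :
    ∃ (C : ℕ) (h : K), Dom n (VH y) (im g (VH y)) 1 C h := by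
  obtain ⟨C, q, hq, hCq⟩ := exists_pole hy hi g.symm
  have hgi : g (y i) ≠ 0 := by rwa [Ne, map_eq_zero]
  have hgq : g q ≠ 0 := by rwa [Ne, map_eq_zero]
  refine ⟨C, y i / (g (y i) ^ C * g q), div_ne_zero hi (mul_ne_zero (pow_ne_zero _ hgi) hgq),
    fun P hP f hf hf0 => ?_⟩
  obtain ⟨l, hl⟩ := exists_centred hy (pl g P)
  obtain ⟨l', hl'⟩ := exists_centred hy P
  have hpl : pl g.symm (pl g P) = P := by
    apply Place.ext
    funext f
    rw [pl_ord, pl_ord, AlgEquiv.apply_symm_apply]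
  have h1 := hCq (pl g P) l' l (by rw [hpl]; exact hl') hl
  rw [pl_ord, pl_ord, pl_ord, AlgEquiv.apply_symm_apply, map_div₀] at h1
  have hyl : y l ≠ 0 := hl.1
  have hyl' : y l' ≠ 0 := hl'.1
  have hgl : g (y l) ≠ 0 := by rwa [Ne, map_eq_zero]
  refine ⟨g (y l), ⟨y l, Submodule.subset_span ⟨l, rfl⟩, rfl⟩, hgl, ?_⟩
  -- the order of an element of the linear system is at least the order of `y l'`
  have h2 : P.ord (y l') ≤ P.ord f := by
    obtain ⟨s, hs, hs0, hle⟩ := exists_ord_le P hf hf0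
    obtain ⟨k, rfl⟩ := hs
    have h3 := (P.reg_iff (div_ne_zero hs0 hyl')).1 (hl'.2 k)
    rw [P.ord_div hs0 hyl'] at h3
    linarith
  rw [P.ord_div hi hyl', P.ord_div hgi hgl] at h1
  rw [P.ord_div hi (mul_ne_zero (pow_ne_zero _ hgi) hgq), P.ord_mul (pow_ne_zero _ hgi) hgq,
    P.ord_pow]
  push_cast
  linarith

end

end Pool.Agent.T2H06.DYN
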