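import Pool.Agent.T2H06.DYN.GeoC
import Pool.Agent.T2H06.DYN.LimB
import Pool.Agent.R887.Num

/-!
The family of linear systems of a projective variety with canonical singularities with a birational
self-map.
-/

set_option autoImplicit false
set_option linter.overlappingInstances false
set_option linter.unusedSectionVars false
set_option linter.unusedVariables false

open FF Module MvPolynomial Filter Topology Pool.Agent.W602.GT Pool.Agent.W603.LV Pool.Agent.W619.PQ
open Pool.Agent.Y172 Pool.Agent.Y191 Pool.Agent.R887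

namespace Pool.Agent.T2H06.DYN

section

variable {K : Type} [Field K] [Algebra ℂ K] {N : ℕ} {y : Fin (N + 1) → K} {n : ℕ}

/-- an effective divisor is dominated by a multiple of a hyperplane section, up to a function -/
theorem dominate' (hy : NormalModel y) {A' A : Place ℂ K → ℚ} (hA' : Effective y A')
    {i : Fin (N + 1)} (hi : y i ≠ 0) (hA : Effective y A)
    (hAP : ∀ P l, IsPrimeDivisor y P → Centred y l P → A P = P.ord (y i / y l)) :
    ∃ (f : K) (s : ℕ), f ≠ 0 ∧ ∀ P, IsPrimeDivisor y P → A' P ≤ P.ord f + s * A P := by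
  classical
  obtain ⟨Z, hZ⟩ : ∃ Z : Finset (Place ℂ K), ∀ P, P ∈ Z ↔ IsPrimeDivisor y P ∧ A' P ≠ 0 :=
    ⟨hA'.2.toFinset, fun P => by rw [Set.Finite.mem_toFinset]; rfl⟩
  have hg : ∀ P : Place ℂ K, ∃ g : K, g ≠ 0 ∧ g ∈ chart y i ∧ (IsPrimeDivisor y P →
      Centred y i P → 1 ≤ P.ord g) := by
    intro P
    by_cases hP : IsPrimeDivisor y P ∧ Centred y i P
    · obtain ⟨hP1, hP2⟩ := hP
      obtain ⟨π, hπ0, hπ⟩ := P.surj
      obtain ⟨a, ha, b, hb, hb0, hbo, hab⟩ := (mem_localRing hP2).1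
        (hP1 π (Or.inr (by rw [hπ]; norm_num)))
      refine ⟨a, by rw [← hab]; exact mul_ne_zero hπ0 hb0, ha, fun _ _ => ?_⟩
      rw [← hab, P.ord_mul hπ0 hb0, hπ, hbo]
      norm_num
    · exact ⟨1, one_ne_zero, (chart y i).one_mem, fun h1 h2 => absurd ⟨h1, h2⟩ hP⟩
  choose g hg0 hgc hgo using hg
  obtain ⟨T, hT⟩ : ∃ T : ℕ, ∀ P, IsPrimeDivisor y P → A' P ≤ T := by
    obtain ⟨T, hT⟩ : ∃ T : ℕ, T = ∑ P ∈ Z, ⌈A' P⌉.toNat := ⟨_, rfl⟩
    refine ⟨T, fun P hP => ?_⟩
    by_cases h0 : A' P = 0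
    · rw [h0]
      positivity
    · have h1 : P ∈ Z := (hZ P).2 ⟨hP, h0⟩
      have h2 : ⌈A' P⌉.toNat ≤ T := by
        rw [hT]
        exact Finset.single_le_sum (f := fun P : Place ℂ K => ⌈A' P⌉.toNat)
          (fun _ _ => Nat.zero_le _) h1
      have h3 : A' P ≤ ⌈A' P⌉ := Int.le_ceil _
      have h4 : ⌈A' P⌉ ≤ (⌈A' P⌉.toNat : ℤ) := Int.self_le_toNat _
      have h5 : ((⌈A' P⌉ : ℤ) : ℚ) ≤ ((⌈A' P⌉.toNat : ℤ) : ℚ) := by exact_mod_cast h4
      have h6 : (((⌈A' P⌉.toNat : ℕ) : ℤ) : ℚ) ≤ (T : ℚ) := by exact_mod_cast h2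
      linarith
  obtain ⟨F, hF⟩ : ∃ F, F = (∏ P ∈ Z, g P) ^ T := ⟨_, rfl⟩
  have hprod0 : (∏ P ∈ Z, g P) ≠ 0 := Finset.prod_ne_zero_iff.2 fun P _ => hg0 P
  have hF0 : F ≠ 0 := by
    rw [hF]
    exact pow_ne_zero _ hprod0
  have hFc : F ∈ chart y i := by
    rw [hF]
    exact (chart y i).pow_mem ((chart y i).prod_mem fun P _ => hgc P) _
  have hk : ∀ l, ∃ k : ℕ, y l ≠ 0 → F * (y i / y l) ^ k ∈ chart y l := by
    intro l
    by_cases hl : y l = 0
    · exact ⟨0, fun h => absurd hl h⟩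
    · obtain ⟨k, hk⟩ := chart_change hl hi hFc
      exact ⟨k, fun _ => hk⟩
  choose k hk using hk
  obtain ⟨d, hd⟩ : ∃ d, d = ∑ l, k l := ⟨_, rfl⟩
  have hpole : ∀ P, IsPrimeDivisor y P → 0 ≤ (P.ord F : ℚ) + d * A P := by
    intro P hP
    obtain ⟨l, hl⟩ := exists_centred hy P
    have h1 := hl.reg _ (hk l hl.1)
    have hyl : y i / y l ≠ 0 := div_ne_zero hi hl.1
    have h2 := (P.reg_iff (mul_ne_zero hF0 (pow_ne_zero _ hyl))).1 h1
    rw [P.ord_mul hF0 (pow_ne_zero _ hyl), P.ord_pow] at h2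
    have h3 := (P.reg_iff hyl).1 (hl.2 i)
    have h4 : k l ≤ d := by
      rw [hd]
      exact Finset.single_le_sum (fun _ _ => Nat.zero_le _) (Finset.mem_univ l)
    rw [hAP P l hP hl]
    have h5 : (k l : ℤ) * P.ord (y i / y l) ≤ d * P.ord (y i / y l) :=
      mul_le_mul_of_nonneg_right (by exact_mod_cast h4) h3
    have h6 : 0 ≤ P.ord F + d * P.ord (y i / y l) := by linarith
    exact_mod_cast h6
  refine ⟨F, d + T, hF0, fun P hP => ?_⟩
  have hA0 := hA.1 P hP
  have hT0 : (0 : ℚ) ≤ T := Nat.cast_nonneg _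
  have h1 := hpole P hP
  push_cast
  by_cases h0 : A' P = 0
  · rw [h0]
    have := mul_nonneg hT0 hA0
    nlinarith
  have hPZ : P ∈ Z := (hZ P).2 ⟨hP, h0⟩
  by_cases hPc : Centred y i P
  · have h2 : (T : ℤ) ≤ P.ord F := by
      rw [hF, P.ord_pow]
      have h3 : 1 ≤ P.ord (∏ P ∈ Z, g P) := by
        rw [← Finset.mul_prod_erase Z g hPZ, P.ord_mul (hg0 P)
          (Finset.prod_ne_zero_iff.2 fun P _ => hg0 P)]
        have h4 := hgo P hP hPc
        have h5 : (∏ x ∈ Z.erase P, g x) ∈ chart y i :=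
          (chart y i).prod_mem fun P _ => hgc P
        have h6 := (P.reg_iff (Finset.prod_ne_zero_iff.2 fun P _ => hg0 P)).1 (hPc.reg _ h5)
        omega
      have h7 : (0 : ℤ) ≤ T := Int.natCast_nonneg _
      nlinarith
    have h3 : (T : ℚ) ≤ P.ord F := by exact_mod_cast h2
    have h4 := hT P hP
    have h5 : (0 : ℚ) ≤ d := Nat.cast_nonneg _
    nlinarith [mul_nonneg h5 hA0, mul_nonneg hT0 hA0]
  · have h2 : (1 : ℚ) ≤ A P := by
      obtain ⟨l, hl⟩ := exists_centred hy P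
      rw [hAP P l hP hl]
      have hyl : y i / y l ≠ 0 := div_ne_zero hi hl.1
      have h3 := (P.reg_iff hyl).1 (hl.2 i)
      have h4 : P.ord (y i / y l) ≠ 0 := by
        intro h5
        apply hPc
        refine ⟨hi, fun j => ?_⟩
        have h6 : y j / y i = (y j / y l) * (y i / y l)⁻¹ := by
          rw [inv_div]
          field_simp [hl.1, hi]
        rw [h6]
        refine P.reg_mul (hl.2 j) (Or.inr ?_)
        rw [P.ord_inv, h5, neg_zero]
      have h5 : 1 ≤ P.ord (y i / y l) := by omega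
      exact_mod_cast h5
    have h4 := hT P hP
    have h5 := mul_le_mul_of_nonneg_left h2 hT0
    nlinarith


/-- the family of the linear systems -/
theorem exists_fam (hy : NormalModel y) (hn : Algebra.trdeg ℂ K = n) (hn0 : 0 < n)
    (hcan : Canonical y n) {x : Fin n → K} {E : Fin n → Derivation ℂ K K}
    (hx : IsTranscendenceBasis ℂ x) (hE : ∀ i j, E i (x j) = if i = j then 1 else 0)
    (hfr : IsFrame E) {i : Fin (N + 1)} (hi : y i ≠ 0) {A : Place ℂ K → ℚ} (hA : Effective y A)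
    (hAP : ∀ P l, IsPrimeDivisor y P → Centred y l P → A P = P.ord (y i / y l))
    (g : K ≃ₐ[ℂ] K) :
    ∃ M β : ℕ, Fam n g (VH y) (fun m b => VS y n m (b • A) E) M β := by
  obtain ⟨M, β, hM⟩ := exists_lin hy hn hn0 hcan hA hx hE hfr
  refine ⟨M, β, ⟨hn, VH_fg, fun m b hm => VS_fg hy hn hA E hm b, fun m b b' hb => VS_mono hA hb,
    fun m b hm => hM m b hm, fun t => exists_trans hy hn hcan hx hE hfr hi hAP (g ^ t),
    fun t => exists_hyp_dom hy hi (g ^ t)⟩⟩

theorem degreeOver_md {p q : ℕ} (u : Fin p → K) (v : Fin q → K) :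
    degreeOver u v = md (Finset.univ.val.map v + Finset.univ.val.map u) := by
  have hset : {a | a ∈ Finset.univ.val.map v + Finset.univ.val.map u} =
      Set.range u ∪ Set.range v := by
    ext a
    simp only [Multiset.mem_add, Multiset.mem_map, Finset.mem_val, Finset.mem_univ, true_and,
      Set.mem_ofPred_eq, Set.mem_union, Set.mem_range]
    tauto
  unfold degreeOver md fl
  rw [hset]

theorem sel_rep' {V : Submodule ℂ K} {l : Multiset K} (h : ∀ x ∈ l, Pen V x) :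
    Sel (Multiset.replicate l.card V) l := by
  induction l using Multiset.induction_on with
  | empty => exact Multiset.Rel.zero
  | cons a l ih =>
    rw [Multiset.card_cons, Multiset.replicate_succ]
    exact Multiset.Rel.cons (h a (Multiset.mem_cons_self a l))
      (ih fun x hx => h x (Multiset.mem_cons_of_mem hx))

theorem sel_rep {V : Submodule ℂ K} {q : ℕ} {v : Fin q → K} (hv : ∀ a, Pen V (v a)) :
    Sel (Multiset.replicate q V) (Finset.univ.val.map v) := by
  have h1 := sel_rep' (V := V) (l := Finset.univ.val.map v) (by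
    intro x hx
    obtain ⟨a, -, rfl⟩ := Multiset.mem_map.1 hx
    exact hv a)
  rwa [Multiset.card_map, Finset.card_val, Finset.card_univ, Fintype.card_fin] at h1

/-- the degree of a rational map given by pencils and sections is an intersection number -/
theorem degree_le_NN (hn : Algebra.trdeg ℂ K = n) {g : K ≃ₐ[ℂ] K} {W : ℕ → ℕ → Submodule ℂ K}
    {M β : ℕ} (hF : Fam n g (VH y) W M β) {j m b : ℕ} (hm : 1 ≤ m) (hj : j ≤ n)
    {u : Fin (n - j) → K} (hu : ∀ a, IsPencil y (u a)) {v : Fin j → K}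
    (hv : ∀ a, Pen (W m b) (v a)) :
    degreeOver u v ≤ NN g (VH y) W j m b (Multiset.replicate (n - j) 0) := by
  have hc : j + (Multiset.replicate (n - j) (0 : ℤ)).card = n := by
    rw [Multiset.card_replicate]
    omega
  rw [degreeOver_md]
  refine le_MM (NN_card hF hc) (rep_fg hF hm b j _) (Multiset.Rel.add (sel_rep hv) ?_)
  rw [Multiset.map_replicate, AA_zero]
  exact sel_rep fun a => pen_VH.2 (hu a)

/-- large intersection numbers, if the numerical dimension is at least `j` -/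
theorem not_numDimLt (hy : NormalModel y) (hn : Algebra.trdeg ℂ K = n) (hn0 : 0 < n)
    {E : Fin n → Derivation ℂ K K}
    (hfr : IsFrame E) {i : Fin (N + 1)} (hi : y i ≠ 0) {A : Place ℂ K → ℚ} (hA : Effective y A)
    (hAP : ∀ P l, IsPrimeDivisor y P → Centred y l P → A P = P.ord (y i / y l))
    {g : K ≃ₐ[ℂ] K} {M β : ℕ} (hF : Fam n g (VH y) (fun m b => VS y n m (b • A) E) M β) {j : ℕ}
    (hj : j ≤ n) (h : ¬ NumDimLt y n 0 j) :
    ∃ ε : ℝ, 0 < ε ∧ ∀ k : ℕ, ∃ m ν : ℕ, 1 ≤ m ∧ ν * (k + 1) ≤ m ∧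
      ε * (m : ℝ) ^ j ≤ NN g (VH y) (fun m b => VS y n m (b • A) E) j m ν
        (Multiset.replicate (n - j) 0) := by
  unfold NumDimLt at h
  push Not at h
  obtain ⟨A', hA', ε, hε, h⟩ := h
  obtain ⟨f, s, hf0, hfs⟩ := dominate' hy hA' hi hA hAP
  refine ⟨ε, hε, fun k => ?_⟩
  obtain ⟨m, b, hm, hb, u, hu, ω, E', hω, h0, hdeg⟩ := h (1 / (((s + 1 : ℕ) : ℝ) * ((k + 1 : ℕ) : ℝ)))
    (by positivity) 1
  have hbs : b * s * (k + 1) ≤ m := by
    have h1 : (b : ℝ) * (((s + 1 : ℕ) : ℝ) * ((k + 1 : ℕ) : ℝ)) ≤ m := by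
      have h2 : (0 : ℝ) < ((s + 1 : ℕ) : ℝ) * ((k + 1 : ℕ) : ℝ) := by positivity
      have h3 := mul_le_mul_of_nonneg_right hb h2.le
      have h4 : 1 / (((s + 1 : ℕ) : ℝ) * ((k + 1 : ℕ) : ℝ)) * m *
          (((s + 1 : ℕ) : ℝ) * ((k + 1 : ℕ) : ℝ)) = m := by field_simp
      linarith
    have h2 : b * ((s + 1) * (k + 1)) ≤ m := by exact_mod_cast h1
    refine le_trans ?_ h2
    rw [mul_assoc]
    exact Nat.mul_le_mul_left _ (Nat.mul_le_mul_right _ (by omega))
  refine ⟨m, b * s, hm, hbs, hdeg.le.trans ?_⟩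
  have hsec : ∀ a, IsSection y n m ((b * s) • A) (fun D => f ^ b * ω a D) := by
    intro a
    refine ⟨fun M' D => ?_, fun P hP D hD => ?_⟩
    · simp only []
      rw [(hω a).1 M' D]
      ring
    · rcases (hω a).2 P hP D hD with h2 | h2
      · left
        change f ^ b * ω a D = 0
        rw [h2, mul_zero]
      by_cases h3 : ω a D = 0
      · left
        change f ^ b * ω a D = 0
        rw [h3, mul_zero]
      right
      change _ ≤ (P.ord (f ^ b * ω a D) : ℚ)
      rw [P.ord_mul (pow_ne_zero _ hf0) h3, P.ord_pow]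
      rw [smul_zero, zero_add, Pi.smul_apply, nsmul_eq_mul] at h2
      rw [Pi.smul_apply, nsmul_eq_mul]
      have h4 := mul_le_mul_of_nonneg_left (hfs P hP) (show (0 : ℚ) ≤ b from Nat.cast_nonneg b)
      push_cast
      nlinarith
  have hfb : f ^ b ≠ 0 := pow_ne_zero _ hf0
  have hne : f ^ b * ω 0 E' ≠ 0 := mul_ne_zero hfb h0
  have hrat : ∀ a : Fin j, f ^ b * ω 0 E ≠ 0 ∧
      ω a.succ E' / ω 0 E' = (f ^ b * ω a.succ E) / (f ^ b * ω 0 E) := by
    intro a
    obtain ⟨h1, h2⟩ := ratio_frame hfr (hsec 0).1 (hsec a.succ).1 hne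
    refine ⟨h1, ?_⟩
    rw [← h2, mul_div_mul_left _ _ hfb]
  have hdg := degree_le_NN hn hF (m := m) (b := b * s) hm hj hu
    (v := fun a : Fin j => ω a.succ E' / ω 0 E') (by
      intro a
      obtain ⟨h1, h2⟩ := hrat a
      refine ⟨_, mem_VS.2 ⟨_, hsec a.succ, rfl⟩, _, mem_VS.2 ⟨_, hsec 0, rfl⟩, h1, ?_⟩
      exact h2)
  exact_mod_cast hdg

/-- the degree of the variety is positive -/
theorem exists_pos (hy : NormalModel y) (hn : Algebra.trdeg ℂ K = n) {g : K ≃ₐ[ℂ] K}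
    {W : ℕ → ℕ → Submodule ℂ K} {M β : ℕ} (hF : Fam n g (VH y) W M β) {m : ℕ} (hm : 1 ≤ m)
    (b : ℕ) :
    (1 : ℝ) * (m : ℝ) ^ 0 ≤ NN g (VH y) W 0 m b (Multiset.replicate (n - 0) 0) := by
  have hess := hy.ess
  obtain ⟨u, hu, hd⟩ := exists_complete hy hn (Nat.zero_le n) (g := (Fin.elim0 : Fin 0 → K))
    (by
      rw [algebraicIndependent_empty_type_iff]
      exact (algebraMap ℂ K).injective)
  rw [← degreeOver_eq] at hd
  have h1 := degree_le_NN hn hF hm (b := b) (Nat.zero_le n) hu (v := (Fin.elim0 : Fin 0 → K))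
    fun a => a.elim0
  rw [pow_zero, mul_one]
  exact_mod_cast le_trans hd h1

end

end Pool.Agent.T2H06.DYN
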