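import Pool.Agent.T2H06.DYN.Four

/-!
The degrees of the field over the subfields generated by `n` functions: the four point inequality,
and general members of linear systems.
-/

set_option autoImplicit false
set_option linter.overlappingInstances false
set_option linter.unusedSectionVars false

open FF Module IntermediateField Pool.Agent.R887

namespace Pool.Agent.T2H06.DYN

section

variable {K : Type} [Field K] [Algebra ℂ K]

/-- the field generated by the elements of a multiset -/
noncomputable def fl (s : Multiset K) : IntermediateField ℂ K := adjoin ℂ {a | a ∈ s}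

/-- the degree of the field over the subfield generated by the elements of a multiset -/
noncomputable def md (s : Multiset K) : ℕ := finrank (fl s) K

theorem md_one (x : K) (s : Multiset K) : md (x ::ₘ s) = finrank (fl s)⟮x⟯ K := by
  have h : {a | a ∈ x ::ₘ s} = {a | a ∈ s} ∪ {x} := by
    ext a
    simp only [Multiset.mem_cons, Set.mem_ofPred_eq, Set.mem_union, Set.mem_singleton_iff]
    exact or_comm
  unfold md fl
  rw [h, ← IntermediateField.adjoin_adjoin_left]
  rfl

theorem md_two (x y : K) (s : Multiset K) : md (x ::ₘ y ::ₘ s) = d2 (fl s) x y := by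
  have h : {a | a ∈ x ::ₘ y ::ₘ s} = {a | a ∈ s} ∪ {x, y} := by
    ext a
    simp only [Multiset.mem_cons, Set.mem_ofPred_eq, Set.mem_union, Set.mem_singleton_iff,
      Set.mem_insert_iff]
    tauto
  unfold md fl d2
  rw [h, ← IntermediateField.adjoin_adjoin_left]
  rfl

/-- an enumeration -/
theorem exists_enum (s : Multiset K) : ∃ u : Fin s.card → K, Set.range u = {a | a ∈ s} := by
  obtain ⟨l, rfl⟩ := Quot.exists_rep s
  refine ⟨l.get, ?_⟩
  ext a
  simp only [Set.mem_range, Set.mem_ofPred_eq]
  change (∃ i : Fin l.length, l.get i = a) ↔ a ∈ l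
  exact List.mem_iff_get.symm

theorem md_basis {s : Multiset K} (hn : Algebra.trdeg ℂ K = s.card) (h : md s ≠ 0)
    {ι : Type} [Finite ι] (hι : Nat.card ι = s.card) {w : ι → K}
    (hw : Set.range w = {a | a ∈ s}) : IsTranscendenceBasis ℂ w := by
  refine basis_of_dg (by rw [hn, hι]) ?_
  unfold dg
  rw [hw]
  exact h

theorem md_ff {x : K} {s : Multiset K} (hn : Algebra.trdeg ℂ K = (s.card + 1 : ℕ))
    (h : md (x ::ₘ s) ≠ 0) : IsFF (fl s) K ∧ Transcendental (fl s) x ∧
      ∃ u : Fin s.card → K, Set.range u = {a | a ∈ s} ∧ AlgebraicIndependent ℂ u := by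
  obtain ⟨u, hu⟩ := exists_enum s
  have h1 : IsTranscendenceBasis ℂ (fun o : Option (Fin s.card) => o.elim x u) := by
    refine md_basis (s := x ::ₘ s) (by rw [Multiset.card_cons]; exact hn) h (by
      rw [Nat.card_eq_fintype_card, Fintype.card_option, Fintype.card_fin, Multiset.card_cons]) ?_
    ext a
    simp only [Set.mem_range, Option.exists, Option.elim_none, Option.elim_some,
      Multiset.mem_cons, Set.mem_ofPred_eq]
    have h2 : (∃ i, u i = a) ↔ a ∈ s := by
      have := Set.ext_iff.1 hu a
      exact this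
    rw [h2]
    exact ⟨fun h => h.elim (fun h => Or.inl h.symm) Or.inr,
      fun h => h.elim (fun h => Or.inl h.symm) Or.inr⟩
  have h2 : Transcendental (fl s) x := by
    have h3 := transc_of_basis (k := ℂ) (K := K) h1.1 (s := Set.range some) (i := none) (by simp)
    have h4 : (fun o : Option (Fin s.card) => o.elim x u) '' Set.range some = {a | a ∈ s} := by
      rw [← Set.range_comp, ← hu]
      rfl
    rw [h4] at h3
    exact h3
  have h3 : AlgebraicIndependent ℂ u := h1.1.comp some (Option.some_injective _)
  rw [md_one] at h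
  exact ⟨IsFF.of_finite h2 (FiniteDimensional.of_finrank_pos (Nat.pos_of_ne_zero h)), h2, u, hu,
    h3⟩

theorem trdeg_two {x y : K} {s : Multiset K} (hn : Algebra.trdeg ℂ K = (s.card + 2 : ℕ))
    (h : md (x ::ₘ y ::ₘ s) ≠ 0) : Algebra.trdeg (fl s) K = 2 := by
  obtain ⟨u, hu⟩ := exists_enum s
  have hr : Set.range ![x, y] = {x, y} := by
    rw [Matrix.range_cons, Matrix.range_cons, Matrix.range_empty, Set.union_empty]
    rfl
  have h1 : IsTranscendenceBasis ℂ (Sum.elim ![x, y] u) := by
    refine md_basis (s := x ::ₘ y ::ₘ s) (by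
      rw [Multiset.card_cons, Multiset.card_cons]; exact hn) h (by
      rw [Nat.card_eq_fintype_card, Fintype.card_sum, Fintype.card_fin, Fintype.card_fin,
        Multiset.card_cons, Multiset.card_cons]
      omega) ?_
    rw [Set.Sum.elim_range, hr, hu]
    ext a
    simp only [Multiset.mem_cons, Set.mem_ofPred_eq, Set.mem_union, Set.mem_singleton_iff,
      Set.mem_insert_iff]
    tauto
  have h2 := (AlgebraicIndependent.sumElim_iff.1 h1.1).2
  have h3 : AlgebraicIndependent (fl s) ![x, y] := by
    unfold fl
    rw [← hu]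
    open scoped IntermediateField.algebraAdjoinAdjoin in
    exact h2.extendScalars (S := IntermediateField.adjoin ℂ (Set.range u))
  rw [md_two] at h
  have h4 : FiniteDimensional (adjoin (fl s) {x, y}) K :=
    FiniteDimensional.of_finrank_pos (Nat.pos_of_ne_zero h)
  have h5 : IsTranscendenceBasis (fl s) ![x, y] := by
    rw [isTranscendenceBasis_iff_algebraicIndependent_isAlgebraic]
    refine ⟨h3, ?_⟩
    rw [hr]
    open scoped IntermediateField.algebraAdjoinAdjoin in
    exact Algebra.IsAlgebraic.trans (Algebra.adjoin (fl s) {x, y}) (adjoin (fl s) {x, y}) K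
  have h6 := h5.lift_cardinalMk_eq_trdeg
  simpa using h6.symm

/-- **The four point inequality.** -/
theorem md_four {s : Multiset K} (hn : Algebra.trdeg ℂ K = (s.card + 2 : ℕ)) (x y z w : K) :
    md (x ::ₘ y ::ₘ s) * md (z ::ₘ w ::ₘ s) ≤
      2 * (md (x ::ₘ z ::ₘ s) * md (y ::ₘ w ::ₘ s) + md (x ::ₘ w ::ₘ s) * md (y ::ₘ z ::ₘ s)) := by
  by_cases h : md (x ::ₘ y ::ₘ s) = 0
  · rw [h, zero_mul]
    exact Nat.zero_le _
  have h1 := trdeg_two hn h
  simp only [md_two]
  exact four_point2 h1 x y z w

end

end Pool.Agent.T2H06.DYN
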