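import Pool.Agent.T2H06.DYN.Md

/-!
General members of linear systems: simultaneous maximality of degrees.
-/

set_option autoImplicit false
set_option linter.overlappingInstances false
set_option linter.unusedSectionVars false

open FF Module IntermediateField Pool.Agent.R887

namespace Pool.Agent.T2H06.DYN

section

variable {K : Type} [Field K] [Algebra ℂ K]

/-- a quotient of two elements of the linear system -/
def Pen (V : Submodule ℂ K) (x : K) : Prop := ∃ a ∈ V, ∃ b ∈ V, b ≠ 0 ∧ x = a / b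

/-- some element of the spanning set has at most the order of a given element of the span -/
theorem exists_ord_le {k : Type*} [Field k] [Algebra ℂ k] [Algebra k K] [IsScalarTower ℂ k K]
    (P : Place k K) {S : Set K} {a : K} (ha : a ∈ Submodule.span ℂ S) (h0 : a ≠ 0) :
    ∃ s ∈ S, s ≠ 0 ∧ P.ord s ≤ P.ord a := by
  by_contra hc
  push Not at hc
  have h1 : S ⊆ geSub ℂ P (P.ord a + 1) := by
    intro s hs
    by_cases h : s = 0
    · exact Or.inl h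
    · right
      have := hc s hs h
      omega
  have h2 := Submodule.span_le.2 h1 ha
  rcases h2 with h2 | h2
  · exact h0 h2
  · omega

/-- a general pair of elements of the span of a finite set -/
theorem gen_pair {M₁ M₂ : IntermediateField ℂ K} [IsFF M₁ K] [IsFF M₂ K] {S : Set K}
    (hS : S.Finite) (h0 : ∃ s ∈ S, s ≠ 0) :
    ∃ a ∈ Submodule.span ℂ S, ∃ b ∈ Submodule.span ℂ S, a ≠ 0 ∧ b ≠ 0 ∧
      (∀ P : Place M₁ K, ∀ s ∈ S, s ≠ 0 → P.ord b - P.ord s ≤ polar (k := M₁) (a / b) P) ∧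
      (∀ P : Place M₂ K, ∀ s ∈ S, s ≠ 0 → P.ord b - P.ord s ≤ polar (k := M₂) (a / b) P) := by
  classical
  obtain ⟨T, hT⟩ : ∃ T : Set (Place ℂ K), T =
      (⋃ s ∈ S, (down M₁) '' {P | P.ord s ≠ 0}) ∪ (⋃ s ∈ S, (down M₂) '' {P | P.ord s ≠ 0}) :=
    ⟨_, rfl⟩
  have hTf : T.Finite := by
    rw [hT]
    exact (hS.biUnion fun s _ => (finite_support s).image _).union
      (hS.biUnion fun s _ => (finite_support s).image _)
  obtain ⟨b, hbS, hb0, hb⟩ := exists_generic (k₀ := ℂ) (k := ℂ) hS T hTf h0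
  obtain ⟨T', hT'⟩ : ∃ T' : Set (Place ℂ K), T' = T ∪
      ((down M₁) '' {P | P.ord b ≠ 0} ∪ (down M₂) '' {P | P.ord b ≠ 0}) := ⟨_, rfl⟩
  have hTf' : T'.Finite := by
    rw [hT']
    exact hTf.union (((finite_support b).image _).union ((finite_support b).image _))
  obtain ⟨a, haS, ha0, ha⟩ := exists_generic (k₀ := ℂ) (k := ℂ) hS T' hTf' h0
  have key : ∀ (M : IntermediateField ℂ K) [IsFF M K],
      (∀ s ∈ S, ∀ P : Place M K, P.ord s ≠ 0 → down M P ∈ T) →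
      (∀ P : Place M K, P.ord b ≠ 0 → down M P ∈ T') →
      ∀ P : Place M K, ∀ s ∈ S, s ≠ 0 → P.ord b - P.ord s ≤ polar (k := M) (a / b) P := by
    intro M hM h1 h2 P s hs hs0
    rw [polar_apply, P.ord_div ha0 hb0]
    by_cases hP : down M P ∈ T'
    · have h3 : P.ord a ≤ P.ord s := ha _ hP s hs hs0
      refine le_trans ?_ (le_max_left _ _)
      omega
    · have h3 : P.ord b = 0 := by
        by_contra h4
        exact hP (h2 P h4)
      have h4 : P.ord s = 0 := by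
        by_contra h5
        apply hP
        rw [hT']
        exact Or.inl (h1 s hs P h5)
      refine le_trans ?_ (le_max_right _ _)
      omega
  refine ⟨a, haS, b, hbS, ha0, hb0, key M₁ ?_ ?_, key M₂ ?_ ?_⟩
  · intro s hs P hP
    rw [hT]
    exact Or.inl (Set.mem_iUnion₂.2 ⟨s, hs, P, hP, rfl⟩)
  · intro P hP
    rw [hT']
    exact Or.inr (Or.inl ⟨P, hP, rfl⟩)
  · intro s hs P hP
    rw [hT]
    exact Or.inr (Set.mem_iUnion₂.2 ⟨s, hs, P, hP, rfl⟩)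
  · intro P hP
    rw [hT']
    exact Or.inr (Or.inr ⟨P, hP, rfl⟩)

theorem md_le_of_gen {x a b a₁ b₁ : K} {s : Multiset K} [IsFF (fl s) K] (ha : a ≠ 0) (hb : b ≠ 0)
    (ha₁ : a₁ ≠ 0) (hb₁ : b₁ ≠ 0) (hx : x = a₁ / b₁)
    (h1 : ∀ P : Place (fl s) K, P.ord b - P.ord a₁ ≤ polar (k := fl s) (a / b) P)
    (h2 : ∀ P : Place (fl s) K, P.ord b - P.ord b₁ ≤ polar (k := fl s) (a / b) P) :
    md (x ::ₘ s) ≤ md ((a / b) ::ₘ s) := by
  have h3 : polar (k := fl s) x ≤ polar (k := fl s) (a / b) + divisor (fl s) b₁ -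
      divisor (fl s) b := by
    intro P
    rw [hx, polar_apply, Finsupp.sub_apply, Finsupp.add_apply, divisor_apply, divisor_apply,
      P.ord_div ha₁ hb₁]
    have h4 := h1 P
    have h5 := h2 P
    refine max_le ?_ ?_ <;> omega
  have h4 := ddeg_mono h3
  rw [ddeg_sub, ddeg_add, ddeg_divisor, ddeg_divisor, ddeg_polar_all, ddeg_polar_all, add_zero,
    sub_zero] at h4
  rw [md_one, md_one]
  exact_mod_cast h4

/-- one pencil is general enough for two conditions -/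
theorem semi {V : Submodule ℂ K} {x₁ x₂ : K} (h₁ : Pen V x₁) (h₂ : Pen V x₂) {s₁ s₂ : Multiset K}
    (hn₁ : Algebra.trdeg ℂ K = (s₁.card + 1 : ℕ)) (hn₂ : Algebra.trdeg ℂ K = (s₂.card + 1 : ℕ)) :
    ∃ x, Pen V x ∧ md (x₁ ::ₘ s₁) ≤ md (x ::ₘ s₁) ∧ md (x₂ ::ₘ s₂) ≤ md (x ::ₘ s₂) := by
  by_cases h1 : md (x₁ ::ₘ s₁) = 0
  · exact ⟨x₂, h₂, by rw [h1]; exact Nat.zero_le _, le_rfl⟩
  by_cases h2 : md (x₂ ::ₘ s₂) = 0
  · exact ⟨x₁, h₁, le_rfl, by rw [h2]; exact Nat.zero_le _⟩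
  obtain ⟨hff₁, htr₁, -⟩ := md_ff hn₁ h1
  obtain ⟨hff₂, htr₂, -⟩ := md_ff hn₂ h2
  obtain ⟨a₁, ha₁, b₁, hb₁, hb₁0, rfl⟩ := h₁
  obtain ⟨a₂, ha₂, b₂, hb₂, hb₂0, rfl⟩ := h₂
  have ha₁0 : a₁ ≠ 0 := by
    rintro rfl
    rw [zero_div] at htr₁
    exact htr₁ isAlgebraic_zero
  have ha₂0 : a₂ ≠ 0 := by
    rintro rfl
    rw [zero_div] at htr₂
    exact htr₂ isAlgebraic_zero
  obtain ⟨S, hS⟩ : ∃ S : Set K, S = {a₁, b₁, a₂, b₂} := ⟨_, rfl⟩
  have hSf : S.Finite := by rw [hS]; exact Set.toFinite _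
  have hSV : Submodule.span ℂ S ≤ V := by
    rw [Submodule.span_le, hS]
    intro z hz
    simp only [Set.mem_insert_iff, Set.mem_singleton_iff] at hz
    rcases hz with rfl | rfl | rfl | rfl <;> assumption
  obtain ⟨a, haS, b, hbS, ha0, hb0, hg₁, hg₂⟩ := gen_pair (M₁ := fl s₁) (M₂ := fl s₂) hSf
    ⟨a₁, by rw [hS]; simp, ha₁0⟩
  refine ⟨a / b, ⟨a, hSV haS, b, hSV hbS, hb0, rfl⟩, ?_, ?_⟩
  · exact md_le_of_gen ha0 hb0 ha₁0 hb₁0 rfl (fun P => hg₁ P a₁ (by rw [hS]; simp) ha₁0)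
      (fun P => hg₁ P b₁ (by rw [hS]; simp) hb₁0)
  · exact md_le_of_gen ha0 hb0 ha₂0 hb₂0 rfl (fun P => hg₂ P a₂ (by rw [hS]; simp) ha₂0)
      (fun P => hg₂ P b₂ (by rw [hS]; simp) hb₂0)

/-- a selection of pencils of the linear systems of a multiset -/
def Sel (L : Multiset (Submodule ℂ K)) (l : Multiset K) : Prop := Multiset.Rel Pen L l

theorem Sel.card {L : Multiset (Submodule ℂ K)} {l : Multiset K} (h : Sel L l) :
    L.card = l.card := Multiset.card_eq_card_of_rel h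

theorem sel_cons {V : Submodule ℂ K} {L : Multiset (Submodule ℂ K)} {l : Multiset K} :
    Sel (V ::ₘ L) l ↔ ∃ x l', Pen V x ∧ Sel L l' ∧ l = x ::ₘ l' := by
  unfold Sel
  rw [Multiset.rel_cons_left]

/-- one selection is general enough for two conditions -/
theorem select (L : Multiset (Submodule ℂ K)) : ∀ {l₁ l₂ B₁ B₂ : Multiset K}, Sel L l₁ →
    Sel L l₂ → Algebra.trdeg ℂ K = (B₁.card + L.card : ℕ) →
    Algebra.trdeg ℂ K = (B₂.card + L.card : ℕ) →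
    ∃ l, Sel L l ∧ md (B₁ + l₁) ≤ md (B₁ + l) ∧ md (B₂ + l₂) ≤ md (B₂ + l) := by
  induction L using Multiset.induction_on with
  | empty =>
    intro l₁ l₂ B₁ B₂ h₁ h₂ _ _
    have e₁ : l₁ = 0 := Multiset.rel_zero_left.1 h₁
    have e₂ : l₂ = 0 := Multiset.rel_zero_left.1 h₂
    subst e₁ e₂
    exact ⟨0, h₁, le_rfl, le_rfl⟩
  | cons V L ih =>
    intro l₁ l₂ B₁ B₂ h₁ h₂ hc₁ hc₂
    obtain ⟨x₁, l₁', hx₁, hl₁, rfl⟩ := sel_cons.1 h₁
    obtain ⟨x₂, l₂', hx₂, hl₂, rfl⟩ := sel_cons.1 h₂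
    rw [Multiset.card_cons] at hc₁ hc₂
    obtain ⟨x, hx, hle₁, hle₂⟩ := semi hx₁ hx₂ (s₁ := B₁ + l₁') (s₂ := B₂ + l₂')
      (by rw [Multiset.card_add, ← hl₁.card, hc₁, add_assoc])
      (by rw [Multiset.card_add, ← hl₂.card, hc₂, add_assoc])
    obtain ⟨l, hl, h3, h4⟩ := ih (l₁ := l₁') (l₂ := l₂') (B₁ := x ::ₘ B₁) (B₂ := x ::ₘ B₂) hl₁ hl₂
      (by rw [Multiset.card_cons, hc₁]; congr 1; ring)
      (by rw [Multiset.card_cons, hc₂]; congr 1; ring)
    have e : ∀ (B l : Multiset K), x ::ₘ B + l = x ::ₘ (B + l) := fun B l =>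
      Multiset.cons_add x B l
    have e' : ∀ (y : K) (B l : Multiset K), B + y ::ₘ l = y ::ₘ (B + l) := fun y B l =>
      Multiset.add_cons y B l
    refine ⟨x ::ₘ l, sel_cons.2 ⟨x, l, hx, hl, rfl⟩, ?_, ?_⟩
    · rw [e', e']
      rw [e, e] at h3
      exact hle₁.trans h3
    · rw [e', e']
      rw [e, e] at h4
      exact hle₂.trans h4

end

end Pool.Agent.T2H06.DYN
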