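import Pool.Agent.R887.Several

/-!
The degrees of a field of transcendence degree two over the subfields generated by two elements:
an inequality of Siu type.
-/

set_option autoImplicit false
set_option linter.overlappingInstances false
set_option linter.unusedSectionVars false

open FF Module IntermediateField Polynomial

namespace Pool.Agent.T2H06.DYN

section one

variable {F K : Type*} [Field F] [CharZero F] [Field K] [Algebra F K] [IsFF F K]

/-- the degree of the divisor of poles, for all functions -/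
theorem ddeg_polar_all (x : K) : ddeg (polar (k := F) x) = (finrank F⟮x⟯ K : ℤ) := by
  by_cases hx : Transcendental F x
  · exact ddeg_polar hx
  · rw [Transcendental, not_not] at hx
    have h1 : polar (k := F) x = 0 := by
      ext P
      rw [polar_apply, Finsupp.zero_apply]
      by_cases h0 : x = 0
      · rw [h0, P.ord_zero]; simp
      · rw [P.ord_eq_zero_of_isAlgebraic h0 hx]; simp
    have h2 : finrank F⟮x⟯ K = 0 := by
      by_contra h3
      have h4 : FiniteDimensional F⟮x⟯ K := FiniteDimensional.of_finrank_pos (Nat.pos_of_ne_zero h3)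
      obtain ⟨f, hf⟩ := IsFF.exists_transcendental (k := F) (K := K)
      apply hf
      have h5 : Algebra.IsAlgebraic F F⟮x⟯ := by
        have := IntermediateField.adjoin.finiteDimensional hx.isIntegral
        exact Algebra.IsAlgebraic.of_finite F F⟮x⟯
      have h6 : Algebra.IsAlgebraic F⟮x⟯ K := Algebra.IsAlgebraic.of_finite _ _
      have h7 : Algebra.IsAlgebraic F K := Algebra.IsAlgebraic.trans F F⟮x⟯ K
      exact h7.isAlgebraic f
    rw [h1, h2, ddeg_zero]
    simp

/-- membership of the monomials in a Riemann-Roch space -/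
theorem mono_mem {x y b : K} (hx : x ≠ 0) (hy : y ≠ 0) (hb : b ≠ 0) {i j α β : ℕ} (hi : i ≤ α)
    (hj : j ≤ β) {B : Place F K →₀ ℤ} (hB : polar (k := F) b ≤ B) :
    x ^ i * y ^ j * b ∈ LL (α • polar (k := F) x + β • polar (k := F) y + B) := by
  right
  intro P
  rw [P.ord_mul (mul_ne_zero (pow_ne_zero _ hx) (pow_ne_zero _ hy)) hb,
    P.ord_mul (pow_ne_zero _ hx) (pow_ne_zero _ hy), P.ord_pow, P.ord_pow, Finsupp.add_apply,
    Finsupp.add_apply, Finsupp.smul_apply, Finsupp.smul_apply, nsmul_eq_mul, nsmul_eq_mul]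
  have h1 : ∀ (w : K) (i α : ℕ), i ≤ α → -((α : ℤ) * polar (k := F) w P) ≤ i * P.ord w := by
    intro w i α hi
    have h2 : -(polar (k := F) w P) ≤ P.ord w := by
      rw [polar_apply]
      have := le_max_left (-P.ord w) 0
      omega
    have h3 : 0 ≤ polar (k := F) w P := polar_nonneg (k := F) w P
    have h4 : (i : ℤ) * polar (k := F) w P ≤ α * polar (k := F) w P :=
      mul_le_mul_of_nonneg_right (by exact_mod_cast hi) h3
    have h5 : (i : ℤ) * (-(polar (k := F) w P)) ≤ i * P.ord w :=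
      mul_le_mul_of_nonneg_left h2 (Int.natCast_nonneg _)
    linarith
  have h2 := h1 x i α hi
  have h3 := h1 y j β hj
  have h4 := h1 b 1 1 le_rfl
  have h5 : polar (k := F) b P ≤ B P := hB P
  push_cast at h4
  linarith

end one

section gen

variable {k K : Type*} [Field k] [CharZero k] [Field K] [Algebra k K]

/-- common denominators -/
theorem common_denom {ι : Type*} [Fintype ι] {z : K} (a : ι → k⟮z⟯) :
    ∃ (Q : k[X]) (p : ι → k[X]), aeval z Q ≠ 0 ∧ ∀ i, (a i : K) * aeval z Q = aeval z (p i) := by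
  classical
  have h1 : ∀ i, ∃ r s : k[X], aeval z s ≠ 0 ∧ (a i : K) * aeval z s = aeval z r := by
    intro i
    obtain ⟨r, s, h⟩ := (mem_adjoin_simple_iff (F := k) (a i : K)).1 (a i).2
    by_cases hs : aeval z s = 0
    · refine ⟨0, 1, by simp, ?_⟩
      rw [h, hs, div_zero]
      simp
    · exact ⟨r, s, hs, by rw [h]; exact div_mul_cancel₀ _ hs⟩
  choose r s hs hr using h1
  refine ⟨∏ i, s i, fun i => r i * ∏ j ∈ Finset.univ.erase i, s j, ?_, fun i => ?_⟩
  · rw [map_prod]
    exact Finset.prod_ne_zero_iff.2 fun i _ => hs i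
  · rw [← Finset.mul_prod_erase Finset.univ s (Finset.mem_univ i), map_mul, map_mul, ← mul_assoc,
      hr i]

/-- a linear combination of polynomials divisible by a high power -/
theorem exists_dvd {ι τ : Type*} [Fintype ι] [Fintype τ] (p : ι → τ → k[X]) (c₀ : k) (γ : ℕ)
    (h : Fintype.card τ * γ < Fintype.card ι) :
    ∃ c : ι → k, c ≠ 0 ∧ ∀ t, (X - C c₀) ^ γ ∣ ∑ i, c i • p i t := by
  classical
  let Φ : (ι → k) →ₗ[k] (τ × Fin γ → k) :=
    LinearMap.pi fun tj : τ × Fin γ =>
      (Polynomial.lcoeff k (tj.2 : ℕ)) ∘ₗ (Polynomial.modByMonicHom ((X - C c₀) ^ γ)) ∘ₗ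
        (Fintype.linearCombination k (fun i => p i tj.1))
  have h1 : LinearMap.ker Φ ≠ ⊥ := by
    apply LinearMap.ker_ne_bot_of_finrank_lt
    rw [Module.finrank_fintype_fun_eq_card, Module.finrank_fintype_fun_eq_card, Fintype.card_prod,
      Fintype.card_fin]
    exact h
  obtain ⟨c, hc, hc0⟩ := (Submodule.ne_bot_iff _).1 h1
  refine ⟨c, hc0, fun t => ?_⟩
  have hmon : ((X - C c₀ : k[X]) ^ γ).Monic := (monic_X_sub_C c₀).pow γ
  rw [← modByMonic_eq_zero_iff_dvd hmon]
  ext j
  rw [coeff_zero]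
  by_cases hj : j < γ
  · have h2 := congrFun (LinearMap.mem_ker.1 hc) (t, ⟨j, hj⟩)
    have h3 : Φ c (t, ⟨j, hj⟩) = ((∑ i, c i • p i t) %ₘ (X - C c₀) ^ γ).coeff j := by
      change (Polynomial.lcoeff k j) ((Polynomial.modByMonicHom ((X - C c₀) ^ γ))
        (Fintype.linearCombination k (fun i => p i t) c)) = _
      rw [Fintype.linearCombination_apply]
      rfl
    rw [← h3, h2]
    rfl
  · by_cases hγ : γ = 0
    · subst hγ
      rw [pow_zero, modByMonic_one, coeff_zero]
    · apply coeff_eq_zero_of_degree_lt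
      refine (degree_modByMonic_lt _ hmon).trans_le ?_
      rw [degree_pow, degree_X_sub_C, nsmul_one]
      exact_mod_cast not_lt.1 hj

end gen

section siu

variable {k K : Type} [Field k] [CharZero k] [Field K] [Algebra k K]

/-- the monomials in two algebraically independent elements times a basis -/
theorem mono_indep {x y : K} (hxy : AlgebraicIndependent k ![x, y]) {D : ℕ}
    (b : Basis (Fin D) (adjoin k {x, y}) K) (α β : ℕ) :
    LinearIndependent k (fun p : (Fin α × Fin β) × Fin D =>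
      x ^ (p.1.1 : ℕ) * y ^ (p.1.2 : ℕ) * b p.2) := by
  have h1 : LinearIndependent k (fun m : Fin α × Fin β => x ^ (m.1 : ℕ) * y ^ (m.2 : ℕ)) := by
    have h2 : LinearIndependent k (fun m : Fin α × Fin β =>
        (MvPolynomial.basisMonomials (Fin 2) k)
          (Finsupp.single 0 (m.1 : ℕ) + Finsupp.single 1 (m.2 : ℕ))) := by
      refine (MvPolynomial.basisMonomials (Fin 2) k).linearIndependent.comp
        (fun m : Fin α × Fin β => Finsupp.single 0 (m.1 : ℕ) + Finsupp.single 1 (m.2 : ℕ)) ?_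
      rintro ⟨a, b⟩ ⟨c, d⟩ h
      have h3 := DFunLike.congr_fun h 0
      have h4 := DFunLike.congr_fun h 1
      simp at h3 h4
      exact Prod.ext (Fin.ext h3) (Fin.ext h4)
    have h3 := h2.map' (MvPolynomial.aeval ![x, y] : MvPolynomial (Fin 2) k →ₐ[k] K).toLinearMap
      (LinearMap.ker_eq_bot.2 hxy)
    have e : (fun m : Fin α × Fin β => x ^ (m.1 : ℕ) * y ^ (m.2 : ℕ)) =
        (MvPolynomial.aeval ![x, y] : MvPolynomial (Fin 2) k →ₐ[k] K).toLinearMap ∘
          fun m : Fin α × Fin β => (MvPolynomial.basisMonomials (Fin 2) k)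
            (Finsupp.single 0 (m.1 : ℕ) + Finsupp.single 1 (m.2 : ℕ)) := by
      funext m
      simp [Finsupp.prod_add_index', pow_add, MvPolynomial.monomial_eq]
    rw [e]
    exact h3
  have hxL : x ∈ adjoin k {x, y} := subset_adjoin k _ (by simp)
  have hyL : y ∈ adjoin k {x, y} := subset_adjoin k _ (by simp)
  have h2 : LinearIndependent k (fun m : Fin α × Fin β =>
      (⟨x, hxL⟩ ^ (m.1 : ℕ) * ⟨y, hyL⟩ ^ (m.2 : ℕ) : adjoin k {x, y})) := by
    refine LinearIndependent.of_comp (adjoin k {x, y}).val.toLinearMap ?_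
    exact h1
  have h3 := linearIndependent_smul h2 b.linearIndependent
  have e : (fun p : (Fin α × Fin β) × Fin D => x ^ (p.1.1 : ℕ) * y ^ (p.1.2 : ℕ) * b p.2) =
      fun p : (Fin α × Fin β) × Fin D =>
        (⟨x, hxL⟩ ^ (p.1.1 : ℕ) * ⟨y, hyL⟩ ^ (p.1.2 : ℕ) : adjoin k {x, y}) • b p.2 := by
    funext p
    rw [IntermediateField.smul_def]
    rfl
  rw [e]
  exact h3

theorem reg_aeval {F : Type*} [Field F] [Algebra k F] [Algebra F K] [IsScalarTower k F K]
    (P : Place F K) {z : K} (hz : P.Reg z) (R : k[X]) : P.Reg (aeval z R) := by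
  induction R using Polynomial.induction_on with
  | C a =>
    rw [aeval_C, IsScalarTower.algebraMap_apply k F K]
    exact P.reg_const _
  | add p q hp hq => rw [map_add]; exact P.reg_add hp hq
  | monomial n a ih =>
    rw [pow_succ, ← mul_assoc, map_mul, aeval_X]
    exact P.reg_mul ih hz

theorem reg_sum {F : Type*} [Field F] [Algebra F K] (P : Place F K) {ι : Type*} (s : Finset ι)
    (f : ι → K) (h : ∀ i ∈ s, P.Reg (f i)) : P.Reg (∑ i ∈ s, f i) := by
  classical
  induction s using Finset.induction_on with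
  | empty => rw [Finset.sum_empty]; exact P.reg_zero
  | insert a s ha ih =>
    rw [Finset.sum_insert ha]
    exact P.reg_add (h a (Finset.mem_insert_self _ _))
      (ih fun i hi => h i (Finset.mem_insert_of_mem hi))

theorem ord_constk {F : Type*} [Field F] [Algebra k F] [Algebra F K] [IsScalarTower k F K]
    (P : Place F K) {c : k} (hc : c ≠ 0) : P.ord (algebraMap k K c) = 0 := by
  rw [IsScalarTower.algebraMap_apply k F K]
  exact P.ord_const (by rwa [Ne, map_eq_zero])

/-- the value of a polynomial at a zero of `z - c` -/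
theorem ord_aeval_zero {F : Type*} [Field F] [Algebra k F] [Algebra F K] [IsScalarTower k F K]
    (P : Place F K) {z : K} {c : k} (hz : 0 < P.ord (z - algebraMap k K c)) {Q : k[X]}
    (hQ : Q.eval c ≠ 0) : P.ord (aeval z Q) = 0 := by
  have hz0 : z - algebraMap k K c ≠ 0 := by
    intro h
    rw [h, P.ord_zero] at hz
    exact lt_irrefl _ hz
  have hzr : P.Reg z := by
    have h1 : z = (z - algebraMap k K c) + algebraMap k K c := by ring
    rw [h1]
    refine P.reg_add (Or.inr hz.le) ?_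
    rw [IsScalarTower.algebraMap_apply k F K]
    exact P.reg_const _
  obtain ⟨S, hS⟩ := X_sub_C_dvd_sub_C_eval (a := c) (p := Q)
  have h1 : aeval z Q = algebraMap k K (Q.eval c) + (z - algebraMap k K c) * aeval z S := by
    have h2 := congrArg (aeval z) hS
    rw [map_sub, map_mul, map_sub, aeval_X, aeval_C, aeval_C] at h2
    rw [← h2]
    ring
  have hc : algebraMap k K (Q.eval c) ≠ 0 := by rwa [Ne, map_eq_zero]
  rw [h1]
  by_cases h0 : aeval z S = 0
  · rw [h0, mul_zero, add_zero]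
    exact ord_constk P hQ
  · have h2 : P.ord (algebraMap k K (Q.eval c)) < P.ord ((z - algebraMap k K c) * aeval z S) := by
      rw [ord_constk P hQ, P.ord_mul hz0 h0]
      have := (P.reg_iff h0).1 (reg_aeval P hzr S)
      omega
    rw [(P.ord_add_eq hc (mul_ne_zero hz0 h0) h2).2]
    exact ord_constk P hQ

/-- **An inequality of Siu type.** -/
theorem siu {x y z w : K} [hE : IsFF k⟮w⟯ K] [hG : IsFF k⟮z⟯ K]
    (hxy : AlgebraicIndependent k ![x, y]) (hfin : FiniteDimensional (adjoin k {x, y}) K) :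
    ∃ C₁ C₂ : ℕ, ∀ α β γ : ℕ,
      γ * (α * finrank k⟮z⟯⟮x⟯ K + β * finrank k⟮z⟯⟮y⟯ K + C₂) <
        α * β * finrank (adjoin k {x, y}) K →
      γ * finrank k⟮w⟯⟮z⟯ K ≤ α * finrank k⟮w⟯⟮x⟯ K + β * finrank k⟮w⟯⟮y⟯ K + C₁ := by
  classical
  obtain ⟨D, hD⟩ : ∃ D, D = finrank (adjoin k {x, y}) K := ⟨_, rfl⟩
  obtain ⟨b, -⟩ : ∃ b : Basis (Fin D) (adjoin k {x, y}) K, True :=
    ⟨Module.finBasisOfFinrankEq _ _ hD.symm, trivial⟩
  have hb0 : ∀ l, b l ≠ 0 := fun l => b.ne_zero l
  have hx0 : x ≠ 0 := hxy.ne_zero 0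
  have hy0 : y ≠ 0 := hxy.ne_zero 1
  obtain ⟨BE, hBE'⟩ : ∃ BE : Place k⟮w⟯ K →₀ ℤ, BE = ∑ l, polar (k := k⟮w⟯) (b l) := ⟨_, rfl⟩
  obtain ⟨BG, hBG'⟩ : ∃ BG : Place k⟮z⟯ K →₀ ℤ, BG = ∑ l, polar (k := k⟮z⟯) (b l) := ⟨_, rfl⟩
  have hBE : ∀ l, polar (k := k⟮w⟯) (b l) ≤ BE := fun l => by
    rw [hBE']
    exact Finset.single_le_sum (f := fun l => polar (k := k⟮w⟯) (b l))
      (fun i _ => polar_nonneg _) (Finset.mem_univ l)
  have hBG : ∀ l, polar (k := k⟮z⟯) (b l) ≤ BG := fun l => by
    rw [hBG']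
    exact Finset.single_le_sum (f := fun l => polar (k := k⟮z⟯) (b l))
      (fun i _ => polar_nonneg _) (Finset.mem_univ l)
  have hBE0 : 0 ≤ BE := by rw [hBE']; exact Finset.sum_nonneg fun i _ => polar_nonneg _
  have hBG0 : 0 ≤ BG := by rw [hBG']; exact Finset.sum_nonneg fun i _ => polar_nonneg _
  refine ⟨(ddeg BE).toNat, (ell (0 : Place k⟮z⟯ K →₀ ℤ) + ddeg BG).toNat, fun α β γ hlt => ?_⟩
  rw [← hD] at hlt
  -- the monomials
  obtain ⟨M, hMdef⟩ : ∃ M : (Fin α × Fin β) × Fin D → K,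
      M = fun p => x ^ (p.1.1 : ℕ) * y ^ (p.1.2 : ℕ) * b p.2 := ⟨_, rfl⟩
  have hM : LinearIndependent k M := by rw [hMdef]; exact mono_indep hxy b α β
  have hME : ∀ p, M p ∈ LL (α • polar (k := k⟮w⟯) x + β • polar (k := k⟮w⟯) y + BE) := by
    intro p
    rw [hMdef]
    exact mono_mem hx0 hy0 (hb0 _) p.1.1.2.le p.1.2.2.le (hBE _)
  have hMG : ∀ p, M p ∈ LL (α • polar (k := k⟮z⟯) x + β • polar (k := k⟮z⟯) y + BG) := by
    intro p
    rw [hMdef]
    exact mono_mem hx0 hy0 (hb0 _) p.1.1.2.le p.1.2.2.le (hBG _)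
  -- a basis of the span over `k(z)`
  obtain ⟨κ, a, ha, hspan, hli⟩ := exists_linearIndependent' k⟮z⟯ M
  have hfκ : Finite κ := Finite.of_injective a ha
  have hftκ : Fintype κ := Fintype.ofFinite κ
  have hcard : Fintype.card κ ≤ α * finrank k⟮z⟯⟮x⟯ K + β * finrank k⟮z⟯⟮y⟯ K +
      (ell (0 : Place k⟮z⟯ K →₀ ℤ) + ddeg BG).toNat := by
    have h1 : LinearIndependent k⟮z⟯ (fun i => (⟨M (a i), hMG _⟩ :
        LL (α • polar (k := k⟮z⟯) x + β • polar (k := k⟮z⟯) y + BG))) :=
      LinearIndependent.of_comp (Submodule.subtype _) hli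
    have h2 := h1.fintype_card_le_finrank
    have h3 : (Fintype.card κ : ℤ) ≤
        ell (α • polar (k := k⟮z⟯) x + β • polar (k := k⟮z⟯) y + BG) := by
      unfold ell
      exact_mod_cast h2
    have h4 : (0 : Place k⟮z⟯ K →₀ ℤ) ≤
        α • polar (k := k⟮z⟯) x + β • polar (k := k⟮z⟯) y + BG :=
      add_nonneg (add_nonneg (nsmul_nonneg (polar_nonneg _) _) (nsmul_nonneg (polar_nonneg _) _))
        hBG0
    have h5 := ell_le h4
    rw [ddeg_add, ddeg_add, ddeg_nsmul, ddeg_nsmul, ddeg_polar_all, ddeg_polar_all,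
      ddeg_zero] at h5
    have h6 := Int.self_le_toNat (ell (0 : Place k⟮z⟯ K →₀ ℤ) + ddeg BG)
    have h7 : (Fintype.card κ : ℤ) ≤ ((α * finrank k⟮z⟯⟮x⟯ K + β * finrank k⟮z⟯⟮y⟯ K +
      (ell (0 : Place k⟮z⟯ K →₀ ℤ) + ddeg BG).toNat : ℕ) : ℤ) := by
      push_cast
      linarith
    exact_mod_cast h7
  -- the coefficients
  have hcoef : ∀ m, ∃ c : κ → k⟮z⟯, ∑ t, c t • M (a t) = M m := by
    intro m
    have h1 : M m ∈ Submodule.span k⟮z⟯ (Set.range (M ∘ a)) := by
      rw [hspan]
      exact Submodule.subset_span ⟨m, rfl⟩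
    exact (Submodule.mem_span_range_iff_exists_fun _).1 h1
  choose cf hcf using hcoef
  obtain ⟨Q, p, hQ, hp⟩ := common_denom (k := k) (z := z)
    (fun mt : ((Fin α × Fin β) × Fin D) × κ => cf mt.1 mt.2)
  -- the choice of the constant
  obtain ⟨T, hT⟩ : ∃ T : Set (Place k⟮w⟯ K), T = {P | P.ord x ≠ 0} ∪ {P | P.ord y ≠ 0} ∪
      ⋃ l, {P | P.ord (b l) ≠ 0} := ⟨_, rfl⟩
  have hTfin : T.Finite := by
    rw [hT]
    exact ((finite_support x).union (finite_support y)).union
      (Set.finite_iUnion fun l => finite_support (b l))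
  have hQ0 : Q ≠ 0 := by
    rintro rfl
    exact hQ (map_zero _)
  have hbad : ({c : k | Q.eval c = 0} ∪
      ⋃ P ∈ T, {c : k | 0 < P.ord (z - algebraMap k K c)}).Finite := by
    refine Set.Finite.union ?_ (hTfin.biUnion fun P _ => ?_)
    · exact (Q.roots.toFinset.finite_toSet).subset fun c hc => by
        rw [Finset.mem_coe, Multiset.mem_toFinset, mem_roots hQ0]
        exact hc
    · refine Set.Subsingleton.finite ?_
      intro c hc c' hc'
      by_contra hne
      change 0 < P.ord (z - algebraMap k K c) at hc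
      change 0 < P.ord (z - algebraMap k K c') at hc'
      have h1 : (z - algebraMap k K c) - (z - algebraMap k K c') = algebraMap k K (c' - c) := by
        rw [map_sub]; ring
      have h2 : c' - c ≠ 0 := sub_ne_zero.2 (Ne.symm hne)
      have h3 : algebraMap k K (c' - c) ≠ 0 := by rwa [Ne, map_eq_zero]
      have h4 : z - algebraMap k K c ≠ 0 := by
        intro h
        rw [h, P.ord_zero] at hc
        exact lt_irrefl _ hc
      have h5 : z - algebraMap k K c' ≠ 0 := by
        intro h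
        rw [h, P.ord_zero] at hc'
        exact lt_irrefl _ hc'
      have h6 := P.ord_sub h4 h5 (by rw [h1]; exact h3)
      rw [h1, ord_constk P h2] at h6
      have h7 := lt_min hc hc'
      omega
  obtain ⟨c₀, hc₀⟩ := hbad.infinite_compl.nonempty
  rw [Set.mem_compl_iff, Set.mem_union, not_or] at hc₀
  obtain ⟨hc1, hc2⟩ := hc₀
  have hT0 : ∀ P : Place k⟮w⟯ K, 0 < P.ord (z - algebraMap k K c₀) → P ∉ T := by
    intro P hP hPT
    exact hc2 (Set.mem_iUnion₂.2 ⟨P, hPT, hP⟩)
  -- the combination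
  obtain ⟨c, hc0, hc⟩ := exists_dvd (k := k) (fun m t => p (m, t)) c₀ γ (by
    rw [Fintype.card_prod, Fintype.card_prod, Fintype.card_fin, Fintype.card_fin, Fintype.card_fin]
    rw [mul_comm]
    exact (Nat.mul_le_mul_left _ hcard).trans_lt hlt)
  choose R hR using hc
  obtain ⟨f, hf⟩ : ∃ f, f = ∑ m, c m • M m := ⟨_, rfl⟩
  have hf0 : f ≠ 0 := by
    intro h
    apply hc0
    funext m
    exact (Fintype.linearIndependent_iff.1 hM) c (by rw [← hf, h]) m
  have hprod : f * aeval z Q =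
      (z - algebraMap k K c₀) ^ γ * ∑ t, aeval z (R t) * M (a t) := by
    have h1 : ∀ t, aeval z (∑ m, c m • p (m, t)) =
        (z - algebraMap k K c₀) ^ γ * aeval z (R t) := by
      intro t
      rw [hR t, map_mul, map_pow, map_sub, aeval_X, aeval_C]
    rw [Finset.mul_sum]
    have h2 : ∀ t, (z - algebraMap k K c₀) ^ γ * (aeval z (R t) * M (a t)) =
        ∑ m, c m • (aeval z (p (m, t)) * M (a t)) := by
      intro t
      rw [← mul_assoc, ← h1 t, map_sum, Finset.sum_mul]
      refine Finset.sum_congr rfl fun m _ => ?_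
      rw [map_smul, smul_mul_assoc]
    rw [Finset.sum_congr rfl fun t _ => h2 t, Finset.sum_comm, hf, Finset.sum_mul]
    refine Finset.sum_congr rfl fun m _ => ?_
    rw [← Finset.smul_sum, smul_mul_assoc]
    congr 1
    rw [← hcf m, Finset.sum_mul]
    refine Finset.sum_congr rfl fun t _ => ?_
    rw [← hp (m, t), IntermediateField.smul_def, smul_eq_mul]
    ring
  -- the orders
  have hord : ∀ P : Place k⟮w⟯ K, 0 < P.ord (z - algebraMap k K c₀) →
      (γ : ℤ) * P.ord (z - algebraMap k K c₀) ≤ P.ord f := by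
    intro P hP
    have hPT := hT0 P hP
    rw [hT, Set.mem_union, Set.mem_union, not_or, not_or, Set.mem_iUnion, not_exists] at hPT
    obtain ⟨⟨hP1, hP2⟩, hP3⟩ := hPT
    have hP1' : P.ord x = 0 := by by_contra h; exact hP1 h
    have hP2' : P.ord y = 0 := by by_contra h; exact hP2 h
    have hP3' : ∀ l, P.ord (b l) = 0 := fun l => by by_contra h; exact hP3 l h
    have hzc : z - algebraMap k K c₀ ≠ 0 := by
      intro h
      rw [h, P.ord_zero] at hP
      exact lt_irrefl _ hP
    have hzr : P.Reg z := by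
      have h1 : z = (z - algebraMap k K c₀) + algebraMap k K c₀ := by ring
      rw [h1]
      refine P.reg_add (Or.inr hP.le) (Or.inr ?_)
      by_cases h0 : c₀ = 0
      · rw [h0, map_zero, P.ord_zero]
      · rw [ord_constk P h0]
    have hreg : P.Reg (∑ t, aeval z (R t) * M (a t)) := by
      refine reg_sum P _ _ fun t _ => P.reg_mul (reg_aeval P hzr _) (Or.inr ?_)
      rw [hMdef]
      change 0 ≤ P.ord (x ^ _ * y ^ _ * b _)
      rw [P.ord_mul (mul_ne_zero (pow_ne_zero _ hx0) (pow_ne_zero _ hy0)) (hb0 _),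
        P.ord_mul (pow_ne_zero _ hx0) (pow_ne_zero _ hy0), P.ord_pow, P.ord_pow, hP1', hP2', hP3']
      simp
    have hne : (∑ t, aeval z (R t) * M (a t)) ≠ 0 := by
      intro h
      rw [h, mul_zero] at hprod
      exact mul_ne_zero hf0 hQ hprod
    have h1 := congrArg P.ord hprod
    rw [P.ord_mul hf0 hQ, P.ord_mul (pow_ne_zero _ hzc) hne, P.ord_pow,
      ord_aeval_zero P hP hc1, add_zero] at h1
    rw [h1]
    have := (P.reg_iff hne).1 hreg
    linarith
  have hfL : f ∈ LL (α • polar (k := k⟮w⟯) x + β • polar (k := k⟮w⟯) y + BE) := by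
    rw [hf]
    refine Submodule.sum_mem _ fun m _ => ?_
    rw [← algebraMap_smul k⟮w⟯ (c m) (M m)]
    exact Submodule.smul_mem _ _ (hME m)
  have hdiv : γ • polar (k := k⟮w⟯) (z - algebraMap k K c₀)⁻¹ ≤
      divisor k⟮w⟯ f + (α • polar (k := k⟮w⟯) x + β • polar (k := k⟮w⟯) y + BE) := by
    intro P
    rw [Finsupp.smul_apply, polar_apply, P.ord_inv, neg_neg, Finsupp.add_apply, divisor_apply,
      nsmul_eq_mul]
    have h1 := (hfL.resolve_left hf0) P
    have h2 : 0 ≤ (α • polar (k := k⟮w⟯) x + β • polar (k := k⟮w⟯) y + BE) P := by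
      have h3 : (0 : Place k⟮w⟯ K →₀ ℤ) ≤
          α • polar (k := k⟮w⟯) x + β • polar (k := k⟮w⟯) y + BE :=
        add_nonneg (add_nonneg (nsmul_nonneg (polar_nonneg _) _)
          (nsmul_nonneg (polar_nonneg _) _)) hBE0
      exact h3 P
    rcases lt_or_ge 0 (P.ord (z - algebraMap k K c₀)) with h | h
    · rw [max_eq_left h.le]
      have := hord P h
      linarith
    · rw [max_eq_right h, mul_zero]
      linarith
  have h1 := ddeg_mono hdiv
  rw [ddeg_nsmul, ddeg_add, ddeg_divisor, ddeg_add, ddeg_add, ddeg_nsmul, ddeg_nsmul,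
    ddeg_polar_all, ddeg_polar_all, ddeg_polar_all, zero_add] at h1
  have h2 : k⟮w⟯⟮(z - algebraMap k K c₀)⁻¹⟯ = k⟮w⟯⟮z⟯ := by
    rw [adjoin_inv]
    have hcz : ∀ S : IntermediateField k⟮w⟯ K, algebraMap k K c₀ ∈ S := by
      intro S
      rw [IsScalarTower.algebraMap_apply k k⟮w⟯ K]
      exact S.algebraMap_mem _
    apply le_antisymm
    · rw [adjoin_simple_le_iff]
      exact sub_mem (mem_adjoin_simple_self _ _) (hcz _)
    · rw [adjoin_simple_le_iff]
      have h3 : z = (z - algebraMap k K c₀) + algebraMap k K c₀ := by ring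
      have h4 : (z - algebraMap k K c₀) + algebraMap k K c₀ ∈
          k⟮w⟯⟮z - algebraMap k K c₀⟯ := add_mem (mem_adjoin_simple_self _ _) (hcz _)
      rwa [← h3] at h4
  rw [h2] at h1
  have h3 := Int.self_le_toNat (ddeg BE)
  have h4 : ((γ * finrank k⟮w⟯⟮z⟯ K : ℕ) : ℤ) ≤ ((α * finrank k⟮w⟯⟮x⟯ K +
      β * finrank k⟮w⟯⟮y⟯ K + (ddeg BE).toNat : ℕ) : ℤ) := by
    push_cast
    linarith
  exact_mod_cast h4

end siu

end Pool.Agent.T2H06.DYN
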