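import Pool.Agent.T2H06.DYN.Sel
import Pool.Agent.W602.GT.Defs

/-!
The intersection numbers of linear systems: the largest degrees of selections of pencils.
-/

set_option autoImplicit false
set_option linter.overlappingInstances false
set_option linter.unusedSectionVars false
set_option linter.unusedVariables false

open FF Module IntermediateField Pool.Agent.R887 Pool.Agent.W602.GT

namespace Pool.Agent.T2H06.DYN

section

variable {K : Type} [Field K] [Algebra ℂ K]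

theorem bdd_step {V : Submodule ℂ K} (hV : V.FG) : ∃ (S : Finset K) (v : S → K),
    ∀ {s : Multiset K}, Algebra.trdeg ℂ K = (s.card + 1 : ℕ) → ∀ x, Pen V x →
      md (x ::ₘ s) ≤ ∑ i, md (v i ::ₘ s) := by
  classical
  obtain ⟨S, hS⟩ := hV
  by_cases h0 : ∃ s ∈ S, s ≠ 0
  · obtain ⟨s₀, hs₀, hs₀0⟩ := h0
    obtain ⟨v, hv⟩ : ∃ v : S → K, v = fun i : S => (i : K) / s₀ := ⟨_, rfl⟩
    refine ⟨S, v, fun {s} hn x hx => ?_⟩
    by_cases h : md (x ::ₘ s) = 0
    · rw [h]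
      exact Nat.zero_le _
    obtain ⟨hff, htr, -⟩ := md_ff hn h
    obtain ⟨a, ha, b, hb, hb0, rfl⟩ := hx
    have ha0 : a ≠ 0 := by
      rintro rfl
      rw [zero_div] at htr
      exact htr isAlgebraic_zero
    rw [← hS] at ha hb
    obtain ⟨D, hD⟩ : ∃ D : S → (Place (fl s) K →₀ ℤ), ∀ i, D i = polar (k := fl s) (v i) :=
      ⟨_, fun i => rfl⟩
    have hD0 : ∀ i, 0 ≤ D i := fun i => by rw [hD]; exact polar_nonneg _
    have h3 : polar (k := fl s) (a / b) ≤ divisor (fl s) b - divisor (fl s) s₀ +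
        ∑ i : S, D i := by
      intro P
      rw [polar_apply, Finsupp.add_apply, Finsupp.sub_apply, divisor_apply, divisor_apply,
        P.ord_div ha0 hb0]
      have key : ∀ c ∈ Submodule.span ℂ (S : Set K), c ≠ 0 →
          P.ord s₀ - P.ord c ≤ (∑ i : S, D i) P := by
        intro c hc hc0
        obtain ⟨t, ht, ht0, hle⟩ := exists_ord_le P hc hc0
        have h4 : D ⟨t, ht⟩ ≤ ∑ i : S, D i :=
          Finset.single_le_sum (fun i _ => hD0 i) (Finset.mem_univ (⟨t, ht⟩ : S))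
        have h4' := h4 P
        have h5 : P.ord s₀ - P.ord t ≤ D ⟨t, ht⟩ P := by
          rw [hD, hv, polar_apply, P.ord_div ht0 hs₀0]
          refine le_trans ?_ (le_max_left _ _)
          omega
        omega
      have h4 := key a ha ha0
      have h5 := key b hb hb0
      refine max_le ?_ ?_ <;> omega
    have h4 := ddeg_mono h3
    have hsum : ∀ (J : Finset S), ddeg (∑ i ∈ J, D i) = ∑ i ∈ J, (md (v i ::ₘ s) : ℤ) := by
      intro J
      induction J using Finset.induction_on with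
      | empty => rw [Finset.sum_empty, Finset.sum_empty, ddeg_zero]
      | insert i J hi ih =>
        rw [Finset.sum_insert hi, Finset.sum_insert hi, ddeg_add, ih, hD, ddeg_polar_all, md_one]
    rw [ddeg_add, ddeg_sub, ddeg_divisor, ddeg_divisor, ddeg_polar_all, hsum, sub_zero,
      zero_add] at h4
    rw [md_one]
    exact_mod_cast h4
  · refine ⟨∅, fun _ => 0, fun {s} hn x hx => ?_⟩
    obtain ⟨a, ha, b, hb, hb0, rfl⟩ := hx
    exfalso
    apply hb0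
    rw [← hS] at hb
    have h1 : (S : Set K) ⊆ (⊥ : Submodule ℂ K) := by
      intro t ht
      by_contra h2
      exact h0 ⟨t, ht, h2⟩
    exact Submodule.span_le.2 h1 hb

/-- the degrees of the selections are bounded -/
theorem bdd (L : Multiset (Submodule ℂ K)) (hL : ∀ V ∈ L, V.FG) : ∀ {B : Multiset K},
    Algebra.trdeg ℂ K = (B.card + L.card : ℕ) → ∃ C, ∀ l, Sel L l → md (B + l) ≤ C := by
  induction L using Multiset.induction_on with
  | empty =>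
    intro B _
    refine ⟨md B, fun l hl => ?_⟩
    have e : l = 0 := Multiset.rel_zero_left.1 hl
    rw [e, add_zero]
  | cons V L ih =>
    intro B hB
    rw [Multiset.card_cons] at hB
    obtain ⟨S, v, hv⟩ := bdd_step (hL V (Multiset.mem_cons_self _ _))
    have h1 : ∀ i, ∃ C, ∀ l, Sel L l → md (v i ::ₘ B + l) ≤ C := fun i =>
      ih (fun V hV => hL V (Multiset.mem_cons_of_mem hV)) (B := v i ::ₘ B)
        (by rw [Multiset.card_cons, hB]; congr 1; ring)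
    choose C hC using h1
    refine ⟨∑ i, C i, fun l hl => ?_⟩
    obtain ⟨x, l', hx, hl', rfl⟩ := sel_cons.1 hl
    rw [Multiset.add_cons]
    refine (hv (s := B + l') (by rw [Multiset.card_add, ← hl'.card, hB, add_assoc]) x hx).trans ?_
    refine Finset.sum_le_sum fun i _ => ?_
    have h2 := hC i l' hl'
    rwa [Multiset.cons_add] at h2

/-- the intersection number of linear systems -/
noncomputable def MM (L : Multiset (Submodule ℂ K)) : ℕ := sSup {d | ∃ l, Sel L l ∧ md l = d}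

theorem MM_bdd {L : Multiset (Submodule ℂ K)} (hn : Algebra.trdeg ℂ K = L.card)
    (hL : ∀ V ∈ L, V.FG) : BddAbove {d | ∃ l, Sel L l ∧ md l = d} := by
  obtain ⟨C, hC⟩ := bdd L hL (B := 0) (by rw [Multiset.card_zero, zero_add]; exact hn)
  refine ⟨C, ?_⟩
  rintro _ ⟨l, hl, rfl⟩
  have := hC l hl
  rwa [zero_add] at this

theorem le_MM {L : Multiset (Submodule ℂ K)} (hn : Algebra.trdeg ℂ K = L.card)
    (hL : ∀ V ∈ L, V.FG) {l : Multiset K} (hl : Sel L l) : md l ≤ MM L :=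
  le_csSup (MM_bdd hn hL) ⟨l, hl, rfl⟩

theorem exists_MM {L : Multiset (Submodule ℂ K)} (hn : Algebra.trdeg ℂ K = L.card)
    (hL : ∀ V ∈ L, V.FG) (h : MM L ≠ 0) : ∃ l, Sel L l ∧ md l = MM L := by
  by_cases he : {d | ∃ l, Sel L l ∧ md l = d}.Nonempty
  · exact Nat.sSup_mem he (MM_bdd hn hL)
  · rw [Set.not_nonempty_iff_eq_empty] at he
    exfalso
    apply h
    unfold MM
    rw [he, csSup_empty]
    rfl

theorem MM_le {L : Multiset (Submodule ℂ K)} {C : ℕ} (h : ∀ l, Sel L l → md l ≤ C) : MM L ≤ C := by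
  by_cases he : {d | ∃ l, Sel L l ∧ md l = d}.Nonempty
  · refine csSup_le he ?_
    rintro _ ⟨l, hl, rfl⟩
    exact h l hl
  · rw [Set.not_nonempty_iff_eq_empty] at he
    unfold MM
    rw [he, csSup_empty]
    exact Nat.zero_le _

/-- **The four point inequality for linear systems.** -/
theorem MM_four {L : Multiset (Submodule ℂ K)} (hn : Algebra.trdeg ℂ K = (L.card + 2 : ℕ))
    (hL : ∀ V ∈ L, V.FG) {V₁ V₂ V₃ V₄ : Submodule ℂ K} (h₁ : V₁.FG) (h₂ : V₂.FG) (h₃ : V₃.FG)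
    (h₄ : V₄.FG) :
    MM (V₁ ::ₘ V₂ ::ₘ L) * MM (V₃ ::ₘ V₄ ::ₘ L) ≤ 2 * (MM (V₁ ::ₘ V₃ ::ₘ L) *
      MM (V₂ ::ₘ V₄ ::ₘ L) + MM (V₁ ::ₘ V₄ ::ₘ L) * MM (V₂ ::ₘ V₃ ::ₘ L)) := by
  have hn' : ∀ (V W : Submodule ℂ K), Algebra.trdeg ℂ K = (V ::ₘ W ::ₘ L).card := by
    intro V W
    rw [Multiset.card_cons, Multiset.card_cons, hn]
  have hL' : ∀ {V W : Submodule ℂ K}, V.FG → W.FG → ∀ U ∈ (V ::ₘ W ::ₘ L), U.FG := by
    intro V W hV hW U hU
    rcases Multiset.mem_cons.1 hU with rfl | hU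
    · exact hV
    rcases Multiset.mem_cons.1 hU with rfl | hU
    · exact hW
    exact hL U hU
  by_cases e₁ : MM (V₁ ::ₘ V₂ ::ₘ L) = 0
  · rw [e₁, zero_mul]
    exact Nat.zero_le _
  by_cases e₂ : MM (V₃ ::ₘ V₄ ::ₘ L) = 0
  · rw [e₂, mul_zero]
    exact Nat.zero_le _
  obtain ⟨l, hl, hle⟩ := exists_MM (hn' V₁ V₂) (hL' h₁ h₂) e₁
  obtain ⟨l', hl', hle'⟩ := exists_MM (hn' V₃ V₄) (hL' h₃ h₄) e₂
  obtain ⟨x, l₁, hx, hl₁, rfl⟩ := sel_cons.1 hl
  obtain ⟨y, ω, hy, hω, rfl⟩ := sel_cons.1 hl₁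
  obtain ⟨z, l₂, hz, hl₂, rfl⟩ := sel_cons.1 hl'
  obtain ⟨w, ω', hw, hω', rfl⟩ := sel_cons.1 hl₂
  obtain ⟨τ, hτ, h5, h6⟩ := select L (B₁ := {x, y}) (B₂ := {z, w}) hω hω'
    (by rw [hn, add_comm]; rfl) (by rw [hn, add_comm]; rfl)
  have e : ∀ (a b : K) (s : Multiset K), ({a, b} : Multiset K) + s = a ::ₘ b ::ₘ s := by
    intro a b s
    rw [Multiset.insert_eq_cons, Multiset.cons_add, Multiset.singleton_add]
  rw [e, e] at h5 h6
  have h7 := md_four (s := τ) (by rw [← hτ.card, hn]) x y z w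
  have hsel : ∀ {V W : Submodule ℂ K} {a b : K}, Pen V a → Pen W b → Sel (V ::ₘ W ::ₘ L)
      (a ::ₘ b ::ₘ τ) := fun {V W a b} ha hb =>
    sel_cons.2 ⟨a, b ::ₘ τ, ha, sel_cons.2 ⟨b, τ, hb, hτ, rfl⟩, rfl⟩
  have h8 := le_MM (hn' V₁ V₃) (hL' h₁ h₃) (hsel hx hz)
  have h9 := le_MM (hn' V₂ V₄) (hL' h₂ h₄) (hsel hy hw)
  have h10 := le_MM (hn' V₁ V₄) (hL' h₁ h₄) (hsel hx hw)
  have h11 := le_MM (hn' V₂ V₃) (hL' h₂ h₃) (hsel hy hz)
  rw [← hle, ← hle']
  calc md (x ::ₘ y ::ₘ ω) * md (z ::ₘ w ::ₘ ω') ≤ md (x ::ₘ y ::ₘ τ) * md (z ::ₘ w ::ₘ τ) :=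
        Nat.mul_le_mul h5 h6
    _ ≤ _ := h7
    _ ≤ _ := Nat.mul_le_mul_left _ (Nat.add_le_add (Nat.mul_le_mul h8 h9)
        (Nat.mul_le_mul h10 h11))

/-- The poles of the elements of `V`, multiplied by `a`, are bounded by the poles of the elements of
`V'`, multiplied by `b`, and the poles of `h`, at all prime divisors over the variety. -/
def Dom (n : ℕ) (V V' : Submodule ℂ K) (a b : ℕ) (h : K) : Prop :=
  h ≠ 0 ∧ ∀ P : Place ℂ K, Divisorial n P → ∀ f ∈ V, f ≠ 0 → ∃ f' ∈ V', f' ≠ 0 ∧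
    (b : ℤ) * P.ord f' + P.ord h ≤ a * P.ord f

theorem down_divisorial {n : ℕ} {s : Multiset K} (hs : s.card + 1 = n) {u : Fin s.card → K}
    (hr : Set.range u = {a | a ∈ s}) (hu : AlgebraicIndependent ℂ u) (P : Place (fl s) K) :
    Divisorial n (down (fl s) P) := by
  subst hs
  refine ⟨u, fun p hp => ?_⟩
  have h1 : MvPolynomial.aeval u p ≠ 0 := fun h0 => hp ((injective_iff_map_eq_zero _).1 hu p h0)
  refine ⟨h1, ?_⟩
  have h2 : MvPolynomial.aeval u p ∈ fl s := by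
    unfold fl
    rw [← hr]
    apply IntermediateField.algebra_adjoin_le_adjoin ℂ (Set.range u)
    rw [Algebra.adjoin_range_eq_range_aeval]
    exact ⟨p, rfl⟩
  exact P.ord_const (c := ⟨MvPolynomial.aeval u p, h2⟩) fun h0 => h1 (congrArg Subtype.val h0)

/-- **Domination.** -/
theorem MM_dom {n : ℕ} {L : Multiset (Submodule ℂ K)} (hn : Algebra.trdeg ℂ K = n)
    (hc : L.card + 1 = n) (hL : ∀ V ∈ L, V.FG) {V V' : Submodule ℂ K} (hV : V.FG) (hV' : V'.FG)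
    {a b : ℕ} {h : K} (hd : Dom n V V' a b h) : a * MM (V ::ₘ L) ≤ b * MM (V' ::ₘ L) := by
  classical
  have hn' : ∀ (V : Submodule ℂ K), Algebra.trdeg ℂ K = (V ::ₘ L).card := by
    intro V
    rw [Multiset.card_cons, hc, hn]
  have hL' : ∀ {V : Submodule ℂ K}, V.FG → ∀ U ∈ (V ::ₘ L), U.FG := by
    intro V hV U hU
    rcases Multiset.mem_cons.1 hU with rfl | hU
    · exact hV
    exact hL U hU
  by_cases e₁ : MM (V ::ₘ L) = 0
  · rw [e₁, mul_zero]
    exact Nat.zero_le _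
  obtain ⟨l, hl, hle⟩ := exists_MM (hn' V) (hL' hV) e₁
  obtain ⟨x, s, hx, hs, rfl⟩ := sel_cons.1 hl
  rw [← hle] at e₁ ⊢
  have hsc : s.card + 1 = n := by rw [← hs.card, hc]
  obtain ⟨hff, htr, u, hu, hui⟩ := md_ff (by rw [hsc, hn]) e₁
  obtain ⟨f₁, hf₁, f₀, hf₀, hf₀0, rfl⟩ := hx
  have hf₁0 : f₁ ≠ 0 := by
    rintro rfl
    rw [zero_div] at htr
    exact htr isAlgebraic_zero
  obtain ⟨S, hS⟩ := hV'
  have hS0 : ∃ t ∈ (S : Set K), t ≠ 0 := by
    obtain ⟨P, -⟩ := exists_place (k := fl s) (K := K)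
    obtain ⟨f', hf', hf'0, -⟩ := hd.2 _ (down_divisorial hsc hu hui P) f₀ hf₀ hf₀0
    rw [← hS] at hf'
    obtain ⟨t, ht, ht0, -⟩ := exists_ord_le P hf' hf'0
    exact ⟨t, ht, ht0⟩
  obtain ⟨v₁, hv₁, v₀, hv₀, hv₁0, hv₀0, hg, -⟩ := gen_pair (M₁ := fl s) (M₂ := fl s)
    (S.finite_toSet) hS0
  have h3 : a • polar (k := fl s) (f₁ / f₀) ≤ a • divisor (fl s) f₀ - divisor (fl s) h -
      b • divisor (fl s) v₀ + b • polar (k := fl s) (v₁ / v₀) := by
    intro P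
    rw [Finsupp.add_apply, Finsupp.sub_apply, Finsupp.sub_apply, Finsupp.smul_apply,
      Finsupp.smul_apply, Finsupp.smul_apply, Finsupp.smul_apply, divisor_apply, divisor_apply,
      divisor_apply, polar_apply (f₁ / f₀), P.ord_div hf₁0 hf₀0, nsmul_eq_mul, nsmul_eq_mul,
      nsmul_eq_mul, nsmul_eq_mul]
    have key : ∀ f ∈ V, f ≠ 0 → (b : ℤ) * (P.ord v₀ - polar (k := fl s) (v₁ / v₀) P) + P.ord h ≤
        a * P.ord f := by
      intro f hf hf0
      obtain ⟨f', hf', hf'0, h4⟩ := hd.2 _ (down_divisorial hsc hu hui P) f hf hf0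
      change (b : ℤ) * P.ord f' + P.ord h ≤ a * P.ord f at h4
      rw [← hS] at hf'
      obtain ⟨t, ht, ht0, h5⟩ := exists_ord_le P hf' hf'0
      have h6 := hg P t ht ht0
      have h7 : (b : ℤ) * (P.ord v₀ - polar (k := fl s) (v₁ / v₀) P) ≤ b * P.ord f' :=
        mul_le_mul_of_nonneg_left (by omega) (Int.natCast_nonneg _)
      linarith
    have h4 := key f₁ hf₁ hf₁0
    have h5 := key f₀ hf₀ hf₀0
    have ha0 : (0 : ℤ) ≤ a := Int.natCast_nonneg _
    rw [mul_max_of_nonneg _ _ ha0]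
    refine max_le ?_ ?_ <;> nlinarith
  have h4 := ddeg_mono h3
  rw [ddeg_add, ddeg_sub, ddeg_sub, ddeg_nsmul, ddeg_nsmul, ddeg_nsmul, ddeg_nsmul, ddeg_divisor,
    ddeg_divisor, ddeg_divisor, ddeg_polar_all, ddeg_polar_all, mul_zero, mul_zero, sub_zero,
    sub_zero, zero_add] at h4
  have h5 : md ((v₁ / v₀) ::ₘ s) ≤ MM (V' ::ₘ L) := by
    refine le_MM (hn' V') (hL' ⟨S, hS⟩) (sel_cons.2 ⟨_, s, ⟨v₁, ?_, v₀, ?_, hv₀0, rfl⟩, hs, rfl⟩)
    · rw [← hS]; exact hv₁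
    · rw [← hS]; exact hv₀
  refine le_trans ?_ (Nat.mul_le_mul_left b h5)
  rw [md_one, md_one]
  exact_mod_cast h4

end

end Pool.Agent.T2H06.DYN
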